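import Pool.Agent.Lib.MP_8e135c_al.Uni

/-!
# Bounded width: the m-dimension is bounded by the nilpotency of the radical
-/

set_option autoImplicit false

universe u v w x

namespace Pool.Agent.Lib.MP_8e135c_al

open HomIdeal

variable {A : Type u} [Ring A] {Q : AddFunctor.{u, v} A}

/-- a persistent generator lowers the width -/
theorem width_drop [IsArtinianRing A] {B Ga Gb Gc : SubFunctor Q} {Da Db Dc : GenData Q} {k : ℕ}
    (hcard : Fintype.card Dc.ι ≤ k + 1) (inda : ∀ i, Indec (Da.N i)) (indb : ∀ i, Indec (Db.N i))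
    (indc : ∀ i, Indec (Dc.N i)) (hGa : ∀ X x, x ∈ Ga.carrier X ↔ InSpan B (top A) Da X x)
    (hGb : ∀ X x, x ∈ Gb.carrier X ↔ InSpan B (top A) Db X x)
    (hGc : ∀ X x, x ∈ Gc.carrier X ↔ InSpan B (top A) Dc X x) (hac : Ga ≤ Gc) (hcb : Gc ≤ Gb)
    {i : Da.ι} (hi : ¬ InSpan B (rad A) Db (Da.N i) (Da.y i)) :
    HasWidth (B.adj (Da.N i) (Da.y i)) k Gc := by
  classical
  have hma : (Da.y i) ∈ Ga.carrier (Da.N i) := (hGa _ _).2 (inSpan_self B Da i)
  have hmc : ∀ l, (Dc.y l) ∈ Gc.carrier (Dc.N l) := fun l => (hGc _ _).2 (inSpan_self B Dc l)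
  have h2 : InSpan B (top A) Dc (Da.N i) (Da.y i) := by
    rw [← hGc]
    exact hac _ hma
  obtain ⟨b0, hb0, h, _, e0⟩ := h2
  have h3 : ∀ l, InSpan B (top A) Db (Dc.N l) (Dc.y l) := by
    intro l
    rw [← hGb]
    exact hcb _ (hmc l)
  choose b1 hb1 f _ e1 using h3
  obtain ⟨l, hl⟩ : ∃ l, Function.Bijective (h l) := by
    by_contra hno
    push Not at hno
    apply hi
    refine ⟨b0 + ∑ l, Q.map (h l) (b1 l), ?_, fun j => ∑ l, h l ∘ₗ f l j, ?_, ?_⟩
    · refine AddSubgroup.add_mem _ hb0 (AddSubgroup.sum_mem _ fun l _ => ?_)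
      exact B.map_mem _ _ (hb1 l)
    · intro j
      refine AddSubgroup.sum_mem _ fun l _ => ?_
      by_contra hr
      exact hno l (bijective_right (indb j) (indc l) (inda i) hr)
    · rw [e0]
      have e2 : ∀ l, Q.map (h l) (Dc.y l) =
          Q.map (h l) (b1 l) + ∑ j, Q.map (h l ∘ₗ f l j) (Db.y j) := by
        intro l
        conv_lhs => rw [e1 l]
        rw [map_add, map_sum]
        congr 1
        exact Finset.sum_congr rfl fun j _ => (Q.map_comp_apply _ _ _).symm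
      rw [Finset.sum_congr rfl fun l _ => e2 l, Finset.sum_add_distrib, ← add_assoc]
      congr 1
      rw [Finset.sum_comm]
      exact Finset.sum_congr rfl fun j _ => (Q.map_sum_apply _ _ _).symm
  obtain ⟨g, hg⟩ : ∃ g : Da.N i →ₗ[A] Dc.N l, g ∘ₗ h l = LinearMap.id :=
    ⟨(LinearEquiv.ofBijective (h l) hl).symm.toLinearMap, by
      ext x
      exact (LinearEquiv.ofBijective (h l) hl).symm_apply_apply x⟩
  have e3 : Q.map g (Da.y i) = Q.map g b0 + (Dc.y l +
      ∑ l' ∈ Finset.univ.erase l, Q.map (g ∘ₗ h l') (Dc.y l')) := by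
    rw [e0, map_add, map_sum]
    congr 1
    rw [← Finset.add_sum_erase _ _ (Finset.mem_univ l)]
    congr 1
    · rw [← Q.map_comp_apply, hg, Q.map_id_apply]
    · exact Finset.sum_congr rfl fun j _ => (Q.map_comp_apply _ _ _).symm
  refine ⟨⟨{l' : Dc.ι // l' ≠ l}, fun l' => Dc.N l'.1, fun l' => Dc.y l'.1⟩, ?_,
    fun l' => indc l'.1, fun X x => ⟨fun hx => ?_, fun hx => ?_⟩⟩
  · have h4 : Fintype.card {l' : Dc.ι // l' ≠ l} < Fintype.card Dc.ι :=
      Fintype.card_subtype_lt (x := l) (by simp)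
    change Fintype.card {l' : Dc.ι // l' ≠ l} ≤ k
    omega
  · rw [hGc] at hx
    obtain ⟨b2, hb2, p, _, e4⟩ := hx
    refine ⟨b2 - Q.map (p l ∘ₗ g) b0 + Q.map (p l ∘ₗ g) (Da.y i),
      ⟨b2 - Q.map (p l ∘ₗ g) b0, ?_, p l ∘ₗ g, rfl⟩,
      fun l' => p l'.1 - p l ∘ₗ (g ∘ₗ h l'.1), fun _ => trivial, ?_⟩
    · exact AddSubgroup.sub_mem _ hb2 (B.map_mem _ _ hb0)
    · have e5 : Q.map (p l ∘ₗ g) (Da.y i) = Q.map (p l ∘ₗ g) b0 + (Q.map (p l) (Dc.y l) +
          ∑ l' ∈ Finset.univ.erase l, Q.map (p l ∘ₗ (g ∘ₗ h l')) (Dc.y l')) := by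
        rw [Q.map_comp_apply, e3, map_add, map_add, map_sum, Q.map_comp_apply]
        congr 2
        exact Finset.sum_congr rfl fun j _ => (Q.map_comp_apply _ _ _).symm
      have e6 : ∑ l' : {l' : Dc.ι // l' ≠ l},
          Q.map (p l'.1 - p l ∘ₗ (g ∘ₗ h l'.1)) (Dc.y l'.1) =
          ∑ l' ∈ Finset.univ.erase l, Q.map (p l' - p l ∘ₗ (g ∘ₗ h l')) (Dc.y l') := by
        symm
        refine Finset.sum_subtype _ (fun l' => ?_)
          (fun l' => Q.map (p l' - p l ∘ₗ (g ∘ₗ h l')) (Dc.y l'))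
        simp
      have e7 : ∑ l' ∈ Finset.univ.erase l, Q.map (p l' - p l ∘ₗ (g ∘ₗ h l')) (Dc.y l') =
          ∑ l' ∈ Finset.univ.erase l, Q.map (p l') (Dc.y l') -
          ∑ l' ∈ Finset.univ.erase l, Q.map (p l ∘ₗ (g ∘ₗ h l')) (Dc.y l') := by
        rw [← Finset.sum_sub_distrib]
        exact Finset.sum_congr rfl fun l' _ => Q.map_sub_apply _ _ _
      have e8 : ∑ l', Q.map (p l') (Dc.y l') = Q.map (p l) (Dc.y l) +
          ∑ l' ∈ Finset.univ.erase l, Q.map (p l') (Dc.y l') :=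
        (Finset.add_sum_erase _ _ (Finset.mem_univ l)).symm
      change x = b2 - Q.map (p l ∘ₗ g) b0 + Q.map (p l ∘ₗ g) (Da.y i) +
        ∑ l' : {l' : Dc.ι // l' ≠ l}, Q.map (p l'.1 - p l ∘ₗ (g ∘ₗ h l'.1)) (Dc.y l'.1)
      rw [e6, e7, e5, e4, e8]
      abel
  · obtain ⟨b2, ⟨b3, hb3, q, rfl⟩, p, _, rfl⟩ := hx
    refine AddSubgroup.add_mem _ (AddSubgroup.add_mem _ ((hGc _ _).2 (inSpan_base hb3)) ?_)
      (AddSubgroup.sum_mem _ fun l' _ => ?_)
    · exact Gc.map_mem _ _ (hac _ hma)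
    · exact Gc.map_mem _ _ (hmc l'.1)

section links

variable {P : Type x} [PartialOrder P] {B : SubFunctor Q} {D : P → GenData Q} {a b : P}
  {σ : Ordinal.{w}}

theorem width_chain {β : Ordinal.{w}}
    (hS : ∀ c d, a ≤ c → c ≤ d → d ≤ b → ¬ MDimLT (σ + β) c d → ∀ i,
      InSpan B (radStep A (Ordinal.omega0 * β)).1 (D d) ((D c).N i) ((D c).y i)) {m : ℕ} {c d : P}
    (hc : a ≤ c) (hd : d ≤ b) (h : LongChain (σ + β) m c d) (i : (D c).ι) :
    InSpan B (radPow A (Ordinal.omega0 * β + m)) (D d) ((D c).N i) ((D c).y i) := by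
  induction m generalizing d with
  | zero =>
    rw [Nat.cast_zero, add_zero]
    exact (hS c d hc h.1 hd h.2 i).mono fun j => base_le_radPow β _ _
  | succ m ih =>
    obtain ⟨e, h1, h2, h3⟩ := h
    rw [radPow_add_succ]
    exact (ih (h2.trans hd) h1).trans (hS e d (hc.trans h1.le) h2 hd h3)

theorem width_link (hD : HomDCC A)
    (hS : ∀ c d, a ≤ c → c ≤ d → d ≤ b → ¬ MDimLT σ c d → ∀ i,
      InSpan B (rad A) (D d) ((D c).N i) ((D c).y i)) (β : Ordinal.{w}) :
    ∀ c d, a ≤ c → c ≤ d → d ≤ b → ¬ MDimLT (σ + β) c d → ∀ i,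
      InSpan B (radStep A (Ordinal.omega0 * β)).1 (D d) ((D c).N i) ((D c).y i) := by
  induction β using Ordinal.limitRecOn with
  | zero =>
    intro c d hc hcd hd h i
    rw [mul_zero, radStep_zero]
    rw [add_zero] at h
    exact hS c d hc hcd hd h i
  | add_one β ih =>
    intro c d hc hcd hd h i
    have h1 : Ordinal.omega0 * (β + 1) = Ordinal.omega0 * β + Ordinal.omega0 := mul_add_one _ _
    have h2 : Order.IsSuccLimit (Ordinal.omega0 * β + Ordinal.omega0) :=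
      Ordinal.isSuccLimit_add _ Ordinal.isSuccLimit_omega0
    obtain ⟨μ, hμ, h3⟩ := exists_stable hD (Set.Iio (Ordinal.omega0 * β + Ordinal.omega0))
      ⟨0, h2.bot_lt⟩ (D d).N ((D c).N i)
    obtain ⟨m, hm⟩ : ∃ m : ℕ, μ ≤ Ordinal.omega0 * β + m := by
      rcases le_total μ (Ordinal.omega0 * β) with h4 | h4
      · exact ⟨0, by rw [Nat.cast_zero, add_zero]; exact h4⟩
      · have h5 : μ - Ordinal.omega0 * β < Ordinal.omega0 := by
          rw [Ordinal.sub_lt_of_le h4]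
          exact hμ
        obtain ⟨m, hm⟩ := Ordinal.lt_omega0.1 h5
        refine ⟨m, ?_⟩
        rw [← hm, Ordinal.add_sub_cancel_of_le h4]
    rw [← add_assoc] at h
    have h4 := width_chain ih hc hd (exists_longChain m hcd h) i
    rw [h1, radStep_limit _ h2]
    refine h4.mono fun j => ?_
    change _ ≤ ⨅ ν : Set.Iio (Ordinal.omega0 * β + Ordinal.omega0), (radPow A ν.1).carrier _ _
    exact le_iInf fun ν => (radPow_anti hm _ _).trans (h3 ν.1 ν.2 j)
  | limit β hβ ih =>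
    intro c d hc hcd hd h i
    have h2 : Order.IsSuccLimit (Ordinal.omega0 * β) :=
      Ordinal.isSuccLimit_mul_left Ordinal.isSuccLimit_omega0 hβ.bot_lt
    obtain ⟨μ, hμ, h3⟩ := exists_stable hD (Set.Iio (Ordinal.omega0 * β))
      ⟨0, h2.bot_lt⟩ (D d).N ((D c).N i)
    obtain ⟨γ, hγ, h4⟩ := (Ordinal.lt_mul_iff_of_isSuccLimit hβ).1 hμ
    have h5 := ih γ hγ c d hc hcd hd (fun h6 => h (h6.mono (add_le_add le_rfl hγ.le))) i
    rw [radStep_limit _ h2]
    refine h5.mono fun j => (base_le_radPow γ _ _).trans ?_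
    change _ ≤ ⨅ ν : Set.Iio (Ordinal.omega0 * β), (radPow A ν.1).carrier _ _
    exact le_iInf fun ν => (radPow_anti h4.le _ _).trans (h3 ν.1 ν.2 j)

end links

/-- **Bounded width.**  Let `rad ^ (ω α + n) = 0` and let `F` embed a partial order into the lattice
of subfunctors.  If every member of the interval `[a, b]` has width at most `k` over `B`, then the
m-dimension of this interval is less than `(α + 1) k`. -/
theorem mDimLT_of_width [IsArtinianRing A] (hD : HomDCC A) {P : Type x} [PartialOrder P]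
    {F : P → SubFunctor Q} (hF : ∀ a b, a ≤ b ↔ F a ≤ F b) (α : Ordinal.{w}) (n : ℕ)
    (hz : ∀ (M N : FGMod A) (f : M →ₗ[A] N),
      f ∈ (radPow A (Ordinal.omega0 * α + n)).carrier M N → f = 0) (k : ℕ) :
    ∀ (B : SubFunctor Q) (a b : P), a ≤ b → (∀ c, a ≤ c → c ≤ b → HasWidth B k (F c)) →
      MDimLT ((α + 1) * k) a b := by
  induction k with
  | zero =>
    intro B a b hab hW
    have h1 : ∀ c, a ≤ c → c ≤ b → ∀ X x, x ∈ (F c).carrier X ↔ x ∈ B.carrier X := by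
      intro c hac hcb X x
      obtain ⟨D, hcard, _, hGD⟩ := hW c hac hcb
      have hemp : IsEmpty D.ι := Fintype.card_eq_zero_iff.1 (Nat.le_zero.1 hcard)
      rw [hGD]
      refine ⟨?_, inSpan_base⟩
      rintro ⟨b, hb, h, _, rfl⟩
      rw [Finset.univ_eq_empty, Finset.sum_empty, add_zero]
      exact hb
    have h2 : b ≤ a := (hF b a).2 fun X x hx => (h1 a le_rfl hab X x).2 ((h1 b hab le_rfl X x).1 hx)
    exact (MDimLT_iff _ _ _).2 (Or.inl (le_antisymm hab h2))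
  | succ k ih =>
    intro B a b hab hW
    have hσ : (α + 1) * ((k + 1 : ℕ) : Ordinal.{w}) = (α + 1) * (k : Ordinal.{w}) + α + 1 := by
      rw [Nat.cast_succ, mul_add_one, add_assoc]
    rw [hσ]
    obtain ⟨D, hDW⟩ : ∃ D : P → GenData Q, ∀ c, a ≤ c → c ≤ b → Fintype.card (D c).ι ≤ k + 1 ∧
        (∀ i, Indec ((D c).N i)) ∧ ∀ X x, x ∈ (F c).carrier X ↔ InSpan B (top A) (D c) X x := by
      have h1 : ∀ c, ∃ E : GenData Q, a ≤ c → c ≤ b → Fintype.card E.ι ≤ k + 1 ∧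
          (∀ i, Indec (E.N i)) ∧ ∀ X x, x ∈ (F c).carrier X ↔ InSpan B (top A) E X x := by
        intro c
        by_cases hc : a ≤ c ∧ c ≤ b
        · obtain ⟨E, hE⟩ := hW c hc.1 hc.2
          exact ⟨E, fun _ _ => hE⟩
        · obtain ⟨E, _⟩ := hW a le_rfl hab
          exact ⟨E, fun h1 h2 => absurd ⟨h1, h2⟩ hc⟩
      choose D hD using h1
      exact ⟨D, hD⟩
    have hS : ∀ c d, a ≤ c → c ≤ d → d ≤ b → ¬ MDimLT ((α + 1) * (k : Ordinal.{w})) c d → ∀ i,
        InSpan B (rad A) (D d) ((D c).N i) ((D c).y i) := by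
      intro c d hc hcd hd h i
      by_contra hi
      refine h (ih (B.adj ((D c).N i) ((D c).y i)) c d hcd fun e hce hed => ?_)
      have hDc := hDW c hc (hcd.trans hd)
      have hDd := hDW d (hc.trans hcd) hd
      have hDe := hDW e (hc.trans hce) (hed.trans hd)
      exact width_drop hDe.1 hDc.2.1 hDd.2.1 hDe.2.1 hDc.2.2 hDd.2.2 hDe.2.2 ((hF _ _).1 hce)
        ((hF _ _).1 hed) hi
    by_contra hc
    obtain ⟨c, h1, h2, h3⟩ := (exists_longChain (n + 1) hab hc).uncons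
    have h4 := width_chain (width_link hD hS α) h1 le_rfl h3
    have h5 : ∀ i, (D c).y i ∈ B.carrier ((D c).N i) := by
      intro i
      obtain ⟨b', hb', f, hf, e⟩ := h4 i
      have h6 : (D c).y i = b' := by
        rw [e]
        have h7 : ∀ j, f j = 0 := fun j => hz _ _ _ (hf j)
        simp only [h7, Q.map_zero_apply, Finset.sum_const_zero, add_zero]
      rw [h6]
      exact hb'
    have h6 : c ≤ a := by
      refine (hF _ _).2 fun X x hx => ?_
      rw [(hDW c h1 h3.le).2.2] at hx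
      obtain ⟨b', hb', f, _, rfl⟩ := hx
      refine AddSubgroup.add_mem _ ?_ (AddSubgroup.sum_mem _ fun i _ => ?_)
      · exact ((hDW a le_rfl hab).2.2 _ _).2 (inSpan_base hb')
      · exact ((hDW a le_rfl hab).2.2 _ _).2 (inSpan_base (B.map_mem _ _ (h5 i)))
    exact h2 ((MDimLT_iff _ _ _).2 (Or.inl (le_antisymm h1 h6)))

end Pool.Agent.Lib.MP_8e135c_al
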