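import Pool.Agent.Lib.MP_8e135c_al.Tower

/-!
# The structure theorems for the lattice of pp conditions
-/

set_option autoImplicit false

universe u v w s x

namespace Pool.Agent.Lib.MP_8e135c_al

open HomIdeal

variable {A : Type u} [Ring A]

/-! ### a dense set in a lattice as a linear order -/

/-- a set of pairwise comparable elements as a linear order -/
@[reducible]
noncomputable def chainOrder {P : Type v} [PartialOrder P] (C : Set P)
    (h : ∀ c ∈ C, ∀ d ∈ C, c ≤ d ∨ d ≤ c) : LinearOrder C :=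
  { (inferInstance : PartialOrder C) with
    le_total := fun a b => h a.1 a.2 b.1 b.2
    toDecidableLE := Classical.decRel _
    toDecidableEq := Classical.decEq _
    toDecidableLT := Classical.decRel _ }

/-- every pp condition above `ψ` has some finite width over `ψ` -/
theorem exists_width [IsArtinianRing A] {n : ℕ} (ψ G : SubFunctor (powFunctor A n)) (h : ψ ≤ G)
    (hG : IsPP G) : ∃ k, HasWidth ψ k G := by
  obtain ⟨N, y, rfl⟩ := exists_genF hG
  obtain ⟨ι, hι, M, a, p, hM, hsum⟩ := decomposes N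
  refine ⟨Fintype.card ι, ⟨ι, M, fun i => (powFunctor A n).map (p i) y⟩, le_rfl, hM, fun X x => ?_⟩
  constructor
  · rintro ⟨f, hf⟩
    refine ⟨0, AddSubgroup.zero_mem _, fun i => f ∘ₗ a i, fun _ => trivial, ?_⟩
    rw [zero_add]
    have e1 : ∀ i, (powFunctor A n).map (f ∘ₗ a i) ((powFunctor A n).map (p i) y) =
        (powFunctor A n).map (f ∘ₗ (a i ∘ₗ p i)) y := fun i => rfl
    rw [Finset.sum_congr rfl fun i _ => e1 i, ← (powFunctor A n).map_sum_apply]
    have e2 : ∑ i, f ∘ₗ (a i ∘ₗ p i) = f := by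
      have h1 : ∑ i, f ∘ₗ (a i ∘ₗ p i) = f ∘ₗ (∑ i, a i ∘ₗ p i) := by
        ext z
        simp only [LinearMap.sum_apply, LinearMap.comp_apply, map_sum]
      rw [h1, hsum, LinearMap.comp_id]
    rw [e2]
    funext i
    exact hf i
  · rintro ⟨b, hb, f, _, rfl⟩
    refine AddSubgroup.add_mem _ (h X hb) (AddSubgroup.sum_mem _ fun i _ => ?_)
    exact ⟨f i ∘ₗ p i, fun _ => rfl⟩

/-- the width relation for pp conditions: `c` is the sum of `ψ` and at most `k` pp conditions freely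
realised in indecomposable modules -/
def PPWidth {n : ℕ} (ψ : PPCond A n) (k : ℕ) (c : PPCond A n) : Prop := HasWidth ψ.1 k c.1

/-- **The tower theorem for the lattice of pp conditions.** -/
theorem exists_pp_tower [IsArtinianRing A] (hD : HomDCC A) (hz : TransRadZero.{u, w} A) {n : ℕ}
    (ψ φ : PPCond A n) (h : MDimInfinite.{u + 1, u} ψ φ) :
    ∃ a b θ : ℕ → PPCond A n,
      (∀ i, ψ ≤ a i ∧ a i ≤ a (i + 1) ∧ b (i + 1) ≤ b i ∧ b i ≤ φ ∧ MDimInfinite.{u + 1, u} (a i) (b i)) ∧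
      (∀ i, θ i ≤ a (i + 1) ∧ ∃ (N : FGMod A) (y : Fin n → N), Indec N ∧ (θ i).1 = genF N y) ∧
      (∀ i c, a i ≤ c → c ≤ b i → ∀ k, PPWidth ψ k c → i ≤ k) ∧
      ∀ (m : ℕ) (J : Finset ℕ), m ∉ J → ∃ ξ : PPCond A n, ψ ≤ ξ ∧ (∀ j ∈ J, θ j ≤ ξ) ∧ ¬ θ m ≤ ξ := by
  classical
  obtain ⟨C, hC1, hC2, ⟨c, hc, d, hd, hcd⟩, hC4, hC3⟩ := exists_dense_chain.{u + 1, u}
    (W := fun _ => True) h (fun a b _ _ hab => by
      obtain ⟨c, h1, h2⟩ := hab.exists_between
      exact ⟨c, trivial, h1, h2⟩)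
  let _ : LinearOrder C := chainOrder C hC2
  have : DenselyOrdered C := ⟨fun a b hab => by
    obtain ⟨e, he, h1, h2⟩ := hC3 a.1 a.2 b.1 b.2 hab
    exact ⟨⟨e, he⟩, h1, h2⟩⟩
  obtain ⟨a, b, N, y, hab, ha0, hb0, hamono, hbanti, hN, hy, hwid, hirr⟩ := exists_tower hD hz ψ.1 (S := C)
    (fun c => c.1.1) (fun a b hab => hab)
    (fun c => exists_width ψ.1 c.1.1 (hC1 c.1 c.2).2.1 c.1.2) ⟨c, hc⟩ ⟨d, hd⟩ hcd
  refine ⟨fun i => (a i).1, fun i => (b i).1, fun i => ⟨genF (N i) (y i), isPP_genF _ _⟩,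
    fun i => ⟨(hC1 _ (a i).2).2.1, hamono (Nat.le_succ i), hbanti (Nat.le_succ i), (hC1 _ (b i).2).2.2,
      hC4 _ (a i).2 _ (b i).2 (hab i)⟩, fun i => ⟨?_, N i, y i, hN i, rfl⟩,
    fun i c h1 h2 k hk => hwid i c.1 h1 h2 k hk, ?_⟩
  · rintro X x ⟨f, hf⟩
    have h2 : x = (powFunctor A n).map f (y i) := funext hf
    rw [h2]
    exact (a (i + 1)).1.1.map_mem f _ (hy i)
  · intro m J hmJ
    obtain ⟨D, hDdef⟩ : ∃ D : GenData (powFunctor A n),
        D = ⟨{j : ℕ // j ∈ J}, fun j => N j.1, fun j => y j.1⟩ := ⟨_, rfl⟩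
    refine ⟨⟨spanF ψ.1 D, isPP_spanF ψ.2 _⟩, fun X x hx => inSpan_base hx, ?_, ?_⟩
    · intro j hj X x hx
      obtain ⟨f, hf⟩ := hx
      have h2 : x = (powFunctor A n).map f (y j) := funext hf
      rw [h2]
      refine (spanF ψ.1 D).map_mem f _ ?_
      subst hDdef
      exact inSpan_self ψ.1 (⟨{j : ℕ // j ∈ J}, fun j => N j.1, fun j => y j.1⟩ :
        GenData (powFunctor A n)) ⟨j, hj⟩
    · intro hle
      have h1 : y m ∈ (genF (N m) (y m)).carrier (N m) := ⟨LinearMap.id, fun i => rfl⟩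
      subst hDdef
      obtain ⟨b, hb, f, _, e⟩ := hle (N m) h1
      apply hirr m J hmJ
      refine ⟨b, hb, fun j => if hj : j ∈ J then f ⟨j, hj⟩ else 0, ?_⟩
      rw [e]
      congr 1
      rw [← Finset.sum_coe_sort J]
      refine Finset.sum_congr rfl fun j _ => ?_
      beta_reduce
      rw [dif_pos (show (j : {j : ℕ // j ∈ J}).1 ∈ J from j.2)]

end Pool.Agent.Lib.MP_8e135c_al
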