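import Pool.Agent.Lib.MP_8e135c_al.Breadth
import Pool.Agent.Lib.MP_8e135c_al.Struct

/-!
# Intervals of finite breadth in the lattice of pp conditions
-/

set_option autoImplicit false

universe u v w x

namespace Pool.Agent.Lib.MP_8e135c_al

open HomIdeal

variable {A : Type u} [Ring A]

/-- the interval `[ψ, χ]` has breadth at most `k`: among any `k + 1` members one is below the sum of
`ψ` and the others -/
def BreadthLE {r : ℕ} (k : ℕ) (ψ χ : PPCond A r) : Prop :=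
  ∀ c : Fin (k + 1) → PPCond A r, (∀ i, ψ ≤ c i ∧ c i ≤ χ) →
    ∃ i, ∀ ξ, ψ ≤ ξ → (∀ j, j ≠ i → c j ≤ ξ) → c i ≤ ξ

theorem isPP_adj [IsArtinianRing A] {r : ℕ} (ψ : PPCond A r) (N : FGMod A)
    (y : (powFunctor A r).obj N) : IsPP (ψ.1.adj N y) := by
  have key : ψ.1.adj N y = ψ.1 ⊔ genF N y := by
    apply SubFunctor.ext
    funext X
    ext x
    change _ ↔ x ∈ ψ.1.carrier X ⊔ (genF N y).carrier X
    rw [AddSubgroup.mem_sup]
    constructor
    · rintro ⟨b, hb, h, rfl⟩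
      exact ⟨b, hb, _, ⟨h, fun i => rfl⟩, rfl⟩
    · rintro ⟨b, hb, z, ⟨h, hh⟩, rfl⟩
      refine ⟨b, hb, h, ?_⟩
      congr 1
      funext i
      exact hh i
  rw [key]
  exact isPP_sup ψ.2 (isPP_genF _ _)

theorem hasWidth_of_breadth [IsArtinianRing A] {r k : ℕ} {ψ χ : PPCond A r}
    (hbr : BreadthLE k ψ χ) {b : PPCond A r} (h1 : ψ ≤ b) (h2 : b ≤ χ) : PPWidth ψ k b := by
  classical
  have hex : ∃ k', HasWidth ψ.1 k' b.1 := exists_width ψ.1 b.1 h1 b.2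
  obtain ⟨D, hcard, hind, hGD⟩ := Nat.find_spec hex
  by_cases hk : Nat.find hex ≤ k
  · exact ⟨D, hcard.trans hk, hind, hGD⟩
  exfalso
  push Not at hk
  have hcardge : Nat.find hex ≤ Fintype.card D.ι := Nat.find_min' hex ⟨D, le_rfl, hind, hGD⟩
  obtain ⟨e⟩ : Nonempty (Fin (k + 1) ↪ D.ι) := by
    apply Function.Embedding.nonempty_of_card_le
    rw [Fintype.card_fin]
    omega
  have hadj_le : ∀ (i : D.ι) (ξ : SubFunctor (powFunctor A r)), ψ.1 ≤ ξ →
      D.y i ∈ ξ.carrier (D.N i) → ψ.1.adj (D.N i) (D.y i) ≤ ξ := by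
    rintro i ξ hξ hy X _ ⟨b', hb', g, rfl⟩
    exact AddSubgroup.add_mem _ (hξ _ hb') (ξ.map_mem g _ hy)
  have hy_adj : ∀ i : D.ι, D.y i ∈ (ψ.1.adj (D.N i) (D.y i)).carrier (D.N i) := fun i =>
    ⟨0, AddSubgroup.zero_mem _, LinearMap.id, by rw [AddFunctor.map_id_apply, zero_add]⟩
  have hyb : ∀ i : D.ι, D.y i ∈ b.1.carrier (D.N i) := fun i =>
    (hGD _ _).2 (inSpan_self ψ.1 D i)
  obtain ⟨i, hi⟩ := hbr (fun i => ⟨ψ.1.adj (D.N (e i)) (D.y (e i)), isPP_adj ψ _ _⟩) (fun i => by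
    constructor
    · intro X x hx
      exact ⟨x, hx, 0, by rw [AddFunctor.map_zero_apply, add_zero]⟩
    · exact le_trans (b := b) (hadj_le (e i) b.1 h1 (hyb (e i))) h2)
  obtain ⟨E, hE⟩ : ∃ E : GenData (powFunctor A r),
      E = ⟨{l : D.ι // l ≠ e i}, fun l => D.N l.1, fun l => D.y l.1⟩ := ⟨_, rfl⟩
  have hyE : ∀ l : D.ι, l ≠ e i → D.y l ∈ (spanF ψ.1 E).carrier (D.N l) := by
    intro l hl
    subst hE
    exact inSpan_self ψ.1 (⟨{l : D.ι // l ≠ e i}, fun l => D.N l.1, fun l => D.y l.1⟩ :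
      GenData (powFunctor A r)) ⟨l, hl⟩
  have hψE : ψ.1 ≤ spanF ψ.1 E := fun X x hx => inSpan_base hx
  have hle := hi ⟨spanF ψ.1 E, isPP_spanF ψ.2 _⟩ hψE (fun j hj =>
    hadj_le (e j) _ hψE (hyE (e j) fun h => hj (e.injective h)))
  have hyi : D.y (e i) ∈ (spanF ψ.1 E).carrier (D.N (e i)) := hle _ (hy_adj (e i))
  have hyall : ∀ l, D.y l ∈ (spanF ψ.1 E).carrier (D.N l) := by
    intro l
    by_cases hl : l = e i
    · rw [hl]
      exact hyi
    · exact hyE l hl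
  have hW : HasWidth ψ.1 (Nat.find hex - 1) b.1 := by
    refine ⟨E, ?_, ?_, fun X x => ⟨fun hx => ?_, fun hx => ?_⟩⟩
    · subst hE
      have h4 : Fintype.card {l : D.ι // l ≠ e i} < Fintype.card D.ι :=
        Fintype.card_subtype_lt (x := e i) (by simp)
      change Fintype.card {l : D.ι // l ≠ e i} ≤ _
      omega
    · subst hE
      exact fun l => hind l.1
    · rw [hGD] at hx
      obtain ⟨b', hb', f, _, rfl⟩ := hx
      exact AddSubgroup.add_mem (spanF ψ.1 E |>.carrier X) (hψE _ hb')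
        (AddSubgroup.sum_mem _ fun l _ => (spanF ψ.1 E).map_mem _ _ (hyall l))
    · subst hE
      obtain ⟨b', hb', f, _, rfl⟩ := hx
      exact AddSubgroup.add_mem _ (h1 _ hb')
        (AddSubgroup.sum_mem _ fun l _ => b.1.map_mem _ _ (hyb l.1))
  have h5 := Nat.find_min' hex hW
  omega

/-- **chains of bounded width** -/
theorem mDimLT_of_ppWidth [IsArtinianRing A] (hD : HomDCC A) (α : Ordinal.{w}) (n : ℕ)
    (hz : ∀ (M N : FGMod A) (f : M →ₗ[A] N),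
      f ∈ (radPow A (Ordinal.omega0 * α + n)).carrier M N → f = 0) {r : ℕ} (k : ℕ)
    (ψ : PPCond A r) (C : Set (PPCond A r)) (a b : C) (hab : a ≤ b)
    (hW : ∀ c : C, a ≤ c → c ≤ b → PPWidth ψ k c.1) : MDimLT ((α + 1) * k) a b :=
  mDimLT_of_width (F := fun c : C => c.1.1) hD (fun _ _ => Iff.rfl) α n hz k ψ.1 a b hab hW

/-- **intervals of bounded breadth** -/
theorem mDimLT_of_breadth [IsArtinianRing A] (hD : HomDCC A) (α : Ordinal.{w}) (n : ℕ)
    (hz : ∀ (M N : FGMod A) (f : M →ₗ[A] N),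
      f ∈ (radPow A (Ordinal.omega0 * α + n)).carrier M N → f = 0) {r : ℕ} (k : ℕ)
    (ψ χ : PPCond A r) (h : ψ ≤ χ) (hbr : BreadthLE k ψ χ) : MDimLT ((α + 1) * k) ψ χ :=
  mDimLT_of_width (F := fun c : PPCond A r => c.1) hD (fun _ _ => Iff.rfl) α n hz k ψ.1 ψ χ h
    (fun _ h1 h2 => hasWidth_of_breadth hbr h1 h2)

end Pool.Agent.Lib.MP_8e135c_al
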