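import Pool.Agent.Lib.MP_8e135c_al.Rad

/-!
# Dense chains of bounded width force the transfinite radical to be nonzero
-/

set_option autoImplicit false

universe u v w s

namespace Pool.Agent.Lib.MP_8e135c_al

open HomIdeal

variable {A : Type u} [Ring A]

/-- an additive functor from finitely generated `A`-modules to abelian groups -/
structure AddFunctor (A : Type u) [Ring A] where
  obj : FGMod A → Type v
  [grp : ∀ M, AddCommGroup (obj M)]
  map : ∀ {M N : FGMod A}, Hom M N → (obj M →+ obj N)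
  map_id : ∀ M : FGMod A, map (LinearMap.id : Hom M M) = AddMonoidHom.id (obj M)
  map_comp : ∀ {M N X : FGMod A} (g : Hom N X) (f : Hom M N), map (cmp g f) = (map g).comp (map f)
  map_add : ∀ {M N : FGMod A} (f g : Hom M N), map (f + g) = map f + map g

attribute [instance] AddFunctor.grp

namespace AddFunctor

variable (Q : AddFunctor.{u, v} A)

/-- the action on morphisms as an additive map -/
def mapHom (M N : FGMod A) : (M →ₗ[A] N) →+ (Q.obj M →+ Q.obj N) where
  toFun := Q.map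
  map_zero' := by
    have h := Q.map_add (0 : M →ₗ[A] N) 0
    rw [add_zero] at h
    exact left_eq_add.1 h
  map_add' := Q.map_add

theorem map_comp_apply {M N X : FGMod A} (g : N →ₗ[A] X) (f : M →ₗ[A] N) (x : Q.obj M) :
    Q.map (g ∘ₗ f) x = Q.map g (Q.map f x) := by
  rw [Q.map_comp]
  rfl

theorem map_id_apply {M : FGMod A} (x : Q.obj M) : Q.map (LinearMap.id : M →ₗ[A] M) x = x := by
  rw [Q.map_id]
  rfl

theorem map_add_apply {M N : FGMod A} (f g : M →ₗ[A] N) (x : Q.obj M) :
    Q.map (f + g) x = Q.map f x + Q.map g x := by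
  rw [Q.map_add]
  rfl

theorem map_zero_apply {M N : FGMod A} (x : Q.obj M) : Q.map (0 : M →ₗ[A] N) x = 0 := by
  have h := (Q.mapHom M N).map_zero
  exact DFunLike.congr_fun h x

theorem map_neg_apply {M N : FGMod A} (f : M →ₗ[A] N) (x : Q.obj M) : Q.map (-f) x = -Q.map f x := by
  have h := (Q.mapHom M N).map_neg f
  exact DFunLike.congr_fun h x

theorem map_sub_apply {M N : FGMod A} (f g : M →ₗ[A] N) (x : Q.obj M) :
    Q.map (f - g) x = Q.map f x - Q.map g x := by
  have h := (Q.mapHom M N).map_sub f g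
  exact DFunLike.congr_fun h x

theorem map_sum_apply {ι : Type*} (t : Finset ι) {M N : FGMod A} (f : ι → (M →ₗ[A] N)) (x : Q.obj M) :
    Q.map (∑ i ∈ t, f i) x = ∑ i ∈ t, Q.map (f i) x := by
  have h := map_sum (Q.mapHom M N) f t
  have h2 := DFunLike.congr_fun h x
  rw [AddMonoidHom.finsetSum_apply] at h2
  exact h2

end AddFunctor

/-- a subfunctor of `Q` -/
@[ext]
structure SubFunctor (Q : AddFunctor.{u, v} A) where
  carrier : ∀ M : FGMod A, AddSubgroup (Q.obj M)
  map_mem : ∀ {M N : FGMod A} (f : Hom M N) (x : Q.obj M), x ∈ carrier M → Q.map f x ∈ carrier N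

namespace SubFunctor

variable {Q : AddFunctor.{u, v} A}

instance : PartialOrder (SubFunctor Q) where
  le F G := ∀ M, F.carrier M ≤ G.carrier M
  le_refl F M := le_refl _
  le_trans F G H h1 h2 M := (h1 M).trans (h2 M)
  le_antisymm F G h1 h2 := SubFunctor.ext (funext fun M => le_antisymm (h1 M) (h2 M))

end SubFunctor

/-- finitely many elements `y i ∈ Q (N i)` -/
structure GenData (Q : AddFunctor.{u, v} A) where
  ι : Type
  [fin : Fintype ι]
  N : ι → FGMod A
  y : ∀ i, Q.obj (N i)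

attribute [instance] GenData.fin

/-- `x ∈ B (X) + ∑ i, J (N i, X) • y i` -/
def InSpan {Q : AddFunctor.{u, v} A} (B : SubFunctor Q) (J : HomIdeal A) (D : GenData Q) (X : FGMod A)
    (x : Q.obj X) : Prop :=
  ∃ b ∈ B.carrier X, ∃ h : ∀ i, Hom (D.N i) X, (∀ i, h i ∈ J.carrier (D.N i) X) ∧
    x = b + ∑ i, Q.map (h i) (D.y i)

/-- an indecomposable module -/
def Indec (M : FGMod A) : Prop :=
  Nontrivial M ∧ ∀ U V : Submodule A M, IsCompl U V → U = ⊥ ∨ V = ⊥

/-- `G = B + (subfunctor generated by at most k elements of indecomposable modules)` -/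
def HasWidth {Q : AddFunctor.{u, v} A} (B : SubFunctor Q) (k : ℕ) (G : SubFunctor Q) : Prop :=
  ∃ D : GenData Q, Fintype.card D.ι ≤ k ∧ (∀ i, Indec (D.N i)) ∧
    ∀ X x, x ∈ G.carrier X ↔ InSpan B (top A) D X x

/-! ### Fitting -/

theorem isCompl_of_bijective {M N X : FGMod A} (f : M →ₗ[A] N) (g : N →ₗ[A] X)
    (h : Function.Bijective (g ∘ₗ f)) : IsCompl (LinearMap.range f) (LinearMap.ker g) := by
  constructor
  · rw [disjoint_iff, eq_bot_iff]
    rintro _ ⟨⟨m, rfl⟩, h2⟩
    have h3 : (g ∘ₗ f) m = (g ∘ₗ f) 0 := by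
      rw [map_zero]
      exact h2
    rw [h.1 h3, map_zero]
    exact Submodule.zero_mem _
  · rw [codisjoint_iff, eq_top_iff]
    intro y _
    obtain ⟨m, hm⟩ := h.2 (g y)
    have hm' : g (f m) = g y := hm
    have h3 : y = f m + (y - f m) := by abel
    rw [h3]
    refine Submodule.add_mem_sup ⟨m, rfl⟩ ?_
    rw [LinearMap.mem_ker, map_sub, hm', sub_self]

theorem bijective_of_not_mem_rad [IsArtinianRing A] {M N : FGMod A} (hM : Indec M) (hN : Indec N)
    {f : M →ₗ[A] N} (hf : f ∉ (rad A).carrier M N) : Function.Bijective f := by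
  have hf' : ¬ ∀ g : N →ₗ[A] M, IsUnit ((1 : Module.End A M) - g ∘ₗ f) := hf
  push Not at hf'
  obtain ⟨g, hg⟩ := hf'
  obtain ⟨e, he⟩ : ∃ e : Module.End A M, e = (1 : Module.End A M) - g ∘ₗ f := ⟨_, rfl⟩
  rw [← he] at hg
  obtain ⟨n, hn⟩ := Filter.eventually_atTop.1 (LinearMap.eventually_isCompl_ker_pow_range_pow e)
  have h1 := hn (n + 1) (Nat.le_succ n)
  have hgf : Function.Bijective (g ∘ₗ f) := by
    rcases hM.2 _ _ h1 with h2 | h2
    · exfalso
      apply hg
      have h3 : LinearMap.range (e ^ (n + 1)) = ⊤ := by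
        rw [h2] at h1
        exact eq_top_of_bot_isCompl h1
      have h4 : IsUnit (e ^ (n + 1)) := by
        rw [Module.End.isUnit_iff]
        exact ⟨LinearMap.ker_eq_bot.1 h2, LinearMap.range_eq_top.1 h3⟩
      exact (isUnit_pow_iff (Nat.succ_ne_zero n)).1 h4
    · have h3 : IsNilpotent e := ⟨n + 1, LinearMap.range_eq_bot.1 h2⟩
      have h4 := h3.isUnit_one_sub
      rw [he, sub_sub_cancel] at h4
      exact (Module.End.isUnit_iff _).1 h4
  have h5 := isCompl_of_bijective f g hgf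
  have hfi : Function.Injective f := fun a b hab => hgf.1 (by
    change g (f a) = g (f b)
    rw [hab])
  refine ⟨hfi, ?_⟩
  rcases hN.2 _ _ h5 with h6 | h6
  · exfalso
    obtain ⟨a, b, hab⟩ := hM.1
    apply hab
    apply hfi
    rw [LinearMap.range_eq_bot.1 h6]
    rfl
  · rw [h6] at h5
    exact LinearMap.range_eq_top.1 (eq_top_of_isCompl_bot h5)

theorem bijective_right [IsArtinianRing A] {M N X : FGMod A} (hM : Indec M) (hN : Indec N) (hX : Indec X)
    {f : M →ₗ[A] N} {g : N →ₗ[A] X} (h : g ∘ₗ f ∉ (rad A).carrier M X) : Function.Bijective g := by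
  have h1 := bijective_of_not_mem_rad hM hX h
  have h2 : Function.Surjective g := fun x => by
    obtain ⟨m, hm⟩ := h1.2 x
    exact ⟨f m, hm⟩
  refine ⟨?_, h2⟩
  rcases hN.2 _ _ (isCompl_of_bijective f g h1) with h3 | h3
  · exfalso
    obtain ⟨a, b, hab⟩ := hM.1
    apply hab
    apply h1.1
    rw [LinearMap.range_eq_bot.1 h3]
    rfl
  · exact LinearMap.ker_eq_bot.1 h3

/-! ### spans -/

section span

variable {Q : AddFunctor.{u, v} A} {B : SubFunctor Q}

theorem InSpan.mono {J J' : HomIdeal A} {D : GenData Q} {X : FGMod A} {x : Q.obj X}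
    (h : InSpan B J D X x) (hJ : ∀ i, J.carrier (D.N i) X ≤ J'.carrier (D.N i) X) : InSpan B J' D X x := by
  obtain ⟨b, hb, f, hf, e⟩ := h
  exact ⟨b, hb, f, fun i => hJ i (hf i), e⟩

theorem InSpan.trans {J J' : HomIdeal A} {D E : GenData Q} {X : FGMod A} {x : Q.obj X}
    (h : InSpan B J D X x) (h' : ∀ i, InSpan B J' E (D.N i) (D.y i)) : InSpan B (mul J J') E X x := by
  obtain ⟨b, hb, f, hf, rfl⟩ := h
  choose b' hb' f' hf' e' using h'
  refine ⟨b + ∑ i, Q.map (f i) (b' i), ?_, fun j => ∑ i, f i ∘ₗ f' i j, ?_, ?_⟩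
  · refine AddSubgroup.add_mem _ hb (AddSubgroup.sum_mem _ fun i _ => ?_)
    exact B.map_mem _ _ (hb' i)
  · intro j
    refine AddSubgroup.sum_mem _ fun i _ => ?_
    exact AddSubgroup.subset_closure ⟨_, _, _, hf i, hf' i j, rfl⟩
  · have e1 : ∀ i, Q.map (f i) (D.y i) = Q.map (f i) (b' i) + ∑ j, Q.map (f i ∘ₗ f' i j) (E.y j) := by
      intro i
      rw [e' i, map_add, map_sum]
      congr 1
      exact Finset.sum_congr rfl fun j _ => (Q.map_comp_apply _ _ _).symm
    rw [Finset.sum_congr rfl fun i _ => e1 i, Finset.sum_add_distrib, ← add_assoc]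
    congr 1
    rw [Finset.sum_comm]
    exact Finset.sum_congr rfl fun j _ => (Q.map_sum_apply _ _ _).symm

theorem inSpan_self (B : SubFunctor Q) (D : GenData Q) (i : D.ι) :
    InSpan B (top A) D (D.N i) (D.y i) := by
  classical
  refine ⟨0, AddSubgroup.zero_mem _, fun j => if h : j = i then h ▸ LinearMap.id else 0,
    fun _ => trivial, ?_⟩
  rw [zero_add, Finset.sum_eq_single i]
  · beta_reduce
    rw [dif_pos rfl]
    exact (Q.map_id_apply _).symm
  · intro j _ hj
    beta_reduce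
    rw [dif_neg hj, Q.map_zero_apply]
  · intro h
    exact absurd (Finset.mem_univ i) h

theorem inSpan_base {J : HomIdeal A} {D : GenData Q} {X : FGMod A} {x : Q.obj X}
    (hx : x ∈ B.carrier X) : InSpan B J D X x :=
  ⟨x, hx, fun _ => 0, fun _ => AddSubgroup.zero_mem _, by
    simp only [Q.map_zero_apply, Finset.sum_const_zero, add_zero]⟩

end span

/-- `B + [y]` -/
def SubFunctor.adj {Q : AddFunctor.{u, v} A} (B : SubFunctor Q) (N : FGMod A) (y : Q.obj N) :
    SubFunctor Q where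
  carrier X :=
    { carrier := {x | ∃ b ∈ B.carrier X, ∃ g : N →ₗ[A] X, x = b + Q.map g y}
      zero_mem' := ⟨0, AddSubgroup.zero_mem _, 0, by rw [Q.map_zero_apply, add_zero]⟩
      add_mem' := by
        rintro _ _ ⟨b, hb, g, rfl⟩ ⟨b', hb', g', rfl⟩
        exact ⟨b + b', AddSubgroup.add_mem _ hb hb', g + g', by rw [Q.map_add_apply]; abel⟩
      neg_mem' := by
        rintro _ ⟨b, hb, g, rfl⟩
        exact ⟨-b, AddSubgroup.neg_mem _ hb, -g, by rw [Q.map_neg_apply]; abel⟩ }
  map_mem {M N'} f x := by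
    rintro ⟨b, hb, g, rfl⟩
    exact ⟨Q.map f b, B.map_mem f b hb, f ∘ₗ g, by rw [map_add, Q.map_comp_apply]⟩

end Pool.Agent.Lib.MP_8e135c_al
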