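import Pool.Agent.Lib.MP_8e135c_al.Core

/-!
# Dense chains of bounded width force the transfinite radical to be nonzero
-/

set_option autoImplicit false

universe u v w s x

namespace Pool.Agent.Lib.MP_8e135c_al

open HomIdeal

variable {A : Type u} [Ring A]

/-! ### the descending chain condition -/

/-- the components of a decreasing family of ideals stabilise on a given pair of modules -/
def HomDCC (A : Type u) [Ring A] : Prop :=
  ∀ (M N : FGMod A) (Ω : Set (HomIdeal A)), Ω.Nonempty →
    (∀ I ∈ Ω, ∀ J ∈ Ω, I.carrier M N ≤ J.carrier M N ∨ J.carrier M N ≤ I.carrier M N) →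
    ∃ I ∈ Ω, ∀ J ∈ Ω, I.carrier M N ≤ J.carrier M N

theorem homDCC_of_artinAlgebra (K : Type x) [CommRing K] [IsArtinianRing K] [Algebra K A]
    [Module.Finite K A] : HomDCC A := by
  intro M N Ω hne htot
  let _ : Module K N := Module.compHom N (algebraMap K A)
  have hs : ∀ (c : K) (n : N), c • n = algebraMap K A c • n := fun _ _ => rfl
  have : IsScalarTower K A N := ⟨fun c a n => by
    rw [hs, Algebra.smul_def, mul_smul]⟩
  have : SMulCommClass A K N := ⟨fun a c n => by
    rw [hs, hs, ← mul_smul, ← mul_smul, Algebra.commutes]⟩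
  have : Module.Finite K N := Module.Finite.trans A N
  have : IsArtinian K N := inferInstance
  obtain ⟨n, g, hg⟩ := Module.Finite.exists_fin (R := A) (M := M)
  let ev : (M →ₗ[A] N) →ₗ[K] (Fin n → N) :=
    { toFun := fun f i => f (g i)
      map_add' := fun _ _ => rfl
      map_smul' := fun _ _ => rfl }
  have hev : Function.Injective ev := fun f f' h => by
    refine LinearMap.ext_on_range hg fun i => ?_
    exact congrFun h i
  have : IsArtinian K (M →ₗ[A] N) := isArtinian_of_injective ev hev
  let toS : HomIdeal A → Submodule K (M →ₗ[A] N) := fun I =>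
    { carrier := I.carrier M N
      zero_mem' := (I.carrier M N).zero_mem
      add_mem' := fun ha hb => (I.carrier M N).add_mem ha hb
      smul_mem' := fun c f hf => by
        have h1 : c • f = (c • (LinearMap.id : N →ₗ[A] N)) ∘ₗ f := rfl
        rw [h1]
        exact I.comp_left _ f hf }
  obtain ⟨W, ⟨I, hI, rfl⟩, hW⟩ := IsArtinian.set_has_minimal (toS '' Ω) (hne.image _)
  refine ⟨I, hI, fun J hJ => ?_⟩
  rcases htot I hI J hJ with h | h
  · exact h
  · have h1 : ¬ toS J < toS I := hW (toS J) ⟨J, hJ, rfl⟩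
    have h2 : toS J ≤ toS I := h
    have h3 : toS I ≤ toS J := by
      by_contra h4
      exact h1 (lt_of_le_not_ge h2 h4)
    exact h3

/-! ### powers decrease -/

theorem mul_le_left {I J : HomIdeal A} {M N : FGMod A} : (mul I J).carrier M N ≤ I.carrier M N := by
  change AddSubgroup.closure _ ≤ _
  rw [AddSubgroup.closure_le]
  rintro _ ⟨X, g, f, hg, _, rfl⟩
  exact I.comp_right g f hg

theorem radPow_anti {μ ν : Ordinal.{w}} (h : μ ≤ ν) (M N : FGMod A) :
    (radPow A ν).carrier M N ≤ (radPow A μ).carrier M N := by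
  induction ν using Ordinal.limitRecOn with
  | zero =>
    have h0 : μ = 0 := le_antisymm h bot_le
    rw [h0]
  | add_one ν ih =>
    rcases lt_or_eq_of_le h with h1 | h1
    · have h2 := ih (Order.lt_add_one_iff.1 h1)
      refine le_trans ?_ h2
      unfold radPow
      rw [radStep_add_one]
      exact mul_le_left
    · rw [h1]
  | limit ν hν ih =>
    rcases lt_or_eq_of_le h with h1 | h1
    · unfold radPow
      rw [radStep_limit ν hν]
      exact iInf_le_of_le (⟨μ, h1⟩ : Set.Iio ν) le_rfl
    · rw [h1]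

/-- stabilisation of the powers on finitely many pairs, below a given initial segment -/
theorem exists_stable (hD : HomDCC A) (Ω : Set Ordinal.{w}) (hne : Ω.Nonempty)
    {ι : Type} [Fintype ι] (N : ι → FGMod A) (X : FGMod A) :
    ∃ μ ∈ Ω, ∀ ν ∈ Ω, ∀ i, (radPow A μ).carrier (N i) X ≤ (radPow A ν).carrier (N i) X := by
  have h1 : ∀ i, ∃ μ ∈ Ω, ∀ ν ∈ Ω, (radPow A μ).carrier (N i) X ≤ (radPow A ν).carrier (N i) X := by
    intro i
    obtain ⟨I, ⟨μ, hμ, rfl⟩, h2⟩ := hD (N i) X (radPow A '' Ω) (hne.image _) (by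
      rintro _ ⟨a, _, rfl⟩ _ ⟨b, _, rfl⟩
      rcases le_total a b with h | h
      · exact Or.inr (radPow_anti h _ _)
      · exact Or.inl (radPow_anti h _ _))
    exact ⟨μ, hμ, fun ν hν => h2 _ ⟨ν, hν, rfl⟩⟩
  choose f hf hf' using h1
  obtain ⟨μ0, hμ0⟩ := hne
  obtain ⟨μ, hμ, h2⟩ : ∃ μ ∈ Ω, ∀ i, f i ≤ μ := by
    classical
    have h3 : ∀ t : Finset ι, ∃ μ ∈ Ω, ∀ i ∈ t, f i ≤ μ := by
      intro t
      induction t using Finset.induction_on with
      | empty => exact ⟨μ0, hμ0, fun i hi => absurd hi (Finset.notMem_empty i)⟩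
      | insert a t _ ih =>
        obtain ⟨μ, hμ, h4⟩ := ih
        rcases le_total (f a) μ with h5 | h5
        · refine ⟨μ, hμ, fun i hi => ?_⟩
          rcases Finset.mem_insert.1 hi with rfl | h6
          · exact h5
          · exact h4 i h6
        · refine ⟨f a, hf a, fun i hi => ?_⟩
          rcases Finset.mem_insert.1 hi with rfl | h6
          · exact le_rfl
          · exact (h4 i h6).trans h5
    obtain ⟨μ, hμ, h4⟩ := h3 Finset.univ
    exact ⟨μ, hμ, fun i => h4 i (Finset.mem_univ i)⟩
  exact ⟨μ, hμ, fun ν hν i => (radPow_anti (h2 i) _ _).trans (hf' i ν hν)⟩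

/-! ### the linked case -/

section linked

variable {Q : AddFunctor.{u, v} A} {B : SubFunctor Q} {S : Type s} [LinearOrder S] [DenselyOrdered S]

theorem linked_all (hD : HomDCC A) (D : S → GenData Q)
    (h0 : ∀ a b, a < b → ∀ i, InSpan B (top A) (D b) ((D a).N i) ((D a).y i))
    (h1 : ∀ a b, a < b → ∀ i, InSpan B (rad A) (D b) ((D a).N i) ((D a).y i)) (μ : Ordinal.{w}) :
    (∀ a b, a < b → ∀ i, InSpan B (radStep A μ).1 (D b) ((D a).N i) ((D a).y i)) ∧
    (∀ a b, a < b → ∀ i, InSpan B (radPow A μ) (D b) ((D a).N i) ((D a).y i)) := by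
  induction μ using Ordinal.limitRecOn with
  | zero =>
    unfold radPow
    rw [radStep_zero]
    exact ⟨h1, h0⟩
  | add_one μ ih =>
    unfold radPow at ih ⊢
    rw [radStep_add_one]
    refine ⟨ih.1, fun a b hab i => ?_⟩
    obtain ⟨c, hac, hcb⟩ := exists_between hab
    exact (ih.2 a c hac i).trans (fun j => ih.1 c b hcb j)
  | limit μ hμ ih =>
    have key : ∀ a b, a < b → ∀ i,
        InSpan B (inter fun ν : Set.Iio μ => radPow A ν.1) (D b) ((D a).N i) ((D a).y i) := by
      intro a b hab i
      obtain ⟨ν, hν, h2⟩ := exists_stable hD (Set.Iio μ) ⟨0, hμ.bot_lt⟩ (D b).N ((D a).N i)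
      refine ((ih ν hν).2 a b hab i).mono fun j => ?_
      change _ ≤ ⨅ ν : Set.Iio μ, (radPow A ν.1).carrier _ _
      exact le_iInf fun ν' => h2 ν'.1 ν'.2 j
    unfold radPow
    rw [radStep_limit μ hμ]
    exact ⟨key, key⟩

end linked

/-- the transfinite radical (intersection of all transfinite powers) is zero -/
def TransRadZero (A : Type u) [Ring A] : Prop :=
  ∀ (M N : FGMod A) (f : M →ₗ[A] N), (∀ μ : Ordinal.{w}, f ∈ (radPow A μ).carrier M N) → f = 0

theorem no_linked (hD : HomDCC A) (hz : TransRadZero.{u, w} A) {Q : AddFunctor.{u, v} A}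
    {B : SubFunctor Q} {S : Type s} [LinearOrder S] [DenselyOrdered S] [Nontrivial S]
    (G : S → SubFunctor Q) (hG : StrictMono G) (D : S → GenData Q)
    (hGD : ∀ a X x, x ∈ (G a).carrier X ↔ InSpan B (top A) (D a) X x)
    (h1 : ∀ a b, a < b → ∀ i, InSpan B (rad A) (D b) ((D a).N i) ((D a).y i)) : False := by
  have hmem : ∀ a i, (D a).y i ∈ (G a).carrier ((D a).N i) := fun a i =>
    (hGD _ _ _).2 (inSpan_self B (D a) i)
  have h0 : ∀ a b, a < b → ∀ i, InSpan B (top A) (D b) ((D a).N i) ((D a).y i) := by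
    intro a b hab i
    rw [← hGD]
    exact (hG hab).le _ (hmem a i)
  have hB : ∀ a b, a < b → ∀ X x, x ∈ (G a).carrier X → x ∈ B.carrier X := by
    intro a b hab
    have h2 : ∀ i, (D a).y i ∈ B.carrier ((D a).N i) := by
      intro i
      obtain ⟨μ, _, h3⟩ := exists_stable.{u, w} hD Set.univ ⟨0, trivial⟩ (D b).N ((D a).N i)
      obtain ⟨c, hc, h, hh, e⟩ := (linked_all hD D h0 h1 μ).2 a b hab i
      have h4 : ∀ j, h j = 0 := fun j => hz _ _ _ fun ν => h3 ν trivial j (hh j)
      have h5 : (D a).y i = c := by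
        rw [e]
        simp only [h4, Q.map_zero_apply, Finset.sum_const_zero, add_zero]
      rw [h5]
      exact hc
    intro X x hx
    rw [hGD] at hx
    obtain ⟨c, hc, h, _, rfl⟩ := hx
    exact AddSubgroup.add_mem _ hc (AddSubgroup.sum_mem _ fun i _ => B.map_mem _ _ (h2 i))
  have hBG : ∀ a X x, x ∈ B.carrier X → x ∈ (G a).carrier X := fun a X x hx =>
    (hGD _ _ _).2 (inSpan_base hx)
  obtain ⟨a, b, hab⟩ : ∃ a b : S, a < b := by
    obtain ⟨a, b, h⟩ := exists_pair_ne S
    rcases lt_or_gt_of_ne h with h | h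
    · exact ⟨a, b, h⟩
    · exact ⟨b, a, h⟩
  obtain ⟨c, hac, hcb⟩ := exists_between hab
  have h6 : G c ≤ G a := fun X x hx => hBG a X x (hB c b hcb X x hx)
  exact absurd (hG hac) (not_lt_of_ge h6)

/-- **no dense chain of bounded width** -/
theorem no_dense_chain [IsArtinianRing A] (hD : HomDCC A) (hz : TransRadZero.{u, w} A) (k : ℕ) :
    ∀ (Q : AddFunctor.{u, v} A) (B : SubFunctor Q) (S : Type s) [LinearOrder S] [DenselyOrdered S]
      [Nontrivial S] (G : S → SubFunctor Q), StrictMono G → (∀ a, HasWidth B k (G a)) → False := by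
  induction k with
  | zero =>
    intro Q B S _ _ _ G hG hW
    choose D hcard hind hGD using hW
    refine no_linked hD hz G hG D hGD ?_
    intro a b _ i
    have h1 : Fintype.card (D a).ι = 0 := Nat.le_zero.1 (hcard a)
    exact ((Fintype.card_eq_zero_iff.1 h1).false i).elim
  | succ k ih =>
    intro Q B S _ _ _ G hG hW
    choose D hcard hind hGD using hW
    by_contra _
    by_cases h1 : ∀ a b, a < b → ∀ i, InSpan B (rad A) (D b) ((D a).N i) ((D a).y i)
    · exact no_linked hD hz G hG D hGD h1
    · push Not at h1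
      obtain ⟨a, b, hab, i, hi⟩ := h1
      have hmem : ∀ a i, (D a).y i ∈ (G a).carrier ((D a).N i) := fun a i =>
        (hGD _ _ _).2 (inSpan_self B (D a) i)
      have hBG : ∀ a X x, x ∈ B.carrier X → x ∈ (G a).carrier X := fun a X x hx =>
        (hGD _ _ _).2 (inSpan_base hx)
      obtain ⟨N0, hN0⟩ : ∃ N0, N0 = (D a).N i := ⟨_, rfl⟩
      subst hN0
      -- every member strictly between contains an isomorphic copy of the generator
      have key : ∀ c, a < c → c < b → HasWidth (B.adj ((D a).N i) ((D a).y i)) k (G c) := by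
        classical
        intro c hac hcb
        have h2 : InSpan B (top A) (D c) ((D a).N i) ((D a).y i) := by
          rw [← hGD]
          exact (hG hac).le _ (hmem a i)
        obtain ⟨b0, hb0, h, _, e0⟩ := h2
        have h3 : ∀ l, InSpan B (top A) (D b) ((D c).N l) ((D c).y l) := by
          intro l
          rw [← hGD]
          exact (hG hcb).le _ (hmem c l)
        choose b1 hb1 f _ e1 using h3
        obtain ⟨l, hl⟩ : ∃ l, Function.Bijective (h l) := by
          by_contra hno
          push Not at hno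
          apply hi
          refine ⟨b0 + ∑ l, Q.map (h l) (b1 l), ?_, fun j => ∑ l, h l ∘ₗ f l j, ?_, ?_⟩
          · refine AddSubgroup.add_mem _ hb0 (AddSubgroup.sum_mem _ fun l _ => ?_)
            exact B.map_mem _ _ (hb1 l)
          · intro j
            refine AddSubgroup.sum_mem _ fun l _ => ?_
            by_contra hr
            exact hno l (bijective_right (hind b j) (hind c l) (hind a i) hr)
          · rw [e0]
            have e2 : ∀ l, Q.map (h l) ((D c).y l) =
                Q.map (h l) (b1 l) + ∑ j, Q.map (h l ∘ₗ f l j) ((D b).y j) := by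
              intro l
              conv_lhs => rw [e1 l]
              rw [map_add, map_sum]
              congr 1
              exact Finset.sum_congr rfl fun j _ => (Q.map_comp_apply _ _ _).symm
            rw [Finset.sum_congr rfl fun l _ => e2 l, Finset.sum_add_distrib, ← add_assoc]
            congr 1
            rw [Finset.sum_comm]
            exact Finset.sum_congr rfl fun j _ => (Q.map_sum_apply _ _ _).symm
        obtain ⟨g, hg⟩ : ∃ g : (D a).N i →ₗ[A] (D c).N l, g ∘ₗ h l = LinearMap.id :=
          ⟨(LinearEquiv.ofBijective (h l) hl).symm.toLinearMap, by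
            ext x
            exact (LinearEquiv.ofBijective (h l) hl).symm_apply_apply x⟩
        have e3 : Q.map g ((D a).y i) = Q.map g b0 + ((D c).y l +
            ∑ l' ∈ Finset.univ.erase l, Q.map (g ∘ₗ h l') ((D c).y l')) := by
          rw [e0, map_add, map_sum]
          congr 1
          rw [← Finset.add_sum_erase _ _ (Finset.mem_univ l)]
          congr 1
          · rw [← Q.map_comp_apply, hg, Q.map_id_apply]
          · exact Finset.sum_congr rfl fun j _ => (Q.map_comp_apply _ _ _).symm
        refine ⟨⟨{l' : (D c).ι // l' ≠ l}, fun l' => (D c).N l'.1, fun l' => (D c).y l'.1⟩, ?_,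
          fun l' => hind c l'.1, fun X x => ⟨fun hx => ?_, fun hx => ?_⟩⟩
        · have h4 : Fintype.card {l' : (D c).ι // l' ≠ l} < Fintype.card (D c).ι :=
            Fintype.card_subtype_lt (x := l) (by simp)
          have h5 := hcard c
          change Fintype.card {l' : (D c).ι // l' ≠ l} ≤ k
          omega
        · rw [hGD] at hx
          obtain ⟨b2, hb2, p, _, e4⟩ := hx
          refine ⟨b2 - Q.map (p l ∘ₗ g) b0 + Q.map (p l ∘ₗ g) ((D a).y i),
            ⟨b2 - Q.map (p l ∘ₗ g) b0, ?_, p l ∘ₗ g, rfl⟩,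
            fun l' => p l'.1 - p l ∘ₗ (g ∘ₗ h l'.1), fun _ => trivial, ?_⟩
          · exact AddSubgroup.sub_mem _ hb2 (B.map_mem _ _ hb0)
          · have e5 : Q.map (p l ∘ₗ g) ((D a).y i) = Q.map (p l ∘ₗ g) b0 + (Q.map (p l) ((D c).y l) +
                ∑ l' ∈ Finset.univ.erase l, Q.map (p l ∘ₗ (g ∘ₗ h l')) ((D c).y l')) := by
              rw [Q.map_comp_apply, e3, map_add, map_add, map_sum, Q.map_comp_apply]
              congr 2
              exact Finset.sum_congr rfl fun j _ => (Q.map_comp_apply _ _ _).symm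
            have e6 : ∑ l' : {l' : (D c).ι // l' ≠ l},
                Q.map (p l'.1 - p l ∘ₗ (g ∘ₗ h l'.1)) ((D c).y l'.1) =
                ∑ l' ∈ Finset.univ.erase l, Q.map (p l' - p l ∘ₗ (g ∘ₗ h l')) ((D c).y l') := by
              symm
              refine Finset.sum_subtype _ (fun l' => ?_)
                (fun l' => Q.map (p l' - p l ∘ₗ (g ∘ₗ h l')) ((D c).y l'))
              simp
            have e7 : ∑ l' ∈ Finset.univ.erase l, Q.map (p l' - p l ∘ₗ (g ∘ₗ h l')) ((D c).y l') =
                ∑ l' ∈ Finset.univ.erase l, Q.map (p l') ((D c).y l') -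
                ∑ l' ∈ Finset.univ.erase l, Q.map (p l ∘ₗ (g ∘ₗ h l')) ((D c).y l') := by
              rw [← Finset.sum_sub_distrib]
              exact Finset.sum_congr rfl fun l' _ => Q.map_sub_apply _ _ _
            have e8 : ∑ l', Q.map (p l') ((D c).y l') = Q.map (p l) ((D c).y l) +
                ∑ l' ∈ Finset.univ.erase l, Q.map (p l') ((D c).y l') :=
              (Finset.add_sum_erase _ _ (Finset.mem_univ l)).symm
            change x = b2 - Q.map (p l ∘ₗ g) b0 + Q.map (p l ∘ₗ g) ((D a).y i) +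
              ∑ l' : {l' : (D c).ι // l' ≠ l}, Q.map (p l'.1 - p l ∘ₗ (g ∘ₗ h l'.1)) ((D c).y l'.1)
            rw [e6, e7, e5, e4, e8]
            abel
        · obtain ⟨b2, ⟨b3, hb3, q, rfl⟩, p, _, rfl⟩ := hx
          refine AddSubgroup.add_mem _ (AddSubgroup.add_mem _ (hBG c X _ hb3) ?_)
            (AddSubgroup.sum_mem _ fun l' _ => ?_)
          · exact (G c).map_mem _ _ ((hG hac).le _ (hmem a i))
          · exact (G c).map_mem _ _ (hmem c l'.1)
      have : Nontrivial (Set.Ioo a b) := by
        obtain ⟨c, hac, hcb⟩ := exists_between hab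
        obtain ⟨d, had, hdc⟩ := exists_between hac
        exact ⟨⟨c, hac, hcb⟩, ⟨d, had, hdc.trans hcb⟩, fun h => hdc.ne (congrArg Subtype.val h).symm⟩
      exact ih Q (B.adj ((D a).N i) ((D a).y i)) (Set.Ioo a b) (fun c => G c.1)
        (fun c d h => hG h) (fun c => key c.1 c.2.1 c.2.2)

end Pool.Agent.Lib.MP_8e135c_al
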