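import Pool.Agent.Lib.MP_8e135c_al.PP

/-!
# Widths of pp conditions and the structure theorem
-/

set_option autoImplicit false

universe u v w x

namespace Pool.Agent.Lib.MP_8e135c_al

open HomIdeal

variable {A : Type u} [Ring A]

/-! ### sums and intersections of pp conditions -/

/-- `B + ∑ i, [y i]` as a subfunctor -/
def spanF {Q : AddFunctor.{u, v} A} (B : SubFunctor Q) (D : GenData Q) : SubFunctor Q where
  carrier X :=
    { carrier := {x | InSpan B (top A) D X x}
      zero_mem' := inSpan_base (AddSubgroup.zero_mem _)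
      add_mem' := by
        rintro _ _ ⟨b, hb, h, _, rfl⟩ ⟨b', hb', h', _, rfl⟩
        refine ⟨b + b', AddSubgroup.add_mem _ hb hb', fun i => h i + h' i, fun _ => trivial, ?_⟩
        rw [Finset.sum_congr rfl fun i _ => Q.map_add_apply (h i) (h' i) (D.y i), Finset.sum_add_distrib]
        abel
      neg_mem' := by
        rintro _ ⟨b, hb, h, _, rfl⟩
        refine ⟨-b, AddSubgroup.neg_mem _ hb, fun i => -h i, fun _ => trivial, ?_⟩
        rw [Finset.sum_congr rfl fun i _ => Q.map_neg_apply (h i) (D.y i), Finset.sum_neg_distrib]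
        abel }
  map_mem {M N} f x := by
    rintro ⟨b, hb, h, _, rfl⟩
    refine ⟨Q.map f b, B.map_mem f b hb, fun i => f ∘ₗ h i, fun _ => trivial, ?_⟩
    rw [map_add, map_sum]
    congr 1
    exact Finset.sum_congr rfl fun i _ => (Q.map_comp_apply _ _ _).symm

theorem isPP_spanF [IsNoetherianRing A] {n : ℕ} {B : SubFunctor (powFunctor A n)} (hB : IsPP B)
    (D : GenData (powFunctor A n)) : IsPP (spanF B D) := by
  classical
  obtain ⟨N0, y0, rfl⟩ := exists_genF hB
  have key : spanF (genF N0 y0) D =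
      genF ⟨N0 × (∀ i, D.N i)⟩ (fun k => (y0 k, fun i => (D.y i : Fin n → D.N i) k)) := by
    apply SubFunctor.ext
    funext X
    ext x
    constructor
    · rintro ⟨b, ⟨h0, hh0⟩, h, _, rfl⟩
      refine ⟨LinearMap.coprod h0 (LinearMap.lsum A (fun i => (D.N i : Type u)) ℕ h), fun k => ?_⟩
      rw [LinearMap.coprod_apply, ← hh0, LinearMap.lsum_apply, LinearMap.sum_apply]
      change b k + (∑ i, (powFunctor A n).map (h i) (D.y i) : Fin n → X) k = _
      congr 1
      exact Finset.sum_apply _ _ _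
    · rintro ⟨h, hh⟩
      obtain ⟨h', hh'⟩ : ∃ h' : (N0 × (∀ i, D.N i)) →ₗ[A] X,
          ∀ k, x k = h' (y0 k, fun i => (D.y i : Fin n → D.N i) k) := ⟨h, hh⟩
      refine ⟨fun k => h' (y0 k, 0), ⟨h' ∘ₗ LinearMap.inl A _ _, fun k => rfl⟩,
        fun i => h' ∘ₗ LinearMap.inr A _ _ ∘ₗ LinearMap.single A (fun i => (D.N i : Type u)) i,
        fun _ => trivial, ?_⟩
      funext k
      have e1 : ((y0 k, fun i => (D.y i : Fin n → D.N i) k) : N0 × (∀ i, D.N i)) =
          (y0 k, 0) + ∑ i, (0, Pi.single i ((D.y i : Fin n → D.N i) k)) := by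
        rw [Prod.ext_iff]
        constructor
        · simp [Prod.fst_sum]
        · simp only [Prod.snd_add, Prod.snd_sum, zero_add]
          exact (Finset.univ_sum_single _).symm
      refine (hh' k).trans ((congrArg h' e1).trans ?_)
      rw [map_add, map_sum]
      change _ = h' (y0 k, 0) + (∑ i, (powFunctor A n).map
        (h' ∘ₗ LinearMap.inr A _ _ ∘ₗ LinearMap.single A (fun i => (D.N i : Type u)) i) (D.y i) : Fin n → X) k
      congr 1
      symm
      exact Finset.sum_apply _ _ _
  rw [key]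
  exact isPP_genF _ _

/-- one generator -/
def oneData {Q : AddFunctor.{u, v} A} (N : FGMod A) (y : Q.obj N) : GenData Q :=
  ⟨Unit, fun _ => N, fun _ => y⟩

theorem inSpan_oneData {Q : AddFunctor.{u, v} A} {B : SubFunctor Q} {N : FGMod A} {y : Q.obj N}
    {X : FGMod A} {x : Q.obj X} :
    InSpan B (top A) (oneData N y) X x ↔ ∃ b ∈ B.carrier X, ∃ h : N →ₗ[A] X, x = b + Q.map h y := by
  constructor
  · rintro ⟨b, hb, h, _, e⟩
    refine ⟨b, hb, h (), e.trans ?_⟩
    congr 1
    exact Fintype.sum_unique (fun i : Unit => Q.map (h i) y)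
  · rintro ⟨b, hb, h, e⟩
    refine ⟨b, hb, fun _ => h, fun _ => trivial, e.trans ?_⟩
    congr 1
    exact (Fintype.sum_unique (fun i : Unit => Q.map h y)).symm

theorem isPP_sup [IsNoetherianRing A] {n : ℕ} {F G : SubFunctor (powFunctor A n)} (hF : IsPP F)
    (hG : IsPP G) : IsPP (F ⊔ G) := by
  obtain ⟨N, y, rfl⟩ := exists_genF hG
  have key : F ⊔ genF N y = spanF F (oneData (Q := powFunctor A n) N y) := by
    apply SubFunctor.ext
    funext X
    ext x
    change x ∈ F.carrier X ⊔ (genF N y).carrier X ↔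
      InSpan F (top A) (oneData (Q := powFunctor A n) N y) X x
    rw [AddSubgroup.mem_sup, inSpan_oneData]
    constructor
    · rintro ⟨b, hb, z, ⟨h, hh⟩, rfl⟩
      refine ⟨b, hb, h, ?_⟩
      congr 1
      funext i
      exact hh i
    · rintro ⟨b, hb, h, rfl⟩
      exact ⟨b, hb, _, ⟨h, fun i => rfl⟩, rfl⟩
  rw [key]
  exact isPP_spanF hF _

theorem isPP_inf {n : ℕ} {F G : SubFunctor (powFunctor A n)} (hF : IsPP F) (hG : IsPP G) :
    IsPP (F ⊓ G) := by
  obtain ⟨φ, rfl⟩ := hF
  obtain ⟨ψ, rfl⟩ := hG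
  refine isPP_of_system (σ := Fin φ.m ⊕ Fin ψ.m) (ε := Fin φ.l ⊕ Fin ψ.l)
    (fun e k => Sum.elim
      (fun e => Sum.elim (fun i => φ.c e (Sum.inl i)) (Sum.elim (fun j => φ.c e (Sum.inr j)) (fun _ => 0)) k)
      (fun e => Sum.elim (fun i => ψ.c e (Sum.inl i)) (Sum.elim (fun _ => 0) (fun j => ψ.c e (Sum.inr j))) k)
      e) _ ?_
  intro X x
  constructor
  · rintro ⟨⟨z, hz⟩, ⟨z', hz'⟩⟩
    refine ⟨Sum.elim z z', fun e => ?_⟩
    rcases e with e | e
    · rw [Fintype.sum_sum_type]
      simp only [Sum.elim_inl, Sum.elim_inr, zero_smul, Finset.sum_const_zero, add_zero]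
      exact hz e
    · rw [Fintype.sum_sum_type]
      simp only [Sum.elim_inl, Sum.elim_inr, zero_smul, Finset.sum_const_zero, zero_add]
      exact hz' e
  · rintro ⟨z, hz⟩
    refine ⟨⟨fun j => z (Sum.inl j), fun e => ?_⟩, ⟨fun j => z (Sum.inr j), fun e => ?_⟩⟩
    · have h := hz (Sum.inl e)
      rw [Fintype.sum_sum_type] at h
      simp only [Sum.elim_inl, Sum.elim_inr, zero_smul, Finset.sum_const_zero, add_zero] at h
      exact h
    · have h := hz (Sum.inr e)
      rw [Fintype.sum_sum_type] at h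
      simp only [Sum.elim_inl, Sum.elim_inr, zero_smul, Finset.sum_const_zero, zero_add] at h
      exact h

/-- the set of pp conditions with `n` free variables, ordered by implication -/
def PPCond (A : Type u) [Ring A] (n : ℕ) : Type (u + 1) :=
  {G : SubFunctor (powFunctor A n) // IsPP G}

instance (n : ℕ) : PartialOrder (PPCond A n) :=
  inferInstanceAs (PartialOrder {G : SubFunctor (powFunctor A n) // IsPP G})

instance [IsNoetherianRing A] (n : ℕ) : Lattice (PPCond A n) :=
  Subtype.lattice (fun _ _ h1 h2 => isPP_sup h1 h2) (fun _ _ h1 h2 => isPP_inf h1 h2)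

instance [IsNoetherianRing A] (n : ℕ) : IsModularLattice (PPCond A n) where
  sup_inf_le_assoc_of_le {_} G {_} h :=
    IsModularLattice.sup_inf_le_assoc_of_le (α := SubFunctor (powFunctor A n)) G.1 h

instance (n : ℕ) : Small.{u} (PPCond A n) := by
  have h : Function.Surjective (fun φ : PPFormula A n => (⟨φ.sol, φ, rfl⟩ : PPCond A n)) := by
    rintro ⟨G, φ, rfl⟩
    exact ⟨φ, rfl⟩
  exact small_of_surjective h

/-! ### decomposition into indecomposables -/

/-- `X` is a finite direct sum of indecomposable modules -/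
def Decomposes (X : FGMod A) : Prop :=
  ∃ (ι : Type) (_ : Fintype ι) (N : ι → FGMod A) (a : ∀ i, N i →ₗ[A] X) (p : ∀ i, X →ₗ[A] N i),
    (∀ i, Indec (N i)) ∧ ∑ i, a i ∘ₗ p i = LinearMap.id

theorem Decomposes.of_equiv {X Y : FGMod A} (hX : Decomposes X) (e : X ≃ₗ[A] Y) : Decomposes Y := by
  obtain ⟨ι, hι, N, a, p, hN, h⟩ := hX
  refine ⟨ι, hι, N, fun i => e.toLinearMap ∘ₗ a i, fun i => p i ∘ₗ e.symm.toLinearMap, hN, ?_⟩
  ext y
  have h1 := LinearMap.congr_fun h (e.symm y)
  rw [LinearMap.sum_apply] at h1 ⊢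
  have h2 := congrArg e h1
  rw [map_sum] at h2
  simpa using h2

theorem Decomposes.prod {X Y Z : FGMod A} (hX : Decomposes X) (hY : Decomposes Y)
    (e : (X × Y) ≃ₗ[A] Z) : Decomposes Z := by
  obtain ⟨ι, hι, N, a, p, hN, h⟩ := hX
  obtain ⟨κ, hκ, M, b, q, hM, h'⟩ := hY
  refine ⟨ι ⊕ κ, inferInstance, Sum.elim N M,
    fun i => match i with
      | Sum.inl i => e.toLinearMap ∘ₗ LinearMap.inl A X Y ∘ₗ a i
      | Sum.inr i => e.toLinearMap ∘ₗ LinearMap.inr A X Y ∘ₗ b i,
    fun i => match i with
      | Sum.inl i => p i ∘ₗ LinearMap.fst A X Y ∘ₗ e.symm.toLinearMap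
      | Sum.inr i => q i ∘ₗ LinearMap.snd A X Y ∘ₗ e.symm.toLinearMap, ?_, ?_⟩
  · rintro (i | i)
    · exact hN i
    · exact hM i
  · ext z
    obtain ⟨⟨x, y⟩, rfl⟩ := e.surjective z
    have h1 := LinearMap.congr_fun h x
    have h2 := LinearMap.congr_fun h' y
    rw [LinearMap.sum_apply] at h1 h2
    rw [LinearMap.sum_apply, Fintype.sum_sum_type]
    simp only [LinearMap.comp_apply, LinearEquiv.coe_coe, LinearEquiv.symm_apply_apply, LinearMap.fst_apply,
      LinearMap.snd_apply, LinearMap.id_apply, LinearMap.inl_apply, LinearMap.inr_apply] at h1 h2 ⊢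
    rw [← map_sum, ← map_sum, ← map_add]
    congr 1
    have e1 : ∑ i, ((a i (p i x), 0) : X × Y) = (x, 0) := by
      rw [Prod.ext_iff]
      exact ⟨by rw [Prod.fst_sum]; exact h1, by rw [Prod.snd_sum]; exact Finset.sum_const_zero⟩
    have e2 : ∑ i, ((0, b i (q i y)) : X × Y) = (0, y) := by
      rw [Prod.ext_iff]
      exact ⟨by rw [Prod.fst_sum]; exact Finset.sum_const_zero, by rw [Prod.snd_sum]; exact h2⟩
    exact (congrArg₂ (· + ·) e1 e2).trans (by rw [Prod.mk_add_mk, add_zero, zero_add])

theorem decomposes [IsArtinianRing A] (X : FGMod A) : Decomposes X := by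
  classical
  have key : ∀ U : Submodule A X, Decomposes (⟨U⟩ : FGMod A) := by
    intro U
    induction U using IsArtinian.induction with
    | _ U ih =>
      by_cases h0 : U = ⊥
      · refine ⟨Empty, inferInstance, fun i => i.elim, fun i => i.elim, fun i => i.elim,
          fun i => i.elim, ?_⟩
        have hs : Subsingleton U := Submodule.subsingleton_iff_eq_bot.2 h0
        exact LinearMap.ext fun x => hs.elim _ _
      · by_cases hI : Indec (⟨U⟩ : FGMod A)
        · refine ⟨Unit, inferInstance, fun _ => ⟨U⟩, fun _ => LinearMap.id, fun _ => LinearMap.id,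
            fun _ => hI, ?_⟩
          rw [Finset.univ_unique, Finset.sum_singleton, LinearMap.comp_id]
        · have hnt : Nontrivial (⟨U⟩ : FGMod A) := (Submodule.nontrivial_iff_ne_bot).2 h0
          unfold Indec at hI
          push Not at hI
          obtain ⟨V, W, hVW, hV, hW⟩ := hI hnt
          have hsub : ∀ V W : Submodule A U, IsCompl V W → W ≠ ⊥ → V.map U.subtype < U := by
            intro V W hVW hW
            refine lt_of_le_of_ne (Submodule.map_subtype_le _ _) fun h => hW ?_
            have h1 : V = ⊤ := by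
              rw [eq_top_iff]
              intro y _
              have h2 : (y : X) ∈ V.map U.subtype := by
                rw [h]
                exact y.2
              obtain ⟨v, hv, hvy⟩ := h2
              have h3 : v = y := Subtype.ext hvy
              rwa [← h3]
            rw [h1] at hVW
            exact eq_bot_of_top_isCompl hVW
          have hVd := ih _ (hsub V W hVW hW)
          have hWd := ih _ (hsub W V hVW.symm hV)
          have hV2 : Decomposes (⟨V⟩ : FGMod A) :=
            hVd.of_equiv (Submodule.equivMapOfInjective U.subtype U.injective_subtype V).symm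
          have hW2 : Decomposes (⟨W⟩ : FGMod A) :=
            hWd.of_equiv (Submodule.equivMapOfInjective U.subtype U.injective_subtype W).symm
          exact hV2.prod hW2 (Submodule.prodEquivOfIsCompl V W hVW)
  exact (key ⊤).of_equiv Submodule.topEquiv

end Pool.Agent.Lib.MP_8e135c_al
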