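import Pool.Agent.Lib.MP_8e135c_al.Dual0
import Pool.Agent.Lib.MP_8e135c_al.Width

/-!
# Duality for pp conditions over an artin algebra
-/

set_option autoImplicit false

universe u v w

namespace Pool.Agent.Lib.MP_8e135c_al

section core

variable {K A : Type u} [CommRing K] [IsArtinianRing K] [Ring A] [Algebra K A]
  {E : Type u} [AddCommGroup E] [Module K E]
  {X Z : Type u} [AddCommGroup X] [Module K X] [Module A X] [IsScalarTower K A X]
  [Module.Finite K X] [AddCommGroup Z] [Module K Z] [Module A Z] [IsScalarTower K A Z]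

omit [IsArtinianRing K] [Module A X] [IsScalarTower K A X] [Module.Finite K X] in
theorem Dualizing.sep_eq (hE : Dualizing K E) {x y : X} (h : ∀ u : X →ₗ[K] E, u x = u y) : x = y := by
  by_contra hne
  obtain ⟨u, hu⟩ := hE.sep (x - y) (sub_ne_zero.2 hne)
  apply hu
  rw [map_sub, h u, sub_self]

omit [IsScalarTower K A Z] in
theorem exists_map_of_pairing (hE : Dualizing K E) (G : (X →ₗ[K] E) →ₗ[K] (Z →ₗ[K] E))
    (hG : ∀ (a : A) (u : X →ₗ[K] E) (w : Z), G (u ∘ₗ Algebra.lsmul K K X a) w = G u (a • w)) :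
    ∃ g : Z →ₗ[A] X, ∀ u w, u (g w) = G u w := by
  choose g hg using fun w : Z => hE.bidual (G.flip w)
  have hg' : ∀ w u, G u w = u (g w) := hg
  refine ⟨{ toFun := g
            map_add' := fun w w' => hE.sep_eq fun u => ?_
            map_smul' := fun a w => hE.sep_eq fun u => ?_ }, fun u w => (hg' w u).symm⟩
  · rw [map_add, ← hg', ← hg', ← hg', map_add]
  · rw [← hg', ← hG, hg']
    rfl

variable {ι τ : Type} [Fintype ι] [Fintype τ]

/-- the functionals `∑ u j (h j • x)` -/
def rowMap (u : ι → (X →ₗ[K] E)) : (ι → A) →ₗ[K] (X →ₗ[K] E) where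
  toFun h := ∑ j, u j ∘ₗ Algebra.lsmul K K X (h j)
  map_add' h h' := by
    rw [← Finset.sum_add_distrib]
    refine Finset.sum_congr rfl fun j _ => ?_
    rw [Pi.add_apply, map_add, LinearMap.comp_add]
  map_smul' k h := by
    rw [RingHom.id_apply, Finset.smul_sum]
    refine Finset.sum_congr rfl fun j _ => ?_
    rw [Pi.smul_apply, map_smul, LinearMap.comp_smul]

omit [IsArtinianRing K] [Module.Finite K X] in
theorem rowMap_apply (u : ι → (X →ₗ[K] E)) (h : ι → A) (x : X) :
    rowMap u h x = ∑ j, u j (h j • x) := by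
  change (∑ j, u j ∘ₗ Algebra.lsmul K K X (h j)) x = _
  rw [LinearMap.sum_apply]
  rfl

/-- the functionals `μ (h j • w)` -/
def colMap (μ : (ι → Z) →ₗ[K] E) : (ι → A) →ₗ[K] (Z →ₗ[K] E) where
  toFun h := μ ∘ₗ LinearMap.pi fun j => Algebra.lsmul K K Z (h j)
  map_add' h h' := by
    rw [← LinearMap.comp_add]
    congr 1
    refine LinearMap.ext fun w => funext fun j => ?_
    change (h j + h' j) • w = h j • w + h' j • w
    rw [add_smul]
  map_smul' k h := by
    rw [RingHom.id_apply, ← LinearMap.comp_smul]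
    congr 1
    refine LinearMap.ext fun w => funext fun j => ?_
    change (k • h j) • w = k • h j • w
    rw [smul_assoc]

omit [IsArtinianRing K] [Fintype ι] in
theorem colMap_apply (μ : (ι → Z) →ₗ[K] E) (h : ι → A) (w : Z) :
    colMap μ h w = μ fun j => h j • w := rfl

/-- the tuples `∑ t, H t j • w t` -/
def relMap (H : τ → ι → A) : (τ → Z) →ₗ[K] (ι → Z) where
  toFun w j := ∑ t, H t j • w t
  map_add' w w' := by
    funext j
    rw [Pi.add_apply, ← Finset.sum_add_distrib]
    exact Finset.sum_congr rfl fun t _ => smul_add _ _ _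
  map_smul' k w := by
    have : SMulCommClass A K Z := IsScalarTower.to_smulCommClass'
    funext j
    rw [RingHom.id_apply, Pi.smul_apply, Finset.smul_sum]
    exact Finset.sum_congr rfl fun t _ => smul_comm _ _ _

theorem dual_core (hE : Dualizing K E) (u : ι → (X →ₗ[K] E))
    (hu : Submodule.span K (Set.range u) = ⊤) (H : τ → ι → A)
    (hH : Submodule.span K (Set.range H) = LinearMap.ker (rowMap (A := A) u)) (z : ι → Z) :
    (∀ g : Z →ₗ[A] X, ∑ j, u j (g (z j)) = 0) ↔ ∃ w : τ → Z, ∀ j, z j = ∑ t, H t j • w t := by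
  classical
  have hHt : ∀ t, ∀ x, ∑ j, u j (H t j • x) = 0 := by
    intro t x
    have h1 : H t ∈ LinearMap.ker (rowMap (A := A) u) := by
      rw [← hH]
      exact Submodule.subset_span ⟨t, rfl⟩
    rw [← rowMap_apply, LinearMap.mem_ker.1 h1, LinearMap.zero_apply]
  constructor
  · intro hz
    by_contra hno
    obtain ⟨R, hR⟩ : ∃ R : Submodule K (ι → Z), R = LinearMap.range (relMap (K := K) (Z := Z) H) :=
      ⟨_, rfl⟩
    have hzR : z ∉ R := by
      rw [hR]
      rintro ⟨w, hw⟩
      exact hno ⟨w, fun j => (congrFun hw j).symm⟩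
    obtain ⟨μ', hμ'⟩ := hE.sep (R.mkQ z) (fun h => hzR ((Submodule.Quotient.mk_eq_zero R).1 h))
    obtain ⟨μ, hμ⟩ : ∃ μ : (ι → Z) →ₗ[K] E, ∀ y, μ y = μ' (R.mkQ y) := ⟨μ' ∘ₗ R.mkQ, fun y => rfl⟩
    have hμR : ∀ y ∈ R, μ y = 0 := fun y hy => by
      rw [hμ, (Submodule.Quotient.mk_eq_zero R).2 hy |> fun h => (h : R.mkQ y = 0), map_zero]
    have hsurj : Function.Surjective (rowMap (A := A) u) := by
      rw [← LinearMap.range_eq_top, eq_top_iff, ← hu, Submodule.span_le]
      rintro _ ⟨j, rfl⟩
      refine ⟨Pi.single j 1, LinearMap.ext fun x => ?_⟩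
      rw [rowMap_apply, Finset.sum_eq_single j]
      · rw [Pi.single_eq_same, one_smul]
      · intro i _ hij
        rw [Pi.single_eq_of_ne hij, zero_smul, map_zero]
      · intro h
        exact absurd (Finset.mem_univ j) h
    have hle : LinearMap.ker (rowMap (A := A) u) ≤ LinearMap.ker (colMap (A := A) μ) := by
      rw [← hH, Submodule.span_le]
      rintro _ ⟨t, rfl⟩
      change colMap μ (H t) = 0
      refine LinearMap.ext fun w => ?_
      rw [colMap_apply, LinearMap.zero_apply]
      apply hμR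
      rw [hR]
      refine ⟨Pi.single t w, funext fun j => ?_⟩
      change ∑ t', H t' j • (Pi.single t w : τ → Z) t' = H t j • w
      rw [Finset.sum_eq_single t]
      · rw [Pi.single_eq_same]
      · intro i _ hij
        rw [Pi.single_eq_of_ne hij, smul_zero]
      · intro h
        exact absurd (Finset.mem_univ t) h
    obtain ⟨G, hG⟩ : ∃ G : (X →ₗ[K] E) →ₗ[K] (Z →ₗ[K] E), ∀ h, G (rowMap (A := A) u h) = colMap μ h := by
      refine ⟨(LinearMap.ker (rowMap (A := A) u)).liftQ (colMap μ) hle ∘ₗ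
        ((rowMap (A := A) u).quotKerEquivOfSurjective hsurj).symm.toLinearMap, fun h => ?_⟩
      rw [LinearMap.comp_apply]
      have h2 : ((rowMap (A := A) u).quotKerEquivOfSurjective hsurj).symm.toLinearMap
          (rowMap (A := A) u h) = Submodule.Quotient.mk h :=
        LinearMap.quotKerEquivOfSurjective_symm_apply _ hsurj h
      rw [h2]
      rfl
    obtain ⟨g, hg⟩ := exists_map_of_pairing hE G (fun a f w => by
      obtain ⟨h, rfl⟩ := hsurj f
      have h1 : rowMap (A := A) u h ∘ₗ Algebra.lsmul K K X a = rowMap (A := A) u fun j => h j * a := by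
        refine LinearMap.ext fun x => ?_
        rw [rowMap_apply, LinearMap.comp_apply, Algebra.lsmul_coe, rowMap_apply]
        exact Finset.sum_congr rfl fun j _ => by rw [mul_smul]
      rw [h1, hG, hG, colMap_apply, colMap_apply]
      congr 1
      funext j
      exact mul_smul _ _ _)
    apply hμ'
    rw [← hμ]
    have h3 := hz g
    have h4 : ∀ j, u j (g (z j)) = μ (Pi.single j (z j)) := by
      intro j
      have h5 : u j = rowMap (A := A) u (Pi.single j 1) := by
        refine LinearMap.ext fun x => ?_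
        rw [rowMap_apply, Finset.sum_eq_single j]
        · rw [Pi.single_eq_same, one_smul]
        · intro i _ hij
          rw [Pi.single_eq_of_ne hij, zero_smul, map_zero]
        · intro h
          exact absurd (Finset.mem_univ j) h
      rw [hg]
      conv_lhs => rw [h5]
      rw [hG, colMap_apply]
      congr 1
      funext i
      by_cases hij : i = j
      · subst hij
        rw [Pi.single_eq_same, Pi.single_eq_same, one_smul]
      · rw [Pi.single_eq_of_ne hij, Pi.single_eq_of_ne hij, zero_smul]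
    rw [Finset.sum_congr rfl fun j _ => h4 j, ← map_sum, Finset.univ_sum_single] at h3
    exact h3
  · rintro ⟨w, hw⟩ g
    have h1 : ∀ j, u j (g (z j)) = ∑ t, u j (H t j • g (w t)) := by
      intro j
      rw [hw j, map_sum, map_sum]
      exact Finset.sum_congr rfl fun t _ => by rw [map_smul]
    rw [Finset.sum_congr rfl fun j _ => h1 j, Finset.sum_comm]
    exact Finset.sum_eq_zero fun t _ => hHt t _

end core

/-! ### the cogenerated subfunctors -/

section cogen

variable {K A : Type u} [CommRing K] [Ring A] [Algebra K A]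

/-- scalars -/
@[reducible]
def kMod (K : Type u) [CommRing K] {A : Type u} [Ring A] [Algebra K A] (M : FGMod A) : Module K M :=
  Module.compHom M (algebraMap K A)

theorem kTower (K : Type u) [CommRing K] {A : Type u} [Ring A] [Algebra K A] (M : FGMod A) :
    letI := kMod K M
    IsScalarTower K A M :=
  letI := kMod K M
  ⟨fun c a n => by
    have h : c • a • n = algebraMap K A c • a • n := rfl
    rw [h, Algebra.smul_def, mul_smul]⟩

theorem kFinite (K : Type u) [CommRing K] {A : Type u} [Ring A] [Algebra K A] [Module.Finite K A]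
    (M : FGMod A) :
    letI := kMod K M
    Module.Finite K M :=
  letI := kMod K M
  haveI := kTower K M
  Module.Finite.trans A M

/-- the tuples sent into `V` by all homomorphisms to `X` -/
def coSub {n : ℕ} (X : FGMod A) (V : AddSubgroup (Fin n → X)) : SubFunctor (powFunctor A n) where
  carrier Z :=
    { carrier := {z | ∀ g : Z →ₗ[A] X, (fun i => g (z i)) ∈ V}
      zero_mem' := fun g => by
        have h : (fun i => g ((0 : Fin n → Z) i)) = (0 : Fin n → X) := funext fun i => map_zero g
        rw [show (fun i => g ((0 : (powFunctor A n).obj Z) i)) = (0 : Fin n → X) from h]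
        exact V.zero_mem
      add_mem' := fun {z z'} hz hz' g => by
        have h : (fun i => g ((z + z' : Fin n → Z) i)) =
            (fun i => g (z i)) + fun i => g (z' i) := funext fun i => map_add g _ _
        rw [show (fun i => g ((z + z' : (powFunctor A n).obj Z) i)) =
          (fun i => g (z i)) + fun i => g (z' i) from h]
        exact V.add_mem (hz g) (hz' g)
      neg_mem' := fun {z} hz g => by
        have h : (fun i => g ((-z : Fin n → Z) i)) = -fun i => g (z i) := funext fun i => map_neg g _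
        rw [show (fun i => g ((-z : (powFunctor A n).obj Z) i)) = -fun i => g (z i) from h]
        exact V.neg_mem (hz g) }
  map_mem {M N} f z hz g := hz (g ∘ₗ f)

theorem mem_coSub {n : ℕ} (X : FGMod A) (V : AddSubgroup (Fin n → X)) (Z : FGMod A)
    (z : (powFunctor A n).obj Z) :
    z ∈ (coSub X V).carrier Z ↔ ∀ g : Z →ₗ[A] X, (fun i => g (z i)) ∈ V := Iff.rfl

/-- `coSub X V` is the largest subfunctor whose value at `X` is contained in `V` -/
theorem le_coSub {n : ℕ} {X : FGMod A} {V : AddSubgroup (Fin n → X)}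
    {T : SubFunctor (powFunctor A n)} (h : ∀ x ∈ T.carrier X, x ∈ V) : T ≤ coSub X V :=
  fun _ z hz g => h _ (T.map_mem g z hz)

theorem coSub_le {n : ℕ} {X : FGMod A} {V : AddSubgroup (Fin n → X)} (x : (powFunctor A n).obj X)
    (hx : x ∈ (coSub X V).carrier X) : x ∈ V := hx LinearMap.id

theorem isPP_top {n : ℕ} (G : SubFunctor (powFunctor A n)) (hG : ∀ X x, x ∈ G.carrier X) :
    IsPP G := by
  refine isPP_of_system (σ := Fin 0) (ε := Fin 0) (fun e => e.elim0) G fun X x => ?_
  exact ⟨fun _ => ⟨fun e => e.elim0, fun e => e.elim0⟩, fun _ => hG X x⟩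

theorem isPP_finset_inf {n : ℕ} {κ : Type} (s : Finset κ) (F : κ → SubFunctor (powFunctor A n))
    (hF : ∀ i, IsPP (F i)) : ∃ G, IsPP G ∧ ∀ Z z, z ∈ G.carrier Z ↔ ∀ i ∈ s, z ∈ (F i).carrier Z := by
  classical
  induction s using Finset.induction_on with
  | empty =>
    refine ⟨coSub ⟨PUnit⟩ ⊤, isPP_top _ fun X x g => trivial, fun Z z => ⟨fun _ i hi => ?_, fun _ g => trivial⟩⟩
    exact absurd hi (Finset.notMem_empty i)
  | insert i s _ ih =>
    obtain ⟨G, hG, h⟩ := ih
    refine ⟨F i ⊓ G, isPP_inf (hF i) hG, fun Z z => ?_⟩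
    change z ∈ (F i).carrier Z ⊓ G.carrier Z ↔ _
    rw [AddSubgroup.mem_inf, h, Finset.forall_mem_insert]

variable [IsArtinianRing K] [Module.Finite K A]

theorem isPP_coSub_ker {E : Type u} [AddCommGroup E] [Module K E] (hE : Dualizing K E) {n : ℕ}
    (X : FGMod A) (l : Fin n → X → E)
    (hadd : ∀ i x y, l i (x + y) = l i x + l i y)
    (hsmul : ∀ i (k : K) x, l i (algebraMap K A k • x) = k • l i x)
    (V : AddSubgroup (Fin n → X)) (hV : ∀ v, v ∈ V ↔ ∑ i, l i (v i) = 0) : IsPP (coSub X V) := by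
  classical
  let _ : ∀ M : FGMod A, Module K M := kMod K
  have _ : ∀ M : FGMod A, IsScalarTower K A M := kTower K
  have _ : ∀ M : FGMod A, Module.Finite K M := kFinite K
  obtain ⟨l', hl'⟩ : ∃ l' : Fin n → (X →ₗ[K] E), ∀ i x, l' i x = l i x :=
    ⟨fun i => { toFun := l i, map_add' := hadd i, map_smul' := hsmul i }, fun i x => rfl⟩
  have hfin : Module.Finite K (X →ₗ[K] E) := hE.finite
  obtain ⟨r, s, hs⟩ := Module.Finite.exists_fin (R := K) (M := X →ₗ[K] E)
  obtain ⟨u, hu⟩ : ∃ u : Fin n ⊕ Fin r → (X →ₗ[K] E), u = Sum.elim l' s := ⟨_, rfl⟩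
  have huspan : Submodule.span K (Set.range u) = ⊤ := by
    rw [eq_top_iff, ← hs, Submodule.span_le]
    rintro _ ⟨j, rfl⟩
    refine Submodule.subset_span ⟨Sum.inr j, ?_⟩
    rw [hu]
    rfl
  have hnoeth : IsNoetherian K (Fin n ⊕ Fin r → A) := inferInstance
  obtain ⟨p, H, hH⟩ := Submodule.fg_iff_exists_fin_generating_family.1
    (hnoeth.noetherian (LinearMap.ker (rowMap (A := A) u)))
  obtain ⟨c, hc⟩ : ∃ c : Fin n ⊕ Fin r → Fin n ⊕ Fin p → A, c = fun e k =>
      Sum.elim (fun i => Sum.elim (fun i' => if i' = i then (1 : A) else 0)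
        (fun t => -H t (Sum.inl i)) k) (fun j => Sum.elim (fun _ => (0 : A)) (fun t => H t (Sum.inr j)) k) e :=
    ⟨_, rfl⟩
  have key : ∀ (Z : FGMod A) (z : Fin n → Z), (∀ g : Z →ₗ[A] X, (fun i => g (z i)) ∈ V) ↔
      ppSol c Z z := by
    intro Z z
    obtain ⟨z', hz'⟩ : ∃ z' : Fin n ⊕ Fin r → Z, z' = Sum.elim z (fun _ => 0) := ⟨_, rfl⟩
    have h1 := dual_core hE u huspan H hH z'
    have h2 : (∀ g : Z →ₗ[A] X, (fun i => g (z i)) ∈ V) ↔ ∀ g : Z →ₗ[A] X, ∑ j, u j (g (z' j)) = 0 := by
      refine forall_congr' fun g => ?_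
      rw [hV, hz', hu, Fintype.sum_sum_type]
      simp only [Sum.elim_inl, Sum.elim_inr, map_zero, Finset.sum_const_zero, add_zero, hl']
    rw [h2, h1]
    refine exists_congr fun w => ?_
    have e1 : ∀ i, (∑ i', c (Sum.inl i) (Sum.inl i') • z i' + ∑ t, c (Sum.inl i) (Sum.inr t) • w t = 0) ↔
        z' (Sum.inl i) = ∑ t, H t (Sum.inl i) • w t := by
      intro i
      rw [hz', hc]
      simp only [Sum.elim_inl, Sum.elim_inr, ite_smul, one_smul, zero_smul, Finset.sum_ite_eq',
        Finset.mem_univ, if_true, neg_smul, Finset.sum_neg_distrib]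
      exact add_neg_eq_zero
    have e2 : ∀ j, (∑ i', c (Sum.inr j) (Sum.inl i') • z i' + ∑ t, c (Sum.inr j) (Sum.inr t) • w t = 0) ↔
        z' (Sum.inr j) = ∑ t, H t (Sum.inr j) • w t := by
      intro j
      rw [hz', hc]
      simp only [Sum.elim_inl, Sum.elim_inr, zero_smul, Finset.sum_const_zero, zero_add]
      exact eq_comm
    constructor
    · rintro hw (i | j)
      · exact (e1 i).2 (hw _)
      · exact (e2 j).2 (hw _)
    · rintro hw (i | j)
      · exact (e1 i).1 (hw _)
      · exact (e2 j).1 (hw _)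
  exact isPP_of_system c _ fun Z z => key Z z

/-- **Cogenerated subfunctors are pp conditions.** -/
theorem isPP_coSub (K : Type u) [CommRing K] [IsArtinianRing K] [Algebra K A] [Module.Finite K A]
    {n : ℕ} (X : FGMod A) (V : AddSubgroup (Fin n → X))
    (hV : ∀ (k : K) (v : Fin n → X), v ∈ V → (fun i => algebraMap K A k • v i) ∈ V) :
    IsPP (coSub X V) := by
  classical
  obtain ⟨E, _, _, hE⟩ := exists_dualizing (K := K)
  let _ : ∀ M : FGMod A, Module K M := kMod K
  have _ : ∀ M : FGMod A, IsScalarTower K A M := kTower K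
  have _ : ∀ M : FGMod A, Module.Finite K M := kFinite K
  obtain ⟨V', hV'⟩ : ∃ V' : Submodule K (Fin n → X), ∀ v, v ∈ V' ↔ v ∈ V :=
    ⟨{ V with smul_mem' := fun k v hv => hV k v hv }, fun v => Iff.rfl⟩
  have hfin : Module.Finite K (((Fin n → X) ⧸ V') →ₗ[K] E) := hE.finite
  obtain ⟨t, s, hs⟩ := Module.Finite.exists_fin (R := K) (M := ((Fin n → X) ⧸ V') →ₗ[K] E)
  have hVs : ∀ v, v ∈ V ↔ ∀ j, s j (V'.mkQ v) = 0 := by
    intro v
    constructor
    · intro hv j
      have h1 : V'.mkQ v = 0 := (Submodule.Quotient.mk_eq_zero V').2 ((hV' v).2 hv)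
      rw [h1, map_zero]
    · intro h
      by_contra hv
      obtain ⟨f, hf⟩ := hE.sep (V'.mkQ v) fun h1 =>
        hv ((hV' v).1 ((Submodule.Quotient.mk_eq_zero V').1 h1))
      apply hf
      have h2 : f ∈ Submodule.span K (Set.range s) := by
        rw [hs]
        trivial
      have h3 : Submodule.span K (Set.range s) ≤
          LinearMap.ker (LinearMap.applyₗ (R := K) (M₂ := E) (V'.mkQ v)) := by
        rw [Submodule.span_le]
        rintro _ ⟨j, rfl⟩
        exact h j
      exact h3 h2
  obtain ⟨l, hl⟩ : ∃ l : Fin t → Fin n → X → E, ∀ j i x, l j i x = s j (V'.mkQ (Pi.single i x)) :=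
    ⟨fun j i x => s j (V'.mkQ (Pi.single i x)), fun _ _ _ => rfl⟩
  have hsum : ∀ j (v : Fin n → X), s j (V'.mkQ v) = ∑ i, l j i (v i) := by
    intro j v
    conv_lhs => rw [← Finset.univ_sum_single v]
    rw [map_sum, map_sum]
    exact Finset.sum_congr rfl fun i _ => (hl j i (v i)).symm
  obtain ⟨W, hW⟩ : ∃ W : Fin t → AddSubgroup (Fin n → X), ∀ j v, v ∈ W j ↔ ∑ i, l j i (v i) = 0 := by
    refine ⟨fun j => (LinearMap.ker (s j ∘ₗ V'.mkQ)).toAddSubgroup, fun j v => ?_⟩
    rw [← hsum]
    exact LinearMap.mem_ker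
  have hWpp : ∀ j, IsPP (coSub X (W j)) := fun j =>
    isPP_coSub_ker hE X (l j) (fun i x y => by
      rw [hl, hl, hl, Pi.single_add, map_add, map_add]) (fun i k x => by
      rw [hl, hl, ← map_smul, ← map_smul]
      congr 2
      funext i'
      by_cases h : i' = i
      · subst h
        rw [Pi.smul_apply, Pi.single_eq_same, Pi.single_eq_same]
        rfl
      · rw [Pi.smul_apply, Pi.single_eq_of_ne h, Pi.single_eq_of_ne h, smul_zero]) (W j) (hW j)
  obtain ⟨G, hG, hG'⟩ := isPP_finset_inf Finset.univ (fun j => coSub X (W j)) hWpp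
  have hGV : G = coSub X V := by
    apply SubFunctor.ext
    funext Z
    ext z
    rw [hG', mem_coSub]
    constructor
    · intro h g
      rw [hVs]
      intro j
      rw [hsum, ← hW]
      exact h j (Finset.mem_univ j) g
    · intro h j _ g
      rw [hW, ← hsum]
      exact (hVs _).1 (h g) j
  rw [← hGV]
  exact hG

end cogen

end Pool.Agent.Lib.MP_8e135c_al
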