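import Mathlib

/-!
# A finite injective cogenerator over a commutative artinian ring
-/

set_option autoImplicit false

universe u v w

namespace Pool.Agent.Lib.MP_8e135c_al

/-- the elements killed by a maximal ideal form a module of length at most one -/
def Thin (K : Type u) [CommRing K] (E : Type v) [AddCommGroup E] [Module K E] : Prop :=
  ∀ m : Ideal K, m.IsMaximal → ∀ x y : E, (∀ k ∈ m, k • x = 0) → (∀ k ∈ m, k • y = 0) → x ≠ 0 →
    ∃ k : K, y = k • x

theorem enat_aux {a b : ℕ∞} (ha : a ≠ ⊤) (hb : b ≠ 0) : ¬ a + b ≤ a := by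
  intro h
  obtain ⟨n, rfl⟩ := ENat.ne_top_iff_exists.1 ha
  rcases eq_or_ne b ⊤ with rfl | hb'
  · rw [add_top, top_le_iff] at h
    exact ha h
  · obtain ⟨m, rfl⟩ := ENat.ne_top_iff_exists.1 hb'
    have h1 : n + m ≤ n := by exact_mod_cast h
    apply hb
    have h2 : m = 0 := by omega
    rw [h2]
    rfl

section basic

variable {K : Type u} [CommRing K] {E : Type v} [AddCommGroup E] [Module K E]

theorem length_hom_simple_le (hE : Thin K E) {S : Type w} [AddCommGroup S] [Module K S]
    [IsSimpleModule K S] : Module.length K (S →ₗ[K] E) ≤ 1 := by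
  rcases subsingleton_or_nontrivial (S →ₗ[K] E) with h | h
  · rw [Module.length_eq_zero]
    exact zero_le_one
  · rw [Module.length_eq_one_iff.2]
    rw [isSimpleModule_iff_toSpanSingleton_surjective]
    refine ⟨h, fun f hf g => ?_⟩
    obtain ⟨s, hs⟩ : ∃ s, f s ≠ 0 := by
      by_contra hc
      push Not at hc
      exact hf (LinearMap.ext hc)
    have hs0 : s ≠ 0 := by
      rintro rfl
      exact hs (map_zero f)
    have hmax := IsSimpleModule.ker_toSpanSingleton_isMaximal K hs0
    have hkill : ∀ k ∈ LinearMap.ker (LinearMap.toSpanSingleton K S s), k • s = 0 := fun k hk => hk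
    obtain ⟨k, hk⟩ := hE _ hmax (f s) (g s) (fun k hk => by
      rw [← map_smul, hkill k hk, map_zero]) (fun k hk => by
      rw [← map_smul, hkill k hk, map_zero]) hs
    refine ⟨k, LinearMap.ext fun t => ?_⟩
    obtain ⟨l, rfl⟩ := IsSimpleModule.toSpanSingleton_surjective K hs0 t
    change k • f (l • s) = g (l • s)
    rw [map_smul, map_smul, hk, smul_comm]

theorem length_hom_le (hE : Thin K E) {M : Type w} [AddCommGroup M] [Module K M]
    (h : IsFiniteLength K M) : Module.length K (M →ₗ[K] E) ≤ Module.length K M := by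
  induction h with
  | @of_subsingleton M _ _ _ =>
    have : Subsingleton (M →ₗ[K] E) := ⟨fun f g => LinearMap.ext fun x => by
      rw [Subsingleton.elim x 0, map_zero, map_zero]⟩
    rw [Module.length_eq_zero]
    exact zero_le
  | @of_simple_quotient M _ _ N _ _ ih =>
    obtain ⟨f, hf⟩ : ∃ f : (M →ₗ[K] E) →ₗ[K] (N →ₗ[K] E), ∀ a, f a = a ∘ₗ N.subtype :=
      ⟨LinearMap.lcomp K E N.subtype, fun a => rfl⟩
    obtain ⟨i, hi⟩ : ∃ i : ((M ⧸ N) →ₗ[K] E) →ₗ[K] (M →ₗ[K] E), ∀ a, i a = a ∘ₗ N.mkQ :=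
      ⟨LinearMap.lcomp K E N.mkQ, fun a => rfl⟩
    have hinj : Function.Injective i := by
      intro a b hab
      rw [hi, hi] at hab
      refine LinearMap.ext fun x => ?_
      obtain ⟨y, rfl⟩ := N.mkQ_surjective x
      exact LinearMap.congr_fun hab y
    have hex : Function.Exact i f.rangeRestrict := by
      intro a
      constructor
      · intro ha
        have ha' : f a = 0 := congrArg Subtype.val ha
        rw [hf] at ha'
        refine ⟨N.liftQ a fun x hx => LinearMap.congr_fun ha' ⟨x, hx⟩, ?_⟩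
        rw [hi]
        exact N.liftQ_mkQ a _
      · rintro ⟨b, rfl⟩
        apply Subtype.ext
        change f (i b) = 0
        rw [hf, hi]
        refine LinearMap.ext fun x => ?_
        change b (N.mkQ x) = 0
        rw [(Submodule.Quotient.mk_eq_zero N).2 x.2 |> fun h => (h : N.mkQ (x : M) = 0), map_zero]
    rw [Module.length_eq_add_of_exact i f.rangeRestrict hinj f.surjective_rangeRestrict hex,
      Module.length_eq_add_of_exact N.subtype N.mkQ (Submodule.subtype_injective N)
        (Submodule.mkQ_surjective N) (LinearMap.exact_subtype_mkQ N), add_comm]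
    refine add_le_add ?_ ?_
    · exact (Module.length_le_of_injective (LinearMap.range f).subtype
        (Submodule.subtype_injective _)).trans ih
    · rw [Module.length_eq_one K (M ⧸ N)]
      exact length_hom_simple_le hE

theorem isFiniteLength_of_finite [IsArtinianRing K] {M : Type w} [AddCommGroup M] [Module K M]
    [Module.Finite K M] : IsFiniteLength K M :=
  isFiniteLength_iff_isNoetherian_isArtinian.2 ⟨inferInstance, inferInstance⟩

theorem Thin.length_le [IsArtinianRing K] (hE : Thin K E) :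
    Module.length K E ≤ Module.length K K := by
  rw [← (LinearMap.ringLmapEquivSelf K K E).length_eq]
  exact length_hom_le hE isFiniteLength_of_finite

theorem Thin.isFiniteLength [IsArtinianRing K] (hE : Thin K E) : IsFiniteLength K E := by
  rw [← Module.length_ne_top_iff]
  have h1 : Module.length K K ≠ ⊤ := Module.length_ne_top_iff.2 isFiniteLength_of_finite
  exact fun h => h1 (top_le_iff.1 (h ▸ hE.length_le))

end basic

section max

variable {K : Type u} [CommRing K] [IsArtinianRing K]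

theorem exists_thin_max : ∃ (E : Type u) (_ : AddCommGroup E) (_ : Module K E), Thin K E ∧
    ∀ (E' : Type u) [AddCommGroup E'] [Module K E'], Thin K E' →
      Module.length K E' ≤ Module.length K E := by
  obtain ⟨L, hL⟩ : ∃ L : ℕ, Module.length K K = L :=
    ⟨_, (ENat.natCast_toNat (Module.length_ne_top_iff.2 isFiniteLength_of_finite)).symm⟩
  obtain ⟨S, hS⟩ : ∃ S : Set ℕ, ∀ n, n ∈ S ↔ ∃ (E : Type u) (_ : AddCommGroup E) (_ : Module K E),
      Thin K E ∧ Module.length K E = n := ⟨{n | _}, fun n => Iff.rfl⟩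
  have hne : S.Nonempty := by
    refine ⟨0, (hS 0).2 ⟨PUnit, inferInstance, inferInstance, ?_, ?_⟩⟩
    · intro m _ x y _ _ hx
      exact absurd (Subsingleton.elim x 0) hx
    · rw [Module.length_eq_zero]
      rfl
  have hbd : BddAbove S := by
    refine ⟨L, fun n hn => ?_⟩
    obtain ⟨E, _, _, hE, hlen⟩ := (hS n).1 hn
    have := hE.length_le
    rw [hL, hlen] at this
    exact_mod_cast this
  obtain ⟨E, h1, h2, hE, hlen⟩ := (hS _).1 (Nat.sSup_mem hne hbd)
  refine ⟨E, h1, h2, hE, fun E' _ _ hE' => ?_⟩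
  rw [hlen]
  obtain ⟨n, hn⟩ : ∃ n : ℕ, Module.length K E' = n :=
    ⟨_, (ENat.natCast_toNat (Module.length_ne_top_iff.2 hE'.isFiniteLength)).symm⟩
  rw [hn]
  have : n ≤ sSup S := le_csSup hbd ((hS n).2 ⟨E', inferInstance, inferInstance, hE', hn⟩)
  exact_mod_cast this

variable {E : Type u} [AddCommGroup E] [Module K E]

theorem baer_of_max (hE : Thin K E) (hmax : ∀ (E' : Type u) [AddCommGroup E'] [Module K E'],
    Thin K E' → Module.length K E' ≤ Module.length K E) : Module.Baer K E := by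
  intro J f
  have hnoeth : IsNoetherian K E := (isFiniteLength_iff_isNoetherian_isArtinian.1 hE.isFiniteLength).1
  obtain ⟨N0, hN0⟩ : ∃ N0 : Submodule K (E × K), N0 = LinearMap.range (f.prod (-J.subtype)) :=
    ⟨_, rfl⟩
  have hmem : ∀ x : J, ((f x, -(x : K)) : E × K) ∈ N0 := fun x => by
    rw [hN0]
    exact ⟨x, rfl⟩
  obtain ⟨ι, hι⟩ : ∃ ι : E →ₗ[K] ((E × K) ⧸ N0), ∀ e, ι e = N0.mkQ (e, 0) :=
    ⟨N0.mkQ ∘ₗ LinearMap.inl K E K, fun e => rfl⟩
  have hιinj : Function.Injective ι := by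
    rw [← LinearMap.ker_eq_bot, LinearMap.ker_eq_bot']
    intro e he
    rw [hι] at he
    have h1 : ((e, 0) : E × K) ∈ N0 := (Submodule.Quotient.mk_eq_zero N0).1 he
    rw [hN0] at h1
    obtain ⟨x, hx⟩ := h1
    have h2 : f x = e := congrArg Prod.fst hx
    have h3 : -(x : K) = 0 := congrArg Prod.snd hx
    have h4 : x = 0 := Subtype.ext (neg_eq_zero.1 h3)
    rw [← h2, h4, map_zero]
  obtain ⟨F, hF, hFmax⟩ := (wellFounded_gt (α := Submodule K ((E × K) ⧸ N0))).has_min
    {F | Disjoint F (LinearMap.range ι)} ⟨⊥, disjoint_bot_left⟩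
  obtain ⟨ι', hι'⟩ : ∃ ι' : E →ₗ[K] (((E × K) ⧸ N0) ⧸ F), ∀ e, ι' e = F.mkQ (ι e) :=
    ⟨F.mkQ ∘ₗ ι, fun e => rfl⟩
  have hι'inj : Function.Injective ι' := by
    rw [← LinearMap.ker_eq_bot, LinearMap.ker_eq_bot']
    intro e he
    rw [hι'] at he
    have h1 : ι e ∈ F := (Submodule.Quotient.mk_eq_zero F).1 he
    have h2 : ι e = 0 := (Submodule.disjoint_def.1 hF) _ h1 ⟨e, rfl⟩
    exact hιinj (h2.trans (map_zero ι).symm)
  have hsoc : ∀ m : Ideal K, m.IsMaximal → ∀ x : ((E × K) ⧸ N0) ⧸ F, (∀ k ∈ m, k • x = 0) →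
      ∃ e, ι' e = x := by
    intro m hm x hx
    by_cases hx0 : x = 0
    · exact ⟨0, by rw [map_zero, hx0]⟩
    obtain ⟨p, rfl⟩ := F.mkQ_surjective x
    have hlt : F < F ⊔ Submodule.span K {p} := by
      refine lt_of_le_of_ne le_sup_left fun h => hx0 ?_
      have h1 : p ∈ F := by
        rw [h]
        exact Submodule.mem_sup_right (Submodule.mem_span_singleton_self p)
      exact (Submodule.Quotient.mk_eq_zero F).2 h1
    have h1 : ¬ Disjoint (F ⊔ Submodule.span K {p}) (LinearMap.range ι) := fun h => hFmax _ h hlt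
    rw [Submodule.disjoint_def] at h1
    push Not at h1
    obtain ⟨q, hq1, ⟨e, rfl⟩, hq2⟩ := h1
    obtain ⟨f0, hf0, q', hq', hsum⟩ := Submodule.mem_sup.1 hq1
    obtain ⟨k, rfl⟩ := Submodule.mem_span_singleton.1 hq'
    have h2 : ι' e = k • F.mkQ p := by
      rw [hι', ← hsum, map_add, map_smul]
      have : F.mkQ f0 = 0 := (Submodule.Quotient.mk_eq_zero F).2 hf0
      rw [this, zero_add]
    have hkm : k ∉ m := by
      intro hk
      rw [hx k hk] at h2
      have h3 : e = 0 := hι'inj (h2.trans (map_zero ι').symm)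
      apply hq2
      rw [h3, map_zero]
    obtain ⟨l, hl⟩ : ∃ l, l * k - 1 ∈ m := by
      obtain ⟨y, i, him, h⟩ := hm.exists_inv hkm
      refine ⟨y, ?_⟩
      have : y * k - 1 = -i := by
        rw [← h]
        ring
      rw [this]
      exact m.neg_mem him
    refine ⟨l • e, ?_⟩
    rw [map_smul, h2, smul_smul]
    have h3 := hx _ hl
    rw [sub_smul, one_smul, sub_eq_zero] at h3
    exact h3
  have hthin : Thin K (((E × K) ⧸ N0) ⧸ F) := by
    intro m hm x y hx hy hx0
    obtain ⟨a, rfl⟩ := hsoc m hm x hx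
    obtain ⟨b, rfl⟩ := hsoc m hm y hy
    obtain ⟨k, hk⟩ := hE m hm a b (fun k hk => hι'inj (by rw [map_smul, hx k hk, map_zero]))
      (fun k hk => hι'inj (by rw [map_smul, hy k hk, map_zero])) (fun h => hx0 (by rw [h, map_zero]))
    exact ⟨k, by rw [hk, map_smul]⟩
  have hlen := hmax _ hthin
  rw [Module.length_eq_add_of_exact ι' (LinearMap.range ι').mkQ hι'inj
    (Submodule.mkQ_surjective _) (LinearMap.exact_map_mkQ_range ι')] at hlen
  have hsurj : Function.Surjective ι' := by
    have h1 : Module.length K ((((E × K) ⧸ N0) ⧸ F) ⧸ LinearMap.range ι') = 0 := by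
      have h2 : Module.length K E ≠ ⊤ := Module.length_ne_top_iff.2 hE.isFiniteLength
      by_contra h3
      exact enat_aux h2 h3 hlen
    rw [Module.length_eq_zero_iff, Submodule.Quotient.subsingleton_iff] at h1
    exact LinearMap.range_eq_top.1 h1
  obtain ⟨e, he⟩ : ∃ e : E ≃ₗ[K] (((E × K) ⧸ N0) ⧸ F), ∀ x, e x = ι' x :=
    ⟨LinearEquiv.ofBijective ι' ⟨hι'inj, hsurj⟩, fun x => rfl⟩
  refine ⟨e.symm.toLinearMap ∘ₗ F.mkQ ∘ₗ N0.mkQ ∘ₗ LinearMap.inr K E K, fun x hx => ?_⟩
  change e.symm (F.mkQ (N0.mkQ (0, x))) = _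
  rw [LinearEquiv.symm_apply_eq, he, hι', hι]
  congr 1
  have h1 : N0.mkQ (f ⟨x, hx⟩, -x) = 0 := (Submodule.Quotient.mk_eq_zero N0).2 (hmem ⟨x, hx⟩)
  have h2 : ((f ⟨x, hx⟩, -x) : E × K) = (f ⟨x, hx⟩, 0) - (0, x) := by
    rw [Prod.mk_sub_mk, sub_zero, zero_sub]
  rw [h2, map_sub, sub_eq_zero] at h1
  exact h1.symm

theorem socle_of_max (hE : Thin K E) (hmax : ∀ (E' : Type u) [AddCommGroup E'] [Module K E'],
    Thin K E' → Module.length K E' ≤ Module.length K E) (m : Ideal K) (hm : m.IsMaximal) :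
    ∃ e : E, e ≠ 0 ∧ ∀ k ∈ m, k • e = 0 := by
  by_contra hno
  push Not at hno
  have hno' : ∀ e : E, (∀ k ∈ m, k • e = 0) → e = 0 := by
    intro e he
    by_contra h
    obtain ⟨k, hk, hk2⟩ := hno e h
    exact hk2 (he k hk)
  have hthin : Thin K (E × (K ⧸ m)) := by
    intro m' hm' x y hx hy hx0
    obtain ⟨a, b⟩ := x
    obtain ⟨a', b'⟩ := y
    have ha : ∀ k ∈ m', k • a = 0 := fun k hk => congrArg Prod.fst (hx k hk)
    have hb : ∀ k ∈ m', k • b = 0 := fun k hk => congrArg Prod.snd (hx k hk)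
    have ha' : ∀ k ∈ m', k • a' = 0 := fun k hk => congrArg Prod.fst (hy k hk)
    have hb' : ∀ k ∈ m', k • b' = 0 := fun k hk => congrArg Prod.snd (hy k hk)
    by_cases hmm : m' = m
    · subst hmm
      have h1 := hno' a ha
      have h2 := hno' a' ha'
      subst h1
      subst h2
      have hb0 : b ≠ 0 := fun h => hx0 (by rw [h]; rfl)
      have hsimple : IsSimpleModule K (K ⧸ m') := isSimpleModule_iff_isCoatom.2 hm'.out
      obtain ⟨k, hk⟩ := IsSimpleModule.toSpanSingleton_surjective K hb0 b'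
      refine ⟨k, ?_⟩
      rw [Prod.smul_mk, smul_zero]
      exact congrArg (Prod.mk (0 : E)) hk.symm
    · have hcop : ∃ k ∈ m', k - 1 ∈ m := by
        have h1 : m' ⊔ m = ⊤ := hm'.coprime_of_ne hm hmm
        have h2 : (1 : K) ∈ m' ⊔ m := by
          rw [h1]
          trivial
        obtain ⟨k, hk, l, hl, hkl⟩ := Submodule.mem_sup.1 h2
        refine ⟨k, hk, ?_⟩
        have : k - 1 = -l := by
          rw [← hkl]
          ring
        rw [this]
        exact m.neg_mem hl
      obtain ⟨k0, hk0, hk1⟩ := hcop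
      have hz : ∀ b : K ⧸ m, (∀ k ∈ m', k • b = 0) → b = 0 := by
        intro b hb
        obtain ⟨c, rfl⟩ := Ideal.Quotient.mk_surjective b
        have h1 := hb k0 hk0
        have h2 : k0 • (Ideal.Quotient.mk m c) = Ideal.Quotient.mk m (k0 * c) := rfl
        rw [h2, Ideal.Quotient.eq_zero_iff_mem] at h1
        rw [Ideal.Quotient.eq_zero_iff_mem]
        have h3 : c = k0 * c - (k0 - 1) * c := by ring
        rw [h3]
        exact m.sub_mem h1 (m.mul_mem_right c hk1)
      have h1 := hz b hb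
      have h2 := hz b' hb'
      subst h1
      subst h2
      have ha0 : a ≠ 0 := fun h => hx0 (by rw [h]; rfl)
      obtain ⟨k, hk⟩ := hE m' hm' a a' ha ha' ha0
      refine ⟨k, ?_⟩
      rw [Prod.smul_mk, smul_zero, hk]
  have hlen := hmax _ hthin
  rw [Module.length_prod] at hlen
  have hnt : Nontrivial (K ⧸ m) := Ideal.Quotient.nontrivial_iff.2 hm.ne_top
  have h2 : Module.length K E ≠ ⊤ := Module.length_ne_top_iff.2 hE.isFiniteLength
  have h3 : Module.length K (K ⧸ m) ≠ 0 := Module.length_pos.ne'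
  exact enat_aux h2 h3 hlen

/-- a module `E` which dualises modules of finite length -/
structure Dualizing (K : Type u) [CommRing K] (E : Type u) [AddCommGroup E] [Module K E] : Prop where
  thin : Thin K E
  baer : Module.Baer K E
  socle : ∀ m : Ideal K, m.IsMaximal → ∃ e : E, e ≠ 0 ∧ ∀ k ∈ m, k • e = 0

theorem exists_dualizing : ∃ (E : Type u) (_ : AddCommGroup E) (_ : Module K E), Dualizing K E := by
  obtain ⟨E, h1, h2, hE, hmax⟩ := exists_thin_max (K := K)
  exact ⟨E, h1, h2, hE, baer_of_max hE hmax, socle_of_max hE hmax⟩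

omit [IsArtinianRing K] in
/-- separation -/
theorem Dualizing.sep (hE : Dualizing K E) {M : Type w} [AddCommGroup M] [Module K M] (x : M)
    (hx : x ≠ 0) : ∃ h : M →ₗ[K] E, h x ≠ 0 := by
  obtain ⟨I, hI⟩ : ∃ I : Ideal K, I = LinearMap.ker (LinearMap.toSpanSingleton K M x) := ⟨_, rfl⟩
  have hI1 : ∀ k, k ∈ I ↔ k • x = 0 := fun k => by
    rw [hI]
    exact LinearMap.mem_ker
  have hIne : I ≠ ⊤ := fun h => hx (by
    have : (1 : K) ∈ I := by
      rw [h]
      trivial
    rw [hI1, one_smul] at this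
    exact this)
  obtain ⟨m, hm, hIm⟩ := Ideal.exists_le_maximal I hIne
  obtain ⟨e, he0, he⟩ := hE.socle m hm
  obtain ⟨i, hi⟩ : ∃ i : (K ⧸ I) →ₗ[K] M, ∀ k, i (Submodule.Quotient.mk k) = k • x :=
    ⟨I.liftQ (LinearMap.toSpanSingleton K M x) (le_of_eq hI), fun k => rfl⟩
  have hinj : Function.Injective i := by
    rw [← LinearMap.ker_eq_bot, LinearMap.ker_eq_bot']
    intro y hy
    obtain ⟨k, rfl⟩ := Submodule.Quotient.mk_surjective I y
    rw [hi] at hy
    exact (Submodule.Quotient.mk_eq_zero I).2 ((hI1 k).2 hy)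
  obtain ⟨g, hg⟩ : ∃ g : (K ⧸ I) →ₗ[K] E, ∀ k, g (Submodule.Quotient.mk k) = k • e :=
    ⟨I.liftQ (LinearMap.toSpanSingleton K E e) fun k hk => he k (hIm hk), fun k => rfl⟩
  obtain ⟨h, hh⟩ := hE.baer.extension_property i hinj g
  refine ⟨h, fun h0 => he0 ?_⟩
  have h1 := LinearMap.congr_fun hh (Submodule.Quotient.mk 1)
  rw [LinearMap.comp_apply, hi, hg, one_smul, one_smul] at h1
  rw [← h1, h0]

/-- biduality -/
theorem Dualizing.bidual (hE : Dualizing K E) {M : Type w} [AddCommGroup M] [Module K M]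
    [Module.Finite K M] (ω : (M →ₗ[K] E) →ₗ[K] E) : ∃ x : M, ∀ u : M →ₗ[K] E, ω u = u x := by
  obtain ⟨ev, hev⟩ : ∃ ev : M →ₗ[K] ((M →ₗ[K] E) →ₗ[K] E), ∀ x u, ev x u = u x :=
    ⟨LinearMap.flip LinearMap.id, fun x u => rfl⟩
  have hinj : Function.Injective ev := by
    rw [← LinearMap.ker_eq_bot, LinearMap.ker_eq_bot']
    intro x hx
    by_contra h0
    obtain ⟨h, hh⟩ := hE.sep x h0
    apply hh
    rw [← hev, hx]
    rfl
  have hM : IsFiniteLength K M := isFiniteLength_of_finite
  have hD : IsFiniteLength K (M →ₗ[K] E) := by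
    rw [← Module.length_ne_top_iff]
    exact fun h => (Module.length_ne_top_iff.2 hM) (top_le_iff.1 (h ▸ length_hom_le hE.thin hM))
  have hlen : Module.length K ((M →ₗ[K] E) →ₗ[K] E) ≤ Module.length K M :=
    (length_hom_le hE.thin hD).trans (length_hom_le hE.thin hM)
  rw [Module.length_eq_add_of_exact ev (LinearMap.range ev).mkQ hinj
    (Submodule.mkQ_surjective _) (LinearMap.exact_map_mkQ_range ev)] at hlen
  have hsurj : Function.Surjective ev := by
    have h1 : Module.length K (((M →ₗ[K] E) →ₗ[K] E) ⧸ LinearMap.range ev) = 0 := by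
      by_contra h3
      exact enat_aux (Module.length_ne_top_iff.2 hM) h3 hlen
    rw [Module.length_eq_zero_iff, Submodule.Quotient.subsingleton_iff] at h1
    exact LinearMap.range_eq_top.1 h1
  obtain ⟨x, rfl⟩ := hsurj ω
  exact ⟨x, hev x⟩

/-- the dual of a finite module is finite -/
theorem Dualizing.finite (hE : Dualizing K E) {M : Type w} [AddCommGroup M] [Module K M]
    [Module.Finite K M] : Module.Finite K (M →ₗ[K] E) := by
  have hM : IsFiniteLength K M := isFiniteLength_of_finite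
  have hD : IsFiniteLength K (M →ₗ[K] E) := by
    rw [← Module.length_ne_top_iff]
    exact fun h => (Module.length_ne_top_iff.2 hM) (top_le_iff.1 (h ▸ length_hom_le hE.thin hM))
  have := (isFiniteLength_iff_isNoetherian_isArtinian.1 hD).1
  infer_instance

end max

end Pool.Agent.Lib.MP_8e135c_al
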