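import Mathlib

/-!
# m-dimension of intervals in a modular lattice and dense chains
-/

set_option autoImplicit false

universe u v w

namespace Pool.Agent.Lib.MP_8e135c_al

/-- `MDimLT α a b`: the interval `[a, b]` has m-dimension `< α`.  `MDimLT 0 a b` means `a = b`;
`MDimLT (β + 1) a b` means that `[a, b]` has finite length modulo the congruence `MDimLT β`: there is
a finite chain from `a` to `b` such that every element `e` of every step `[c, d]` is congruent to `c`
or to `d`; at limits one takes unions. -/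
def MDimLT {P : Type v} [Preorder P] (α : Ordinal.{w}) (a b : P) : Prop :=
  a = b ∨ ∃ β : Ordinal.{w}, ∃ _ : β < α, Relation.ReflTransGen
    (fun c d => c ≤ d ∧ ∀ e, c ≤ e → e ≤ d → MDimLT β c e ∨ MDimLT β e d) a b
termination_by α

/-- the m-dimension of `[a, b]` is not an ordinal (usually written: it is `∞`, or undefined) -/
def MDimInfinite {P : Type v} [Preorder P] (a b : P) : Prop :=
  a ≤ b ∧ ∀ α : Ordinal.{w}, ¬ MDimLT α a b

section basic

variable {P : Type v} [PartialOrder P]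

theorem MDimLT_iff (α : Ordinal.{w}) (a b : P) : MDimLT α a b ↔
    a = b ∨ ∃ β : Ordinal.{w}, β < α ∧ Relation.ReflTransGen
    (fun c d => c ≤ d ∧ ∀ e, c ≤ e → e ≤ d → MDimLT β c e ∨ MDimLT β e d) a b := by
  rw [MDimLT]
  simp only [exists_prop]

theorem MDimLT.mono {α β : Ordinal.{w}} (h : α ≤ β) {a b : P} (hab : MDimLT α a b) : MDimLT β a b := by
  rw [MDimLT_iff] at hab ⊢
  rcases hab with h1 | ⟨γ, hγ, h1⟩
  · exact Or.inl h1
  · exact Or.inr ⟨γ, hγ.trans_le h, h1⟩

/-- an interval of infinite m-dimension has an interior point with both halves of infinite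
m-dimension -/
theorem MDimInfinite.exists_between [Small.{w} P] {a b : P} (h : MDimInfinite.{v, w} a b) :
    ∃ c, MDimInfinite.{v, w} a c ∧ MDimInfinite.{v, w} c b := by
  by_contra hno
  push Not at hno
  have h1 : ∀ e : P, ∃ α : Ordinal.{w}, a ≤ e → e ≤ b → MDimLT α a e ∨ MDimLT α e b := by
    intro e
    by_cases he : a ≤ e ∧ e ≤ b
    · by_cases h2 : MDimInfinite.{v, w} a e
      · have h3 := hno e h2
        unfold MDimInfinite at h3
        push Not at h3
        obtain ⟨α, hα⟩ := h3 he.2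
        exact ⟨α, fun _ _ => Or.inr hα⟩
      · unfold MDimInfinite at h2
        push Not at h2
        obtain ⟨α, hα⟩ := h2 he.1
        exact ⟨α, fun _ _ => Or.inl hα⟩
    · exact ⟨0, fun h3 h4 => absurd ⟨h3, h4⟩ he⟩
  choose f hf using h1
  obtain ⟨β, hβ⟩ : ∃ β, ∀ e, f e ≤ β := by
    refine ⟨⨆ e : Shrink.{w} P, f ((equivShrink P).symm e), fun e => ?_⟩
    have h2 := Ordinal.le_iSup (fun e : Shrink.{w} P => f ((equivShrink P).symm e)) (equivShrink P e)
    simpa using h2
  apply h.2 (β + 1)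
  rw [MDimLT_iff]
  refine Or.inr ⟨β, Order.lt_add_one_iff.2 le_rfl, Relation.ReflTransGen.single ⟨h.1, fun e h3 h4 => ?_⟩⟩
  rcases hf e h3 h4 with h5 | h5
  · exact Or.inl (h5.mono (hβ e))
  · exact Or.inr (h5.mono (hβ e))

end basic

section modular

variable {P : Type v} [Lattice P] [IsModularLattice P]

theorem MDimLT.inf_sup (α : Ordinal.{w}) : ∀ {a c : P}, MDimLT α a c → ∀ b,
    MDimLT α (a ⊓ b) (c ⊓ b) ∧ MDimLT α (a ⊔ b) (c ⊔ b) := by
  induction α using WellFoundedLT.induction with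
  | ind α ih =>
    intro a c hac b
    rw [MDimLT_iff] at hac
    rcases hac with rfl | ⟨β, hβ, h1⟩
    · constructor <;> (rw [MDimLT_iff]; exact Or.inl rfl)
    · constructor
      · rw [MDimLT_iff]
        refine Or.inr ⟨β, hβ, Relation.ReflTransGen.lift (fun x => x ⊓ b) ?_ a c h1⟩
        rintro x y ⟨hxy, h2⟩
        refine ⟨inf_le_inf_right b hxy, fun e h3 h4 => ?_⟩
        have he : (e ⊔ x) ⊓ b = e := by
          have h5 : e ≤ b := h4.trans inf_le_right
          rw [sup_inf_assoc_of_le x h5]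
          exact sup_eq_left.2 h3
        have h6 : x ≤ e ⊔ x := le_sup_right
        have h7 : e ⊔ x ≤ y := sup_le (h4.trans inf_le_left) hxy
        rcases h2 _ h6 h7 with h8 | h8
        · left
          have := (ih β hβ h8 b).1
          rwa [he] at this
        · right
          have := (ih β hβ h8 b).1
          rwa [he] at this
      · rw [MDimLT_iff]
        refine Or.inr ⟨β, hβ, Relation.ReflTransGen.lift (fun x => x ⊔ b) ?_ a c h1⟩
        rintro x y ⟨hxy, h2⟩
        refine ⟨sup_le_sup_right hxy b, fun e h3 h4 => ?_⟩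
        have he : (e ⊓ y) ⊔ b = e := by
          have h5 : b ≤ e := le_sup_right.trans h3
          rw [inf_sup_assoc_of_le y h5]
          exact inf_eq_left.2 h4
        have h6 : x ≤ e ⊓ y := le_inf (le_sup_left.trans h3) hxy
        have h7 : e ⊓ y ≤ y := inf_le_right
        rcases h2 _ h6 h7 with h8 | h8
        · left
          have := (ih β hβ h8 b).2
          rwa [he] at this
        · right
          have := (ih β hβ h8 b).2
          rwa [he] at this

theorem MDimInfinite.trans_le {a b c : P} (h : MDimInfinite.{v, w} a b) (hbc : b ≤ c) :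
    MDimInfinite.{v, w} a c := by
  refine ⟨h.1.trans hbc, fun α hα => h.2 α ?_⟩
  have h1 := (MDimLT.inf_sup α hα b).1
  rwa [inf_eq_left.2 h.1, inf_eq_right.2 hbc] at h1

theorem MDimInfinite.le_trans {a b c : P} (hab : a ≤ b) (h : MDimInfinite.{v, w} b c) :
    MDimInfinite.{v, w} a c := by
  refine ⟨hab.trans h.1, fun α hα => h.2 α ?_⟩
  have h1 := (MDimLT.inf_sup α hα b).2
  rwa [sup_eq_right.2 hab, sup_eq_left.2 h.1] at h1

omit [IsModularLattice P] in
theorem MDimInfinite.lt {a b : P} (h : MDimInfinite.{v, w} a b) : a < b := by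
  refine lt_of_le_of_ne h.1 fun h1 => h.2 0 ?_
  rw [MDimLT_iff]
  exact Or.inl h1

/-- **Dense chains inside a class.** If every interval of infinite m-dimension inside `[a, b]` has an
interior point in the class `W`, with both halves of infinite m-dimension, then there is a densely
ordered chain in `W ∩ [a, b]` -/
theorem exists_dense_chain (W : P → Prop) {a b : P} (hab : MDimInfinite.{v, w} a b)
    (hW : ∀ x y, a ≤ x → y ≤ b → MDimInfinite.{v, w} x y →
      ∃ c, W c ∧ MDimInfinite.{v, w} x c ∧ MDimInfinite.{v, w} c y) :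
    ∃ C : Set P, (∀ c ∈ C, W c ∧ a ≤ c ∧ c ≤ b) ∧ (∀ c ∈ C, ∀ d ∈ C, c ≤ d ∨ d ≤ c) ∧
      (∃ c ∈ C, ∃ d ∈ C, c < d) ∧ (∀ c ∈ C, ∀ d ∈ C, c < d → MDimInfinite.{v, w} c d) ∧
      ∀ c ∈ C, ∀ d ∈ C, c < d → ∃ e ∈ C, c < e ∧ e < d := by
  obtain ⟨c0, hc0, h1, h2⟩ := hW a b le_rfl le_rfl hab
  obtain ⟨c1, hc1, h3, h4⟩ := hW a c0 le_rfl h2.1 h1
  let 𝒞 : Set (Set P) := {C | (∀ c ∈ C, W c ∧ a ≤ c ∧ c ≤ b) ∧
    ∀ c ∈ C, ∀ d ∈ C, c = d ∨ MDimInfinite.{v, w} c d ∨ MDimInfinite.{v, w} d c}
  have h0 : ({c0, c1} : Set P) ∈ 𝒞 := by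
    refine ⟨?_, ?_⟩
    · rintro c (rfl | rfl)
      · exact ⟨hc0, h1.1, h2.1⟩
      · exact ⟨hc1, h3.1, h4.1.trans h2.1⟩
    · rintro c (rfl | rfl) d (rfl | rfl)
      · exact Or.inl rfl
      · exact Or.inr (Or.inr h4)
      · exact Or.inr (Or.inl h4)
      · exact Or.inl rfl
  obtain ⟨C, hCsub, hCmax⟩ := zorn_subset_nonempty 𝒞 (by
    intro D hD hchain hne
    refine ⟨⋃₀ D, ⟨?_, ?_⟩, fun s hs => Set.subset_sUnion_of_mem hs⟩
    · rintro c ⟨s, hs, hc⟩
      exact (hD hs).1 c hc
    · rintro c ⟨s, hs, hc⟩ d ⟨t, ht, hd⟩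
      rcases hchain.total hs ht with h | h
      · exact (hD ht).2 c (h hc) d hd
      · exact (hD hs).2 c hc d (h hd)) {c0, c1} h0
  have hC : C ∈ 𝒞 := hCmax.prop
  have hcmp : ∀ c ∈ C, ∀ d ∈ C, c < d → MDimInfinite.{v, w} c d := by
    intro c hc d hd hcd
    rcases hC.2 c hc d hd with h | h | h
    · exact absurd h hcd.ne
    · exact h
    · exact absurd h.lt (not_lt_of_gt hcd)
  refine ⟨C, hC.1, ?_, ?_, hcmp, ?_⟩
  · intro c hc d hd
    rcases hC.2 c hc d hd with rfl | h | h
    · exact Or.inl le_rfl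
    · exact Or.inl h.1
    · exact Or.inr h.1
  · exact ⟨c1, hCsub (by simp), c0, hCsub (by simp), h4.lt⟩
  · intro c hc d hd hcd
    by_contra hno
    push Not at hno
    obtain ⟨e, he, h5, h6⟩ := hW c d (hC.1 c hc).2.1 (hC.1 d hd).2.2 (hcmp c hc d hd hcd)
    have h7 : insert e C ∈ 𝒞 := by
      have key : ∀ x ∈ C, x = e ∨ MDimInfinite.{v, w} x e ∨ MDimInfinite.{v, w} e x := by
        intro x hx
        -- `x ≤ c` or `d ≤ x`
        have h8 : x ≤ c ∨ d ≤ x := by
          rcases hC.2 x hx c hc with rfl | h | h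
          · exact Or.inl le_rfl
          · exact Or.inl h.1
          · rcases hC.2 x hx d hd with rfl | h' | h'
            · exact Or.inr le_rfl
            · exact absurd h'.lt (hno x hx h.lt)
            · exact Or.inr h'.1
        rcases h8 with h8 | h8
        · exact Or.inr (Or.inl (MDimInfinite.le_trans h8 h5))
        · exact Or.inr (Or.inr (h6.trans_le h8))
      refine ⟨?_, ?_⟩
      · rintro x (rfl | hx)
        · exact ⟨he, (hC.1 c hc).2.1.trans h5.1, h6.1.trans (hC.1 d hd).2.2⟩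
        · exact hC.1 x hx
      · rintro x (rfl | hx) y (rfl | hy)
        · exact Or.inl rfl
        · rcases key y hy with h | h | h
          · exact Or.inl h.symm
          · exact Or.inr (Or.inr h)
          · exact Or.inr (Or.inl h)
        · exact key x hx
        · exact hC.2 x hx y hy
    have h9 : insert e C ⊆ C := hCmax.le_of_ge h7 (Set.subset_insert e C)
    exact hno e (h9 (Set.mem_insert e C)) h5.lt h6.lt

end modular

end Pool.Agent.Lib.MP_8e135c_al
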