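import Pool.Agent.Lib.MP_8e135c_al.Dense
import Pool.Agent.Lib.MP_8e135c_al.MDim

/-!
# The lattice of pp conditions
-/

set_option autoImplicit false

universe u v w

namespace Pool.Agent.Lib.MP_8e135c_al

open HomIdeal

variable {A : Type u} [Ring A]

/-! ### the lattice of subfunctors -/

namespace SubFunctor

variable {Q : AddFunctor.{u, v} A}

instance : Lattice (SubFunctor Q) where
  sup F G :=
    { carrier := fun M => F.carrier M ⊔ G.carrier M
      map_mem := fun {M N} f x hx => by
        rw [AddSubgroup.mem_sup] at hx ⊢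
        obtain ⟨y, hy, z, hz, rfl⟩ := hx
        exact ⟨_, F.map_mem f y hy, _, G.map_mem f z hz, (map_add _ _ _).symm⟩ }
  inf F G :=
    { carrier := fun M => F.carrier M ⊓ G.carrier M
      map_mem := fun {M N} f x hx => ⟨F.map_mem f x hx.1, G.map_mem f x hx.2⟩ }
  le_sup_left F G M := le_sup_left
  le_sup_right F G M := le_sup_right
  sup_le F G H h1 h2 M := sup_le (h1 M) (h2 M)
  inf_le_left F G M := inf_le_left
  inf_le_right F G M := inf_le_right
  le_inf F G H h1 h2 M := le_inf (h1 M) (h2 M)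

instance : IsModularLattice (SubFunctor Q) where
  sup_inf_le_assoc_of_le {F} G {H} h M := by
    change (F.carrier M ⊔ G.carrier M) ⊓ H.carrier M ≤ F.carrier M ⊔ G.carrier M ⊓ H.carrier M
    exact IsModularLattice.sup_inf_le_assoc_of_le _ (h M)

end SubFunctor

/-! ### pp formulas -/

/-- the action of a homomorphism on `n`-tuples -/
def powMap (n : ℕ) {M N : FGMod A} (f : Hom M N) : (Fin n → M) →+ (Fin n → N) :=
  f.toAddMonoidHom.compLeft (Fin n)

theorem powMap_id (n : ℕ) (M : FGMod A) :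
    powMap n (LinearMap.id : Hom M M) = AddMonoidHom.id (Fin n → M) := rfl

theorem powMap_comp (n : ℕ) {M N X : FGMod A} (g : Hom N X) (f : Hom M N) :
    powMap n (cmp g f) = (powMap n g).comp (powMap n f) := rfl

theorem powMap_add (n : ℕ) {M N : FGMod A} (f g : Hom M N) :
    powMap n (f + g) = powMap n f + powMap n g := rfl

/-- the functor `X ↦ X ^ n` -/
def powFunctor (A : Type u) [Ring A] (n : ℕ) : AddFunctor.{u, u} A where
  obj M := Fin n → M
  map := powMap n
  map_id := powMap_id n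
  map_comp := powMap_comp n
  map_add := powMap_add n

/-- a pp formula with `n` free variables: existence of a solution of a finite system of linear
equations `∑ i, c e (inl i) • x i + ∑ j, c e (inr j) • z j = 0` in the bound variables `z` -/
structure PPFormula (A : Type u) [Ring A] (n : ℕ) where
  m : ℕ
  l : ℕ
  c : Fin l → (Fin n ⊕ Fin m) → A

/-- the solution set of a system of linear equations in `X` -/
def ppSol {n : ℕ} {σ ε : Type} [Fintype σ] (c : ε → (Fin n ⊕ σ) → A) (X : FGMod A) (x : Fin n → X) :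
    Prop :=
  ∃ z : σ → X, ∀ e, ∑ i, c e (Sum.inl i) • x i + ∑ j, c e (Sum.inr j) • z j = 0

/-- `x` satisfies `φ` -/
abbrev PPFormula.Sat {n : ℕ} (φ : PPFormula A n) (X : FGMod A) (x : Fin n → X) : Prop :=
  ppSol φ.c X x

namespace PPFormula

variable {n : ℕ} (φ : PPFormula A n) (X : FGMod A)

theorem sat_zero : φ.Sat X 0 := ⟨0, fun e => by
  have e1 : ∑ i, φ.c e (Sum.inl i) • ((0 : Fin n → X) i) = 0 :=
    Finset.sum_eq_zero fun i _ => smul_zero _
  have e2 : ∑ j, φ.c e (Sum.inr j) • ((0 : Fin φ.m → X) j) = 0 :=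
    Finset.sum_eq_zero fun i _ => smul_zero _
  exact (congrArg₂ (· + ·) e1 e2).trans (add_zero 0)⟩

theorem sat_add {x y : Fin n → X} (hx : φ.Sat X x) (hy : φ.Sat X y) : φ.Sat X (x + y) := by
  obtain ⟨z, hz⟩ := hx
  obtain ⟨z', hz'⟩ := hy
  refine ⟨z + z', fun e => ?_⟩
  have h := congrArg₂ (· + ·) (hz e) (hz' e)
  simp only [add_zero] at h
  rw [← h]
  have e1 : ∀ i, φ.c e (Sum.inl i) • (x + y) i = φ.c e (Sum.inl i) • x i + φ.c e (Sum.inl i) • y i :=
    fun i => smul_add _ _ _
  have e2 : ∀ j, φ.c e (Sum.inr j) • (z + z') j = φ.c e (Sum.inr j) • z j + φ.c e (Sum.inr j) • z' j :=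
    fun i => smul_add _ _ _
  rw [Finset.sum_congr rfl fun i _ => e1 i, Finset.sum_congr rfl fun i _ => e2 i,
    Finset.sum_add_distrib, Finset.sum_add_distrib]
  abel

theorem sat_neg {x : Fin n → X} (hx : φ.Sat X x) : φ.Sat X (-x) := by
  obtain ⟨z, hz⟩ := hx
  refine ⟨-z, fun e => ?_⟩
  have h := congrArg (fun t => -t) (hz e)
  simp only [neg_zero] at h
  rw [← h]
  have e1 : ∀ i, φ.c e (Sum.inl i) • (-x) i = -(φ.c e (Sum.inl i) • x i) := fun i => smul_neg _ _
  have e2 : ∀ j, φ.c e (Sum.inr j) • (-z) j = -(φ.c e (Sum.inr j) • z j) := fun i => smul_neg _ _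
  rw [Finset.sum_congr rfl fun i _ => e1 i, Finset.sum_congr rfl fun i _ => e2 i,
    Finset.sum_neg_distrib, Finset.sum_neg_distrib, neg_add]

theorem sat_map {M N : FGMod A} (f : Hom M N) (x : Fin n → M) (hx : φ.Sat M x) :
    φ.Sat N (powMap n f x) := by
  obtain ⟨z, hz⟩ := hx
  refine ⟨fun j => f (z j), fun e => ?_⟩
  have h := congrArg f (hz e)
  rw [map_zero, map_add, map_sum, map_sum] at h
  rw [← h]
  congr 1
  · exact Finset.sum_congr rfl fun i _ => (map_smul f _ _).symm
  · exact Finset.sum_congr rfl fun i _ => (map_smul f _ _).symm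

/-- the solutions in `X` -/
abbrev solSub : AddSubgroup (Fin n → X) where
  carrier := {x | φ.Sat X x}
  zero_mem' := sat_zero φ X
  add_mem' := sat_add φ X
  neg_mem' := sat_neg φ X

end PPFormula

/-- the pp condition defined by a pp formula -/
def PPFormula.sol {n : ℕ} (φ : PPFormula A n) : SubFunctor (powFunctor A n) where
  carrier := φ.solSub
  map_mem := φ.sat_map

theorem mem_sol {n : ℕ} (φ : PPFormula A n) (X : FGMod A) (x : (powFunctor A n).obj X) :
    x ∈ φ.sol.carrier X ↔ ppSol φ.c X x := Iff.rfl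

/-- `G` is a pp condition -/
def IsPP {n : ℕ} (G : SubFunctor (powFunctor A n)) : Prop := ∃ φ : PPFormula A n, G = φ.sol

theorem isPP_of_system {n : ℕ} {σ ε : Type} [Fintype σ] [Fintype ε] (c : ε → (Fin n ⊕ σ) → A)
    (G : SubFunctor (powFunctor A n)) (hG : ∀ X x, x ∈ G.carrier X ↔ ppSol c X x) : IsPP G := by
  classical
  obtain ⟨eσ⟩ : Nonempty (σ ≃ Fin (Fintype.card σ)) := ⟨Fintype.equivFin σ⟩
  obtain ⟨eε⟩ : Nonempty (ε ≃ Fin (Fintype.card ε)) := ⟨Fintype.equivFin ε⟩
  refine ⟨⟨Fintype.card σ, Fintype.card ε, fun e k => c (eε.symm e) (Sum.map id eσ.symm k)⟩, ?_⟩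
  apply SubFunctor.ext
  funext X
  ext x
  rw [hG]
  constructor
  · rintro ⟨z, hz⟩
    refine ⟨fun j => z (eσ.symm j), fun e => ?_⟩
    rw [← hz (eε.symm e)]
    congr 1
    exact Equiv.sum_comp eσ.symm (fun j => c (eε.symm e) (Sum.inr j) • z j)
  · rintro ⟨z, hz⟩
    refine ⟨fun j => z (eσ j), fun e => ?_⟩
    have h := hz (eε e)
    simp only [Equiv.symm_apply_apply, Sum.map_inl, Sum.map_inr, id] at h
    rw [← h]
    congr 1
    rw [← Equiv.sum_comp eσ (fun j => c e (Sum.inr (eσ.symm j)) • z j)]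
    exact Finset.sum_congr rfl fun j _ => by rw [eσ.symm_apply_apply]

section gen

variable {n : ℕ} (N : FGMod A) (y : Fin n → N) (X : FGMod A)

/-- `x` is the image of `y` -/
abbrev GenMem (x : Fin n → X) : Prop := ∃ h : Hom N X, ∀ i, x i = h (y i)

theorem genMem_zero : GenMem N y X 0 := ⟨0, fun _ => rfl⟩

theorem genMem_add {x x' : Fin n → X} (hx : GenMem N y X x) (hx' : GenMem N y X x') :
    GenMem N y X (x + x') := by
  obtain ⟨h, hh⟩ := hx
  obtain ⟨h', hh'⟩ := hx'
  refine ⟨h + h', fun i => ?_⟩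
  have e1 : (h + h') (y i) = h (y i) + h' (y i) := LinearMap.add_apply _ _ _
  rw [e1, ← hh, ← hh']
  rfl

theorem genMem_neg {x : Fin n → X} (hx : GenMem N y X x) : GenMem N y X (-x) := by
  obtain ⟨h, hh⟩ := hx
  refine ⟨-h, fun i => ?_⟩
  have e1 : (-h) (y i) = -h (y i) := LinearMap.neg_apply _ _
  rw [e1, ← hh]
  rfl

theorem genMem_map {M M' : FGMod A} (f : Hom M M') (x : Fin n → M) (hx : GenMem N y M x) :
    GenMem N y M' (powMap n f x) := by
  obtain ⟨h, hh⟩ := hx
  refine ⟨f ∘ₗ h, fun i => ?_⟩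
  rw [LinearMap.comp_apply, ← hh]
  rfl

/-- the images of `y` in `X` -/
abbrev genSub : AddSubgroup (Fin n → X) where
  carrier := {x | GenMem N y X x}
  zero_mem' := genMem_zero N y X
  add_mem' := genMem_add N y X
  neg_mem' := genMem_neg N y X

end gen

/-- the subfunctor generated by a tuple -/
def genF {n : ℕ} (N : FGMod A) (y : Fin n → N) : SubFunctor (powFunctor A n) where
  carrier := genSub N y
  map_mem := genMem_map N y

theorem mem_genF {n : ℕ} (N : FGMod A) (y : Fin n → N) (X : FGMod A) (x : (powFunctor A n).obj X) :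
    x ∈ (genF N y).carrier X ↔ ∃ h : N →ₗ[A] X, ∀ i, x i = h (y i) := Iff.rfl

/-- every tuple in a finitely generated module generates a pp condition -/
theorem isPP_genF [IsNoetherianRing A] {n : ℕ} (N : FGMod A) (y : Fin n → N) : IsPP (genF N y) := by
  classical
  obtain ⟨m, g, hg⟩ := Module.Finite.exists_fin (R := A) (M := N)
  obtain ⟨π, hπdef⟩ : ∃ π : (Fin m → A) →ₗ[A] N, π = Fintype.linearCombination A g := ⟨_, rfl⟩
  have hπ1 : ∀ c, π c = ∑ j, c j • g j := fun c => by
    rw [hπdef, Fintype.linearCombination_apply]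
  have hπ : Function.Surjective π := by
    rw [← LinearMap.range_eq_top, hπdef, Fintype.range_linearCombination, hg]
  obtain ⟨l, r, hr⟩ := Submodule.fg_iff_exists_fin_generating_family.1
    (IsNoetherian.noetherian (LinearMap.ker π))
  choose c hc using fun i => hπ (y i)
  refine isPP_of_system (σ := Fin m) (ε := Fin l ⊕ Fin n)
    (fun e k => Sum.elim (fun e' => Sum.elim (fun _ => (0 : A)) (fun j => r e' j) k)
      (fun i => Sum.elim (fun i' => if i' = i then (1 : A) else 0) (fun j => -c i j) k) e) _ ?_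
  intro X x
  constructor
  · rintro ⟨h, hh⟩
    refine ⟨fun j => h (g j), fun e => ?_⟩
    rcases e with e | i
    · simp only [Sum.elim_inl, Sum.elim_inr, zero_smul, Finset.sum_const_zero, zero_add]
      have h1 : π (r e) = 0 := by
        have : r e ∈ LinearMap.ker π := by
          rw [← hr]
          exact Submodule.subset_span ⟨e, rfl⟩
        exact this
      rw [hπ1] at h1
      have h2 := congrArg h h1
      rw [map_zero, map_sum] at h2
      rw [← h2]
      exact Finset.sum_congr rfl fun j _ => (map_smul h _ _).symm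
    · simp only [Sum.elim_inr, Sum.elim_inl, ite_smul, one_smul, zero_smul, Finset.sum_ite_eq',
        Finset.mem_univ, if_true, neg_smul, Finset.sum_neg_distrib]
      rw [hh i, ← hc i, hπ1, map_sum]
      have h3 : ∑ j, h (c i j • g j) = ∑ j, c i j • h (g j) :=
        Finset.sum_congr rfl fun j _ => map_smul h _ _
      rw [h3]
      exact add_neg_cancel _
  · rintro ⟨z, hz⟩
    obtain ⟨q, hq⟩ : ∃ q : (Fin m → A) →ₗ[A] X, q = Fintype.linearCombination A z := ⟨_, rfl⟩
    have hq1 : ∀ c, q c = ∑ j, c j • z j := fun c => by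
      rw [hq, Fintype.linearCombination_apply]
    have hker : LinearMap.ker π ≤ LinearMap.ker q := by
      rw [← hr, Submodule.span_le]
      rintro _ ⟨e, rfl⟩
      have h1 := hz (Sum.inl e)
      simp only [Sum.elim_inl, Sum.elim_inr, zero_smul, Finset.sum_const_zero, zero_add] at h1
      change q (r e) = 0
      rw [hq1, h1]
    refine ⟨((LinearMap.ker π).liftQ q hker) ∘ₗ (π.quotKerEquivOfSurjective hπ).symm.toLinearMap,
      fun i => ?_⟩
    have h1 := hz (Sum.inr i)
    simp only [Sum.elim_inr, Sum.elim_inl, ite_smul, one_smul, zero_smul, Finset.sum_ite_eq',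
      Finset.mem_univ, if_true, neg_smul, Finset.sum_neg_distrib] at h1
    rw [LinearMap.comp_apply]
    have h2 : (π.quotKerEquivOfSurjective hπ).symm.toLinearMap (y i) =
        Submodule.Quotient.mk (c i) := by
      rw [← hc i]
      exact LinearMap.quotKerEquivOfSurjective_symm_apply π hπ (c i)
    rw [h2]
    change x i = q (c i)
    rw [hq1]
    exact add_neg_eq_zero.1 h1

/-- free realisations -/
theorem exists_genF {n : ℕ} {G : SubFunctor (powFunctor A n)} (hG : IsPP G) :
    ∃ (N : FGMod A) (y : Fin n → N), G = genF N y := by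
  classical
  obtain ⟨φ, rfl⟩ := hG
  let W : Submodule A ((Fin n ⊕ Fin φ.m) → A) := Submodule.span A (Set.range φ.c)
  refine ⟨⟨((Fin n ⊕ Fin φ.m) → A) ⧸ W⟩, fun i => Submodule.Quotient.mk (Pi.single (Sum.inl i) 1), ?_⟩
  apply SubFunctor.ext
  funext X
  ext x
  constructor
  · rintro ⟨z, hz⟩
    have hq1 : ∀ c : (Fin n ⊕ Fin φ.m) → A, Fintype.linearCombination A (Sum.elim x z) c =
        ∑ i, c (Sum.inl i) • x i + ∑ j, c (Sum.inr j) • z j := fun c => by
      rw [Fintype.linearCombination_apply, Fintype.sum_sum_type]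
      rfl
    have hker : W ≤ LinearMap.ker (Fintype.linearCombination A (Sum.elim x z)) := by
      rw [Submodule.span_le]
      rintro _ ⟨e, rfl⟩
      change Fintype.linearCombination A (Sum.elim x z) (φ.c e) = 0
      rw [hq1]
      exact hz e
    refine ⟨W.liftQ _ hker, fun i => ?_⟩
    change x i = Fintype.linearCombination A (Sum.elim x z) (Pi.single (Sum.inl i) 1)
    rw [Fintype.linearCombination_apply_single, one_smul]
    rfl
  · rintro ⟨h, hh⟩
    refine ⟨fun j => h (Submodule.Quotient.mk (Pi.single (Sum.inr j) 1)), fun e => ?_⟩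
    have e1 : φ.c e = ∑ k, φ.c e k • (Pi.single k (1 : A) : (Fin n ⊕ Fin φ.m) → A) := by
      ext k
      rw [Finset.sum_apply, Finset.sum_eq_single k]
      · simp
      · intro k' _ hk'
        simp [hk'.symm]
      · intro h1
        exact absurd (Finset.mem_univ k) h1
    have e2 : (Submodule.Quotient.mk (φ.c e) : ((Fin n ⊕ Fin φ.m) → A) ⧸ W) = 0 := by
      rw [Submodule.Quotient.mk_eq_zero]
      exact Submodule.subset_span ⟨e, rfl⟩
    have e3 : (Submodule.Quotient.mk (φ.c e) : ((Fin n ⊕ Fin φ.m) → A) ⧸ W) =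
        ∑ k, φ.c e k • Submodule.Quotient.mk (Pi.single k (1 : A) : (Fin n ⊕ Fin φ.m) → A) := by
      conv_lhs => rw [e1]
      change W.mkQ _ = ∑ k, φ.c e k • W.mkQ _
      rw [map_sum]
      exact Finset.sum_congr rfl fun k _ => map_smul _ _ _
    have e4 := congrArg h (e3.symm.trans e2)
    rw [map_zero, map_sum, Fintype.sum_sum_type] at e4
    rw [← e4]
    congr 1
    · refine Finset.sum_congr rfl fun i _ => ?_
      rw [map_smul, hh i]
    · refine Finset.sum_congr rfl fun j _ => ?_
      rw [map_smul]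

end Pool.Agent.Lib.MP_8e135c_al
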