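import Mathlib

/-!
# The transfinite radical of mod-A and dense chains of bounded width

`FGMod A` : finitely generated `A`-modules; `HomIdeal A` : two-sided ideals of the category;
`rad` : its radical; `radPow` : its transfinite powers.
-/

set_option autoImplicit false

universe u v w s

namespace Pool.Agent.Lib.MP_8e135c_al

/-- a finitely generated `A`-module -/
structure FGMod (A : Type u) [Ring A] where
  carrier : Type u
  [isAddCommGroup : AddCommGroup carrier]
  [isModule : Module A carrier]
  [isFinite : Module.Finite A carrier]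

attribute [instance] FGMod.isAddCommGroup FGMod.isModule FGMod.isFinite

instance (A : Type u) [Ring A] : CoeSort (FGMod A) (Type u) := ⟨FGMod.carrier⟩

variable {A : Type u} [Ring A]

/-- homomorphisms -/
abbrev Hom (M N : FGMod A) : Type u := M →ₗ[A] N

/-- the additive group of homomorphisms -/
instance Hom.group (M N : FGMod A) : AddCommGroup (Hom M N) := LinearMap.addCommGroup

/-- composition of homomorphisms -/
abbrev cmp {M N X : FGMod A} (g : Hom N X) (f : Hom M N) : Hom M X := g ∘ₗ f

/-- subgroups of groups of homomorphisms -/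
abbrev HomSub (M N : FGMod A) : Type u := AddSubgroup (Hom M N)

/-- a two-sided ideal of the category of finitely generated `A`-modules -/
structure HomIdeal (A : Type u) [Ring A] where
  carrier : ∀ M N : FGMod A, HomSub M N
  comp_left : ∀ {M N X : FGMod A} (g : Hom N X) (f : Hom M N),
    f ∈ carrier M N → cmp g f ∈ carrier M X
  comp_right : ∀ {M N X : FGMod A} (g : Hom N X) (f : Hom M N),
    g ∈ carrier N X → cmp g f ∈ carrier M X

namespace HomIdeal

/-- all morphisms -/
def top (A : Type u) [Ring A] : HomIdeal A where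
  carrier _ _ := ⊤
  comp_left _ _ _ := trivial
  comp_right _ _ _ := trivial

/-- the composites `g ∘ f` with `f ∈ J`, `g ∈ I` -/
abbrev mulSet (I J : HomIdeal A) (M N : FGMod A) : Set (Hom M N) :=
  {h | ∃ (X : FGMod A) (g : Hom X N) (f : Hom M X),
      g ∈ I.carrier X N ∧ f ∈ J.carrier M X ∧ h = cmp g f}

/-- their finite sums -/
abbrev mulSub (I J : HomIdeal A) (M N : FGMod A) : HomSub M N := AddSubgroup.closure (mulSet I J M N)

theorem mul_comp_left (I J : HomIdeal A) {M N X : FGMod A} (g : Hom N X) (f : Hom M N)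
    (hf : f ∈ mulSub I J M N) : cmp g f ∈ mulSub I J M X := by
  refine AddSubgroup.closure_induction (p := fun f _ => g ∘ₗ f ∈ mulSub I J M X) ?_ ?_ ?_ ?_ hf
  · rintro _ ⟨Y, a, b, ha, hb, rfl⟩
    exact AddSubgroup.subset_closure ⟨Y, g ∘ₗ a, b, I.comp_left g a ha, hb, rfl⟩
  · rw [LinearMap.comp_zero]
    exact AddSubgroup.zero_mem _
  · intro a b _ _ ha hb
    rw [LinearMap.comp_add]
    exact AddSubgroup.add_mem _ ha hb
  · intro a _ ha
    rw [LinearMap.comp_neg]
    exact AddSubgroup.neg_mem _ ha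

theorem mul_comp_right (I J : HomIdeal A) {M N X : FGMod A} (g : Hom N X) (f : Hom M N)
    (hg : g ∈ mulSub I J N X) : cmp g f ∈ mulSub I J M X := by
  refine AddSubgroup.closure_induction (p := fun g _ => g ∘ₗ f ∈ mulSub I J M X) ?_ ?_ ?_ ?_ hg
  · rintro _ ⟨Y, a, b, ha, hb, rfl⟩
    exact AddSubgroup.subset_closure ⟨Y, a, b ∘ₗ f, ha, J.comp_right b f hb, rfl⟩
  · rw [LinearMap.zero_comp]
    exact AddSubgroup.zero_mem _
  · intro a b _ _ ha hb
    rw [LinearMap.add_comp]
    exact AddSubgroup.add_mem _ ha hb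
  · intro a _ ha
    rw [LinearMap.neg_comp]
    exact AddSubgroup.neg_mem _ ha

/-- the product: finite sums of composites `g ∘ f` with `f ∈ J`, `g ∈ I` -/
def mul (I J : HomIdeal A) : HomIdeal A where
  carrier := mulSub I J
  comp_left := mul_comp_left I J
  comp_right := mul_comp_right I J

/-- the intersection of a family of subgroups -/
abbrev interSub {ι : Sort*} (I : ι → HomIdeal A) (M N : FGMod A) : HomSub M N := ⨅ i, (I i).carrier M N

theorem inter_comp_left {ι : Sort*} (I : ι → HomIdeal A) {M N X : FGMod A} (g : Hom N X) (f : Hom M N)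
    (hf : f ∈ interSub I M N) : cmp g f ∈ interSub I M X := by
  rw [AddSubgroup.mem_iInf] at hf ⊢
  exact fun i => (I i).comp_left g f (hf i)

theorem inter_comp_right {ι : Sort*} (I : ι → HomIdeal A) {M N X : FGMod A} (g : Hom N X)
    (f : Hom M N) (hg : g ∈ interSub I N X) : cmp g f ∈ interSub I M X := by
  rw [AddSubgroup.mem_iInf] at hg ⊢
  exact fun i => (I i).comp_right g f (hg i)

/-- the intersection of a family of ideals -/
def inter {ι : Sort*} (I : ι → HomIdeal A) : HomIdeal A where
  carrier := interSub I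
  comp_left := inter_comp_left I
  comp_right := inter_comp_right I

/-- `f : M → N` with `1 - g f` invertible for all `g : N → M` -/
abbrev RadMem {M N : FGMod A} (f : Hom M N) : Prop :=
  ∀ g : Hom N M, IsUnit ((1 : Module.End A M) - cmp g f)

theorem radMem_zero {M N : FGMod A} : RadMem (0 : Hom M N) := fun g => by
  change IsUnit ((1 : Module.End A M) - g ∘ₗ (0 : M →ₗ[A] N))
  rw [LinearMap.comp_zero]
  simp

theorem radMem_add {M N : FGMod A} {f₁ f₂ : Hom M N} (h₁ : RadMem f₁) (h₂ : RadMem f₂) :
    RadMem (f₁ + f₂) := fun g => by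
  obtain ⟨a, ha⟩ := h₁ g
  have h3 := h₂ ((↑a⁻¹ : Module.End A M) ∘ₗ g)
  have e : (1 : Module.End A M) - g ∘ₗ (f₁ + f₂) =
      (a : Module.End A M) * (1 - ((↑a⁻¹ : Module.End A M) ∘ₗ g) ∘ₗ f₂) := by
    rw [mul_sub, mul_one, ha, LinearMap.comp_add]
    have h4 : (a : Module.End A M) * (((↑a⁻¹ : Module.End A M) ∘ₗ g) ∘ₗ f₂) = g ∘ₗ f₂ := by
      change (a : Module.End A M) * ((↑a⁻¹ : Module.End A M) * (g ∘ₗ f₂ : Module.End A M)) = _
      rw [← mul_assoc, Units.mul_inv, one_mul]
    rw [← ha, h4, ha]
    abel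
  change IsUnit ((1 : Module.End A M) - g ∘ₗ (f₁ + f₂))
  rw [e]
  exact a.isUnit.mul h3

theorem radMem_neg {M N : FGMod A} {f : Hom M N} (h : RadMem f) : RadMem (-f) := fun g => by
  have h3 : IsUnit ((1 : Module.End A M) - (-g) ∘ₗ f) := h (-g)
  rwa [LinearMap.neg_comp, ← LinearMap.comp_neg] at h3

/-- the radical morphisms `M → N` -/
abbrev radSub (M N : FGMod A) : HomSub M N where
  carrier := {f | RadMem f}
  zero_mem' := radMem_zero
  add_mem' := radMem_add
  neg_mem' := radMem_neg

theorem rad_comp_left {M N X : FGMod A} (g : Hom N X) (f : Hom M N) (hf : f ∈ radSub M N) :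
    cmp g f ∈ radSub M X := fun h => by
  have h1 := hf (h ∘ₗ g)
  exact h1

theorem rad_comp_right {M N X : FGMod A} (g : Hom N X) (f : Hom M N) (hg : g ∈ radSub N X) :
    cmp g f ∈ radSub M X := fun h => by
  -- `1 - (h g) f` is a unit because `1 - f (h g)` is
  have h1 : IsUnit ((1 : Module.End A N) - (f ∘ₗ h) ∘ₗ g) := hg (f ∘ₗ h)
  obtain ⟨a, ha⟩ := h1
  have h2 : (↑a⁻¹ : Module.End A N) ∘ₗ ((1 : Module.End A N) - (f ∘ₗ h) ∘ₗ g) = 1 := by
    rw [← ha]
    exact a.inv_mul
  have h3 : ((1 : Module.End A N) - (f ∘ₗ h) ∘ₗ g) ∘ₗ (↑a⁻¹ : Module.End A N) = 1 := by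
    rw [← ha]
    exact a.mul_inv
  have h2' : ∀ y, (↑a⁻¹ : Module.End A N) y - (↑a⁻¹ : Module.End A N) (f (h (g y))) = y := fun y => by
    have := LinearMap.congr_fun h2 y
    simpa using this
  have h3' : ∀ y, (↑a⁻¹ : Module.End A N) y - f (h (g ((↑a⁻¹ : Module.End A N) y))) = y := fun y => by
    have := LinearMap.congr_fun h3 y
    simpa using this
  refine ⟨⟨1 - h ∘ₗ (g ∘ₗ f), 1 + (h ∘ₗ g) ∘ₗ ((↑a⁻¹ : Module.End A N) ∘ₗ f), ?_, ?_⟩, rfl⟩
  · ext x
    have e1 := h3' (f x)
    have e2 : h (g ((↑a⁻¹ : Module.End A N) (f x))) - h (g (f (h (g ((↑a⁻¹ : Module.End A N) (f x)))))) =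
        h (g (f x)) := by
      rw [← map_sub, ← map_sub, e1]
    simp only [Module.End.mul_apply, LinearMap.sub_apply, LinearMap.add_apply, Module.End.one_apply,
      LinearMap.comp_apply, map_add]
    rw [← e2]
    abel
  · ext x
    have e1 := h2' (f x)
    have e2 : h (g ((↑a⁻¹ : Module.End A N) (f x))) - h (g ((↑a⁻¹ : Module.End A N) (f (h (g (f x)))))) =
        h (g (f x)) := by
      rw [← map_sub, ← map_sub, e1]
    simp only [Module.End.mul_apply, LinearMap.sub_apply, LinearMap.add_apply, Module.End.one_apply,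
      LinearMap.comp_apply, map_sub]
    rw [sub_eq_iff_eq_add.1 e2, add_sub_cancel_right]

/-- the radical: `f : M → N` with `1 - g f` invertible for all `g : N → M` -/
def rad (A : Type u) [Ring A] : HomIdeal A where
  carrier := radSub
  comp_left := rad_comp_left
  comp_right := rad_comp_right

end HomIdeal

open HomIdeal

/-- transfinite recursion for the powers of the radical.  The second component is the power,
the first component is the base of the present block: `rad` for the finite ordinals and `rad^λ`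
for the ordinals `λ + n`. -/
noncomputable def radStep (A : Type u) [Ring A] (μ : Ordinal.{w}) : HomIdeal A × HomIdeal A :=
  Ordinal.limitRecOn μ (rad A, top A) (fun _ p => (p.1, mul p.2 p.1))
    (fun l _ ih => (inter fun ν : Set.Iio l => (ih ν.1 ν.2).2, inter fun ν : Set.Iio l => (ih ν.1 ν.2).2))

/-- the transfinite power `rad^μ` (`rad^0` = all morphisms) -/
noncomputable def radPow (A : Type u) [Ring A] (μ : Ordinal.{w}) : HomIdeal A := (radStep A μ).2

theorem radStep_zero : radStep.{u, w} A 0 = (rad A, top A) := by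
  unfold radStep
  rw [Ordinal.limitRecOn_zero]

theorem radStep_add_one (μ : Ordinal.{w}) :
    radStep A (μ + 1) = ((radStep A μ).1, mul (radStep A μ).2 (radStep A μ).1) := by
  unfold radStep
  rw [Ordinal.limitRecOn_add_one]

theorem radStep_limit (l : Ordinal.{w}) (hl : Order.IsSuccLimit l) :
    radStep A l = (inter fun ν : Set.Iio l => radPow A ν.1, inter fun ν : Set.Iio l => radPow A ν.1) := by
  unfold radStep
  rw [Ordinal.limitRecOn_limit _ _ _ _ hl]
  rfl

end Pool.Agent.Lib.MP_8e135c_al
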