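import Pool.Agent.Lib.MP_8e135c_al.Uni

/-!
# Length modulo `MDimLT β` in modular lattices
-/

set_option autoImplicit false

universe u v w x

namespace Pool.Agent.Lib.MP_8e135c_al

section

variable {P : Type v} [PartialOrder P]

theorem MDimLT.refl (β : Ordinal.{w}) (a : P) : MDimLT β a a := (MDimLT_iff _ _ _).2 (Or.inl rfl)

theorem MDimLT.trans {β : Ordinal.{w}} {a b c : P} (h1 : MDimLT β a b) (h2 : MDimLT β b c) :
    MDimLT β a c := by
  rw [MDimLT_iff] at h1 h2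
  rcases h1 with rfl | ⟨γ, hγ, h1⟩
  · rwa [MDimLT_iff]
  · rcases h2 with rfl | ⟨δ, hδ, h2⟩
    · rw [MDimLT_iff]
      exact Or.inr ⟨γ, hγ, h1⟩
    · rw [MDimLT_iff]
      refine Or.inr ⟨max γ δ, max_lt hγ hδ, ?_⟩
      have key : ∀ {γ ε : Ordinal.{w}} {a b : P}, γ ≤ ε → Relation.ReflTransGen
          (fun c d => c ≤ d ∧ ∀ e, c ≤ e → e ≤ d → MDimLT γ c e ∨ MDimLT γ e d) a b →
          Relation.ReflTransGen
          (fun c d => c ≤ d ∧ ∀ e, c ≤ e → e ≤ d → MDimLT ε c e ∨ MDimLT ε e d) a b := by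
        intro γ ε a b hγε h
        refine Relation.ReflTransGen.mono ?_ _ _ h
        rintro c d ⟨hcd, h3⟩
        refine ⟨hcd, fun e h4 h5 => ?_⟩
        rcases h3 e h4 h5 with h6 | h6
        · exact Or.inl (h6.mono hγε)
        · exact Or.inr (h6.mono hγε)
      exact (key (le_max_left _ _) h1).trans (key (le_max_right _ _) h2)

/-- `a = c_0 ≤ c_1 ≤ ... ≤ c_m ≤ b` where no step is in `MDimLT β` (the last one, `[c_m, b]`, may be) -/
def Steps (β : Ordinal.{w}) : ℕ → P → P → Prop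
  | 0, a, b => a ≤ b
  | m + 1, a, b => ∃ c, Steps β m a c ∧ c ≤ b ∧ ¬ MDimLT β c b

theorem Steps.le {β : Ordinal.{w}} {m : ℕ} {a b : P} (h : Steps β m a b) : a ≤ b := by
  induction m generalizing b with
  | zero => exact h
  | succ m ih =>
    obtain ⟨d, h3, h4, _⟩ := h
    exact (ih h3).trans h4

theorem LongChain.steps {β : Ordinal.{w}} {m : ℕ} {a b : P} (h : LongChain β m a b) :
    Steps β (m + 1) a b := by
  induction m generalizing b with
  | zero => exact ⟨a, le_rfl, h.1, h.2⟩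
  | succ m ih =>
    obtain ⟨d, h3, h4⟩ := h
    exact ⟨d, ih h3, h4⟩

theorem mDimLT_succ_of_not_steps {β : Ordinal.{w}} {m : ℕ} {a b : P} (hab : a ≤ b)
    (h : ¬ Steps β (m + 1) a b) : MDimLT (β + 1) a b := by
  by_contra hc
  exact h (exists_longChain m hab hc).steps

end

section modular

variable {P : Type v} [Lattice P] [IsModularLattice P]

theorem MDimLT.sub {β : Ordinal.{w}} {a b a' b' : P} (h : MDimLT β a b) (h1 : a ≤ a') (h2 : a' ≤ b')
    (h3 : b' ≤ b) : MDimLT β a' b' := by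
  have h4 := (MDimLT.inf_sup β h a').2
  rw [sup_eq_right.2 h1, sup_eq_left.2 (h2.trans h3)] at h4
  have h5 := (MDimLT.inf_sup β h4 b').1
  rwa [inf_eq_left.2 h2, inf_eq_right.2 h3] at h5

theorem Steps.mono_right {β : Ordinal.{w}} {m : ℕ} {a b b' : P} (h : Steps β m a b) (hb : b ≤ b') :
    Steps β m a b' := by
  cases m with
  | zero => exact le_trans (Steps.le h) hb
  | succ m =>
    obtain ⟨d, h1, h2, h3⟩ := h
    exact ⟨d, h1, h2.trans hb, fun h4 => h3 (h4.sub le_rfl h2 hb)⟩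

theorem Steps.pred {β : Ordinal.{w}} {m : ℕ} {a b : P} (h : Steps β (m + 1) a b) :
    Steps β m a b := by
  obtain ⟨d, h1, h2, _⟩ := h
  exact h1.mono_right h2

theorem Steps.of_le {β : Ordinal.{w}} {m m' : ℕ} {a b : P} (h : Steps β m a b) (hm : m' ≤ m) :
    Steps β m' a b := by
  induction m, hm using Nat.le_induction with
  | base => exact h
  | succ m _ ih => exact ih h.pred

/-- the first step -/
theorem Steps.uncons {β : Ordinal.{w}} {m : ℕ} {a b : P} (h : Steps β (m + 1) a b) :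
    ∃ c, a ≤ c ∧ ¬ MDimLT β a c ∧ Steps β m c b := by
  induction m generalizing b with
  | zero =>
    obtain ⟨c, h1, h2, h3⟩ := h
    have h1' : a ≤ c := h1
    exact ⟨b, h1'.trans h2, fun h4 => h3 (h4.sub h1' h2 le_rfl), le_refl b⟩
  | succ m ih =>
    obtain ⟨d, h3, h4, h5⟩ := h
    obtain ⟨c, h6, h7, h8⟩ := ih h3
    exact ⟨c, h6, h7, d, h8, h4, h5⟩

theorem Steps.sup {β : Ordinal.{w}} {b Y : P} {q : ℕ} {x y : P} (hy : y ≤ Y) (hx : b ⊓ Y ≤ x)
    (h : Steps β q x y) : Steps β q (x ⊔ b) (y ⊔ b) := by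
  induction q generalizing y with
  | zero => exact sup_le_sup_right h b
  | succ q ih =>
    obtain ⟨d, h1, h2, h3⟩ := h
    refine ⟨d ⊔ b, ih (h2.trans hy) h1, sup_le_sup_right h2 b, fun h4 => h3 ?_⟩
    have h5 := (MDimLT.inf_sup β h4 Y).1
    have e1 : ∀ z, x ≤ z → z ≤ Y → (z ⊔ b) ⊓ Y = z := by
      intro z hxz hzY
      rw [sup_inf_assoc_of_le b hzY]
      exact sup_eq_left.2 (hx.trans hxz)
    rwa [e1 d h1.le (h2.trans hy), e1 y (h1.le.trans h2) hy] at h5

theorem Steps.split {β : Ordinal.{w}} {m : ℕ} {a b c : P} (h : Steps β m a c) (hab : a ≤ b)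
    (hbc : b ≤ c) : ∃ p q, p + q = m ∧ Steps β p a b ∧ Steps β q b c := by
  induction m generalizing b c with
  | zero => exact ⟨0, 0, rfl, hab, hbc⟩
  | succ m ih =>
    obtain ⟨d, h1, h2, h3⟩ := h
    obtain ⟨p, q, hpq, h4, h5⟩ := ih (b := b ⊓ d) h1 (le_inf hab h1.le) inf_le_right
    have h6 : Steps β q b (d ⊔ b) := by
      have h7 := h5.sup (b := b) (Y := d) le_rfl le_rfl
      rwa [sup_eq_right.2 (inf_le_left : b ⊓ d ≤ b)] at h7
    by_cases h7 : MDimLT β (d ⊔ b) c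
    · refine ⟨p + 1, q, by omega, ⟨b ⊓ d, h4, inf_le_left, fun h8 => h3 ?_⟩,
        h6.mono_right (sup_le h2 hbc)⟩
      have h9 := (MDimLT.inf_sup β h8 d).2
      rw [sup_eq_right.2 (inf_le_right : b ⊓ d ≤ d), sup_comm] at h9
      exact h9.trans h7
    · exact ⟨p, q + 1, by omega, h4.mono_right inf_le_left, d ⊔ b, h6, sup_le h2 hbc, h7⟩

theorem not_steps_add {β : Ordinal.{w}} {p q : ℕ} {a b c : P} (hab : a ≤ b) (hbc : b ≤ c)
    (h1 : ¬ Steps β (p + 1) a b) (h2 : ¬ Steps β (q + 1) b c) : ¬ Steps β (p + q + 1) a c := by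
  intro h
  obtain ⟨p', q', hpq, h3, h4⟩ := h.split hab hbc
  by_cases h5 : p + 1 ≤ p'
  · exact h1 (h3.of_le h5)
  · exact h2 (h4.of_le (by omega))

end modular

end Pool.Agent.Lib.MP_8e135c_al
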