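import Pool.Agent.Lib.MP_8e135c_al.Width

/-!
# Towers of intervals of growing width and infinite irredundant families
-/

set_option autoImplicit false

universe u v w s

namespace Pool.Agent.Lib.MP_8e135c_al

open HomIdeal

variable {A : Type u} [Ring A]

section

variable {Q : AddFunctor.{u, v} A}

/-- `B (X) + ∑ i, J (N i, X) • y i` as a subgroup -/
def spanJ (B : SubFunctor Q) (J : HomIdeal A) (D : GenData Q) (X : FGMod A) : AddSubgroup (Q.obj X) where
  carrier := {x | InSpan B J D X x}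
  zero_mem' := inSpan_base (AddSubgroup.zero_mem _)
  add_mem' := by
    rintro _ _ ⟨b, hb, h, hh, rfl⟩ ⟨b', hb', h', hh', rfl⟩
    refine ⟨b + b', AddSubgroup.add_mem _ hb hb', fun i => h i + h' i,
      fun i => AddSubgroup.add_mem _ (hh i) (hh' i), ?_⟩
    rw [Finset.sum_congr rfl fun i _ => Q.map_add_apply (h i) (h' i) (D.y i), Finset.sum_add_distrib]
    abel
  neg_mem' := by
    rintro _ ⟨b, hb, h, hh, rfl⟩
    refine ⟨-b, AddSubgroup.neg_mem _ hb, fun i => -h i, fun i => AddSubgroup.neg_mem _ (hh i), ?_⟩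
    rw [Finset.sum_congr rfl fun i _ => Q.map_neg_apply (h i) (D.y i), Finset.sum_neg_distrib]
    abel

theorem mem_spanJ {B : SubFunctor Q} {J : HomIdeal A} {D : GenData Q} {X : FGMod A} {x : Q.obj X} :
    x ∈ spanJ B J D X ↔ InSpan B J D X x := Iff.rfl

theorem InSpan.base_mono {B B' : SubFunctor Q} (h : B ≤ B') {J : HomIdeal A} {D : GenData Q}
    {X : FGMod A} {x : Q.obj X} (hx : InSpan B J D X x) : InSpan B' J D X x := by
  obtain ⟨b, hb, f, hf, e⟩ := hx
  exact ⟨b, h X hb, f, hf, e⟩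

/-- a radical map sends `B + [D]` to `B + rad D` -/
theorem InSpan.map_rad {B : SubFunctor Q} {D : GenData Q} {N X : FGMod A} {x : Q.obj N}
    (hx : InSpan B (top A) D N x) {J : HomIdeal A} {f : N →ₗ[A] X} (hf : f ∈ J.carrier N X) :
    InSpan B J D X (Q.map f x) := by
  obtain ⟨b, hb, h, _, rfl⟩ := hx
  refine ⟨Q.map f b, B.map_mem f b hb, fun i => f ∘ₗ h i, fun i => J.comp_right f (h i) hf, ?_⟩
  rw [map_add, map_sum]
  congr 1
  exact Finset.sum_congr rfl fun i _ => (Q.map_comp_apply _ _ _).symm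

/-- a stage of the construction -/
structure Stage {S : Type s} [LinearOrder S] (B : SubFunctor Q) (G : S → SubFunctor Q) where
  a : S
  b : S
  hab : a < b
  ψ : SubFunctor Q
  hB : B ≤ ψ
  hψ : ψ ≤ G a

theorem le_adj (B : SubFunctor Q) (N : FGMod A) (y : Q.obj N) : B ≤ B.adj N y := fun X x hx =>
  ⟨x, hx, 0, by rw [Q.map_zero_apply, add_zero]⟩

theorem mem_adj (B : SubFunctor Q) (N : FGMod A) (y : Q.obj N) : y ∈ (B.adj N y).carrier N :=
  ⟨0, AddSubgroup.zero_mem _, LinearMap.id, by rw [Q.map_id_apply, zero_add]⟩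

theorem adj_le {B G : SubFunctor Q} {N : FGMod A} {y : Q.obj N} (h : B ≤ G) (hy : y ∈ G.carrier N) :
    B.adj N y ≤ G := by
  rintro X _ ⟨b, hb, g, rfl⟩
  exact AddSubgroup.add_mem _ (h X hb) (G.map_mem g y hy)

/-- If `y ∈ c` is not in a subgroup `T` which contains `ψ` and all radical images of elements of `c`,
then `y` can replace one of the generators of `c` over `ψ` -/
theorem width_step [IsArtinianRing A] {ψ c : SubFunctor Q} {k : ℕ} (hw : HasWidth ψ k c) {N : FGMod A}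
    (hN : Indec N) {y : Q.obj N} (hy : y ∈ c.carrier N) {T : AddSubgroup (Q.obj N)}
    (hψT : ψ.carrier N ≤ T)
    (hT : ∀ (M : FGMod A) (z : Q.obj M) (h : M →ₗ[A] N), z ∈ c.carrier M → h ∈ (rad A).carrier M N →
      Q.map h z ∈ T) (hyT : y ∉ T) :
    ∃ k', k = k' + 1 ∧ HasWidth (ψ.adj N y) k' c := by
  classical
  obtain ⟨D, hcard, hind, hGD⟩ := hw
  have hmem : ∀ l, D.y l ∈ c.carrier (D.N l) := fun l => (hGD _ _).2 (inSpan_self ψ D l)
  obtain ⟨b0, hb0, h, _, e0⟩ := (hGD _ _).1 hy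
  obtain ⟨l, hl⟩ : ∃ l, h l ∉ (rad A).carrier (D.N l) N := by
    by_contra hno
    push Not at hno
    apply hyT
    rw [e0]
    exact AddSubgroup.add_mem _ (hψT hb0) (AddSubgroup.sum_mem _ fun l _ => hT _ _ _ (hmem l) (hno l))
  have hbij : Function.Bijective (h l) := bijective_of_not_mem_rad (hind l) hN hl
  obtain ⟨g, hg⟩ : ∃ g : N →ₗ[A] D.N l, g ∘ₗ h l = LinearMap.id :=
    ⟨(LinearEquiv.ofBijective (h l) hbij).symm.toLinearMap, by
      ext x
      exact (LinearEquiv.ofBijective (h l) hbij).symm_apply_apply x⟩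
  have hpos : 0 < Fintype.card D.ι := Fintype.card_pos_iff.2 ⟨l⟩
  obtain ⟨k', rfl⟩ : ∃ k', k = k' + 1 := ⟨k - 1, by omega⟩
  refine ⟨k', rfl, ?_⟩
  have e3 : Q.map g y = Q.map g b0 + (D.y l + ∑ l' ∈ Finset.univ.erase l, Q.map (g ∘ₗ h l') (D.y l')) := by
    rw [e0, map_add, map_sum]
    congr 1
    rw [← Finset.add_sum_erase _ _ (Finset.mem_univ l)]
    congr 1
    · rw [← Q.map_comp_apply, hg, Q.map_id_apply]
    · exact Finset.sum_congr rfl fun j _ => (Q.map_comp_apply _ _ _).symm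
  refine ⟨⟨{l' : D.ι // l' ≠ l}, fun l' => D.N l'.1, fun l' => D.y l'.1⟩, ?_,
    fun l' => hind l'.1, fun X x => ⟨fun hx => ?_, fun hx => ?_⟩⟩
  · have h4 : Fintype.card {l' : D.ι // l' ≠ l} < Fintype.card D.ι :=
      Fintype.card_subtype_lt (x := l) (by simp)
    change Fintype.card {l' : D.ι // l' ≠ l} ≤ k'
    omega
  · obtain ⟨b2, hb2, p, _, e4⟩ := (hGD _ _).1 hx
    refine ⟨b2 - Q.map (p l ∘ₗ g) b0 + Q.map (p l ∘ₗ g) y,
      ⟨b2 - Q.map (p l ∘ₗ g) b0, ?_, p l ∘ₗ g, rfl⟩,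
      fun l' => p l'.1 - p l ∘ₗ (g ∘ₗ h l'.1), fun _ => trivial, ?_⟩
    · exact AddSubgroup.sub_mem _ hb2 (ψ.map_mem _ _ hb0)
    · have e5 : Q.map (p l ∘ₗ g) y = Q.map (p l ∘ₗ g) b0 + (Q.map (p l) (D.y l) +
          ∑ l' ∈ Finset.univ.erase l, Q.map (p l ∘ₗ (g ∘ₗ h l')) (D.y l')) := by
        rw [Q.map_comp_apply, e3, map_add, map_add, map_sum, Q.map_comp_apply]
        congr 2
        exact Finset.sum_congr rfl fun j _ => (Q.map_comp_apply _ _ _).symm
      have e6 : ∑ l' : {l' : D.ι // l' ≠ l}, Q.map (p l'.1 - p l ∘ₗ (g ∘ₗ h l'.1)) (D.y l'.1) =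
          ∑ l' ∈ Finset.univ.erase l, Q.map (p l' - p l ∘ₗ (g ∘ₗ h l')) (D.y l') := by
        symm
        refine Finset.sum_subtype _ (fun l' => ?_)
          (fun l' => Q.map (p l' - p l ∘ₗ (g ∘ₗ h l')) (D.y l'))
        simp
      have e7 : ∑ l' ∈ Finset.univ.erase l, Q.map (p l' - p l ∘ₗ (g ∘ₗ h l')) (D.y l') =
          ∑ l' ∈ Finset.univ.erase l, Q.map (p l') (D.y l') -
          ∑ l' ∈ Finset.univ.erase l, Q.map (p l ∘ₗ (g ∘ₗ h l')) (D.y l') := by
        rw [← Finset.sum_sub_distrib]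
        exact Finset.sum_congr rfl fun l' _ => Q.map_sub_apply _ _ _
      have e8 : ∑ l', Q.map (p l') (D.y l') = Q.map (p l) (D.y l) +
          ∑ l' ∈ Finset.univ.erase l, Q.map (p l') (D.y l') :=
        (Finset.add_sum_erase _ _ (Finset.mem_univ l)).symm
      change x = b2 - Q.map (p l ∘ₗ g) b0 + Q.map (p l ∘ₗ g) y +
        ∑ l' : {l' : D.ι // l' ≠ l}, Q.map (p l'.1 - p l ∘ₗ (g ∘ₗ h l'.1)) (D.y l'.1)
      rw [e6, e7, e5, e4, e8]
      abel
  · obtain ⟨b2, ⟨b3, hb3, q, rfl⟩, p, _, rfl⟩ := hx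
    refine AddSubgroup.add_mem _ (AddSubgroup.add_mem _ ((hGD _ _).2 (inSpan_base hb3))
      (c.map_mem _ _ hy)) (AddSubgroup.sum_mem _ fun l' _ => ?_)
    exact c.map_mem _ _ (hmem l'.1)

/-- **Towers.** -/
theorem exists_tower [IsArtinianRing A] (hD : HomDCC A) (hz : TransRadZero.{u, w} A)
    (B : SubFunctor Q) {S : Type s} [LinearOrder S] [DenselyOrdered S] (G : S → SubFunctor Q)
    (hG : StrictMono G) (hW : ∀ a, ∃ k, HasWidth B k (G a)) (a0 b0 : S) (hab0 : a0 < b0) :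
    ∃ (a b : ℕ → S) (N : ℕ → FGMod A) (y : ∀ n, Q.obj (N n)), (∀ n, a n < b n) ∧ a 0 = a0 ∧ b 0 = b0 ∧
      Monotone a ∧ Antitone b ∧ (∀ n, Indec (N n)) ∧
      (∀ n, y n ∈ (G (a (n + 1))).carrier (N n)) ∧
      (∀ (n : ℕ) (c : SubFunctor Q), G (a n) ≤ c → c ≤ G (b n) → ∀ k, HasWidth B k c → n ≤ k) ∧
      ∀ (n : ℕ) (J : Finset ℕ), n ∉ J → ¬ ∃ b ∈ B.carrier (N n), ∃ f : ∀ j, N j →ₗ[A] N n,
        y n = b + ∑ j ∈ J, Q.map (f j) (y j) := by
  classical
  choose k D hcard hind hGD using hW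
  have hmem : ∀ a i, (D a).y i ∈ (G a).carrier ((D a).N i) := fun a i =>
    (hGD _ _ _).2 (inSpan_self B (D a) i)
  have hBG : ∀ a, B ≤ G a := fun a X x hx => (hGD _ _ _).2 (inSpan_base hx)
  -- the step
  have step : ∀ t : Stage B G, ∃ (t' : Stage B G) (N : FGMod A) (y : Q.obj N), Indec N ∧
      t'.b ≤ t.b ∧ t.a ≤ t'.a ∧ y ∈ (G t'.a).carrier N ∧ ¬ InSpan t.ψ (rad A) (D t'.b) N y ∧
      t'.ψ = t.ψ.adj N y := by
    intro t
    have hno : ¬ ∀ a b : Set.Ioo t.a t.b, a < b → ∀ i,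
        InSpan t.ψ (rad A) (D b.1) ((D a.1).N i) ((D a.1).y i) := by
      intro h1
      have : Nontrivial (Set.Ioo t.a t.b) := by
        obtain ⟨c, hac, hcb⟩ := exists_between t.hab
        obtain ⟨d, had, hdc⟩ := exists_between hac
        exact ⟨⟨c, hac, hcb⟩, ⟨d, had, hdc.trans hcb⟩, fun h => hdc.ne (congrArg Subtype.val h).symm⟩
      refine no_linked hD hz (B := t.ψ) (S := Set.Ioo t.a t.b) (fun c => G c.1) (fun c d h => hG h)
        (fun c => D c.1) (fun c X x => ⟨fun hx => ?_, fun hx => ?_⟩) h1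
      · exact ((hGD _ _ _).1 hx).base_mono t.hB
      · obtain ⟨b, hb, f, _, rfl⟩ := hx
        refine AddSubgroup.add_mem _ ((t.hψ.trans (hG c.2.1).le) X hb) (AddSubgroup.sum_mem _ fun i _ => ?_)
        exact (G c.1).map_mem _ _ (hmem c.1 i)
    push Not at hno
    obtain ⟨a, b, hab, i, hi⟩ := hno
    exact ⟨⟨a.1, b.1, hab, t.ψ.adj _ ((D a.1).y i), t.hB.trans (le_adj _ _ _),
      adj_le (t.hψ.trans (hG a.2.1).le) (hmem a.1 i)⟩, _, (D a.1).y i, hind a.1 i, b.2.2.le, a.2.1.le, hmem a.1 i,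
      hi, rfl⟩
  choose nx N' y' hN' hb' ha' hy' hr' hψ' using step
  obtain ⟨st, hst0, hst⟩ : ∃ st : ℕ → Stage B G, st 0 = ⟨a0, b0, hab0, B, le_rfl, hBG a0⟩ ∧
      ∀ n, st (n + 1) = nx (st n) :=
    ⟨fun n => Nat.rec ⟨a0, b0, hab0, B, le_rfl, hBG a0⟩ (fun _ t => nx t) n, rfl, fun _ => rfl⟩
  -- monotonicity
  have hbanti : Antitone fun n => (st n).b := antitone_nat_of_succ_le fun n => by
    rw [hst]
    exact hb' _
  have hamono : Monotone fun n => (st n).a := monotone_nat_of_le_succ fun n => by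
    rw [hst]
    exact ha' _
  have hψmono : Monotone fun n => (st n).ψ := monotone_nat_of_le_succ fun n => by
    rw [hst, hψ']
    exact le_adj _ _ _
  have hyψ : ∀ j n, j < n → y' (st j) ∈ ((st n).ψ).carrier (N' (st j)) := by
    intro j n hjn
    have h1 : (st (j + 1)).ψ ≤ (st n).ψ := hψmono hjn
    apply h1
    rw [hst, hψ']
    exact mem_adj _ _ _
  have hyG : ∀ j n, n ≤ j → y' (st j) ∈ (G (st (n + 1)).b).carrier (N' (st j)) := by
    intro j n hnj
    have h1 : y' (st j) ∈ (G (st (j + 1)).a).carrier (N' (st j)) := by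
      rw [hst]
      exact hy' _
    have h2 : (st (j + 1)).a ≤ (st (n + 1)).b :=
      (st (j + 1)).hab.le.trans (hbanti (Nat.succ_le_succ hnj))
    exact (hG.monotone h2) _ h1
  have hbad : ∀ n, ¬ InSpan (st n).ψ (rad A) (D (st (n + 1)).b) (N' (st n)) (y' (st n)) := by
    intro n
    have h1 := hr' (st n)
    rw [← hst] at h1
    exact h1
  refine ⟨fun n => (st n).a, fun n => (st n).b, fun n => N' (st n), fun n => y' (st n),
    fun n => (st n).hab, congrArg Stage.a hst0, congrArg Stage.b hst0, hamono, hbanti, fun n => hN' _, fun n => ?_, ?_, ?_⟩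
  · change _ ∈ (G (st (n + 1)).a).carrier _
    rw [hst]
    exact hy' _
  · intro n c hac hcb k hk
    have key : ∀ j, j ≤ n → ∃ i, k = i + j ∧ HasWidth (st j).ψ i c := by
      intro j
      induction j with
      | zero =>
        intro _
        refine ⟨k, rfl, ?_⟩
        rw [hst0]
        exact hk
      | succ j ih =>
        intro hj
        obtain ⟨i, hi, hw⟩ := ih (Nat.le_of_succ_le hj)
        have h1 : G (st (j + 1)).a ≤ c := (hG.monotone (hamono hj)).trans hac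
        have h2 : c ≤ G (st (j + 1)).b := hcb.trans (hG.monotone (hbanti hj))
        have h3 : y' (st j) ∈ c.carrier (N' (st j)) := by
          apply h1
          rw [hst]
          exact hy' _
        obtain ⟨i', hi', hw'⟩ := width_step hw (hN' (st j)) h3
          (T := spanJ (st j).ψ (rad A) (D (st (j + 1)).b) (N' (st j)))
          (fun x hx => inSpan_base hx)
          (fun M z f hz hf => (((hGD _ _ _).1 (h2 M hz)).base_mono (st j).hB).map_rad hf) (hbad j)
        refine ⟨i', by omega, ?_⟩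
        rw [hst, hψ']
        exact hw'
    obtain ⟨i, hi, _⟩ := key n le_rfl
    change n ≤ k
    omega
  · intro n J hnJ hex
    obtain ⟨u, hu, f, e⟩ : ∃ b ∈ B.carrier (N' (st n)), ∃ f : ∀ j, N' (st j) →ₗ[A] N' (st n),
        y' (st n) = b + ∑ j ∈ J, Q.map (f j) (y' (st j)) := hex
    by_cases hall : ∀ j ∈ J, n < j → f j ∈ (rad A).carrier (N' (st j)) (N' (st n))
    · apply hbad n
      rw [← mem_spanJ, e]
      refine AddSubgroup.add_mem _ (inSpan_base ((st n).hB _ hu)) (AddSubgroup.sum_mem _ fun j hj => ?_)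
      rcases lt_trichotomy j n with h1 | h1 | h1
      · exact inSpan_base ((st n).ψ.map_mem _ _ (hyψ j n h1))
      · exact absurd (h1 ▸ hj) hnJ
      · exact (((hGD _ _ _).1 (hyG j n h1.le)).base_mono (st n).hB).map_rad (hall j hj h1)
    · push Not at hall
      have hne : (J.filter fun j => n < j ∧ f j ∉ (rad A).carrier (N' (st j)) (N' (st n))).Nonempty := by
        obtain ⟨j, hj, h1, h2⟩ := hall
        exact ⟨j, Finset.mem_filter.2 ⟨hj, h1, h2⟩⟩
      obtain ⟨m, hm, hmax⟩ := Finset.exists_max_image _ (fun j => j) hne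
      obtain ⟨hmJ, hnm, hfm⟩ := Finset.mem_filter.1 hm
      have hbij : Function.Bijective (f m) := bijective_of_not_mem_rad (hN' _) (hN' _) hfm
      obtain ⟨g, hg⟩ : ∃ g : N' (st n) →ₗ[A] N' (st m), g ∘ₗ f m = LinearMap.id :=
        ⟨(LinearEquiv.ofBijective (f m) hbij).symm.toLinearMap, by
          ext x
          exact (LinearEquiv.ofBijective (f m) hbij).symm_apply_apply x⟩
      have e1 : y' (st m) = Q.map g (y' (st n)) - Q.map g u -
          ∑ j ∈ J.erase m, Q.map (g ∘ₗ f j) (y' (st j)) := by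
        have e2 : Q.map g (y' (st n)) = Q.map g u + (y' (st m) +
            ∑ j ∈ J.erase m, Q.map (g ∘ₗ f j) (y' (st j))) := by
          conv_lhs => rw [e]
          rw [map_add, map_sum, ← Finset.add_sum_erase _ _ hmJ]
          congr 2
          · rw [← Q.map_comp_apply, hg, Q.map_id_apply]
          · exact Finset.sum_congr rfl fun j _ => (Q.map_comp_apply _ _ _).symm
        rw [e2]
        abel
      apply hbad m
      rw [← mem_spanJ, e1]
      refine AddSubgroup.sub_mem _ (AddSubgroup.sub_mem _ ?_ ?_) (AddSubgroup.sum_mem _ fun j hj => ?_)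
      · exact inSpan_base ((st m).ψ.map_mem _ _ (hyψ n m hnm))
      · exact inSpan_base ((st m).ψ.map_mem _ _ ((st m).hB _ hu))
      · obtain ⟨hjm, hjJ⟩ := Finset.mem_erase.1 hj
        rcases lt_or_gt_of_ne hjm with h1 | h1
        · exact inSpan_base ((st m).ψ.map_mem _ _ (hyψ j m h1))
        · have h2 : f j ∈ (rad A).carrier (N' (st j)) (N' (st n)) := by
            by_contra h3
            have h4 := hmax j (Finset.mem_filter.2 ⟨hjJ, hnm.trans h1, h3⟩)
            exact absurd h1 (not_lt_of_ge h4)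
          exact (((hGD _ _ _).1 (hyG j m h1.le)).base_mono (st m).hB).map_rad ((rad A).comp_left g _ h2)

end

end Pool.Agent.Lib.MP_8e135c_al
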