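import Pool.Agent.Lib.MP_8e135c_al.Sharp1
import Pool.Agent.Lib.MP_8e135c_al.Tower

/-!
# Subfunctors `J F`, irredundant families and widths
-/

set_option autoImplicit false

universe u v w x

namespace Pool.Agent.Lib.MP_8e135c_al

open HomIdeal

variable {A : Type u} [Ring A]

section general

variable {Q : AddFunctor.{u, v} A}

/-- the images of elements of `F` under maps of `J` -/
abbrev mulFSet (J : HomIdeal A) (F : SubFunctor Q) (X : FGMod A) : Set (Q.obj X) :=
  {x | ∃ (M : FGMod A) (h : M →ₗ[A] X) (z : Q.obj M), h ∈ J.carrier M X ∧ z ∈ F.carrier M ∧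
    x = Q.map h z}

/-- `J F`: the subfunctor generated by the images of elements of `F` under maps of `J` -/
def mulF (J : HomIdeal A) (F : SubFunctor Q) : SubFunctor Q where
  carrier X := AddSubgroup.closure (mulFSet J F X)
  map_mem {M N} f x hx := by
    refine AddSubgroup.closure_induction
      (p := fun x _ => Q.map f x ∈ AddSubgroup.closure (mulFSet J F N)) ?_ ?_ ?_ ?_ hx
    · rintro _ ⟨Y, h, z, hh, hz, rfl⟩
      exact AddSubgroup.subset_closure ⟨Y, f ∘ₗ h, z, J.comp_left f h hh, hz,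
        (Q.map_comp_apply _ _ _).symm⟩
    · rw [map_zero]
      exact AddSubgroup.zero_mem _
    · intro a b _ _ ha hb
      rw [map_add]
      exact AddSubgroup.add_mem _ ha hb
    · intro a _ ha
      rw [map_neg]
      exact AddSubgroup.neg_mem _ ha

theorem mem_mulF {J : HomIdeal A} {F : SubFunctor Q} {M X : FGMod A} {h : M →ₗ[A] X} {z : Q.obj M}
    (hh : h ∈ J.carrier M X) (hz : z ∈ F.carrier M) : Q.map h z ∈ (mulF J F).carrier X :=
  AddSubgroup.subset_closure ⟨M, h, z, hh, hz, rfl⟩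

theorem mulF_le_of {J : HomIdeal A} {F G : SubFunctor Q}
    (h : ∀ (M X : FGMod A) (h : M →ₗ[A] X) (z : Q.obj M), h ∈ J.carrier M X → z ∈ F.carrier M →
      Q.map h z ∈ G.carrier X) : mulF J F ≤ G := by
  intro X
  change AddSubgroup.closure _ ≤ _
  rw [AddSubgroup.closure_le]
  rintro _ ⟨M, f, z, hf, hz, rfl⟩
  exact h M X f z hf hz

theorem mulF_le (J : HomIdeal A) (F : SubFunctor Q) : mulF J F ≤ F :=
  mulF_le_of fun _ _ h z _ hz => F.map_mem h z hz

theorem mulF_mono {J J' : HomIdeal A} {F F' : SubFunctor Q}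
    (hJ : ∀ M N, J.carrier M N ≤ J'.carrier M N) (hF : F ≤ F') : mulF J F ≤ mulF J' F' :=
  mulF_le_of fun _ _ _ _ hh hz => mem_mulF (hJ _ _ hh) (hF _ hz)

theorem mem_supF {F G : SubFunctor Q} {X : FGMod A} {x : Q.obj X} :
    x ∈ (F ⊔ G).carrier X ↔ ∃ y ∈ F.carrier X, ∃ z ∈ G.carrier X, y + z = x := by
  change x ∈ F.carrier X ⊔ G.carrier X ↔ _
  rw [AddSubgroup.mem_sup]

theorem mulF_supF_le {I J : HomIdeal A} {T χ : SubFunctor Q} :
    mulF I (T ⊔ mulF J χ) ≤ T ⊔ mulF (mul I J) χ := by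
  refine mulF_le_of fun M X h z hh hz => ?_
  obtain ⟨t, ht, u, hu, rfl⟩ := mem_supF.1 hz
  rw [map_add]
  refine mem_supF.2 ⟨_, T.map_mem h t ht, _, ?_, rfl⟩
  refine AddSubgroup.closure_induction
      (p := fun u _ => Q.map h u ∈ (mulF (mul I J) χ).carrier X) ?_ ?_ ?_ ?_ hu
  · rintro _ ⟨Y, f, z, hf, hz, rfl⟩
    rw [← Q.map_comp_apply]
    exact mem_mulF (AddSubgroup.subset_closure ⟨M, h, f, hh, hf, rfl⟩) hz
  · rw [map_zero]
    exact AddSubgroup.zero_mem _
  · intro a b _ _ ha hb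
    rw [map_add]
    exact AddSubgroup.add_mem _ ha hb
  · intro a _ ha
    rw [map_neg]
    exact AddSubgroup.neg_mem _ ha

/-- the powers of an ideal, `J ^ 0` = all maps -/
def jp (J : HomIdeal A) : ℕ → HomIdeal A
  | 0 => top A
  | m + 1 => mul (jp J m) J

theorem mul_mono {I I' J : HomIdeal A} (h : ∀ M N, I.carrier M N ≤ I'.carrier M N) (M N : FGMod A) :
    (mul I J).carrier M N ≤ (mul I' J).carrier M N := by
  change AddSubgroup.closure _ ≤ _
  rw [AddSubgroup.closure_le]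
  rintro _ ⟨X, g, f, hg, hf, rfl⟩
  exact AddSubgroup.subset_closure ⟨X, g, f, h _ _ hg, hf, rfl⟩

theorem mul_le_right {I J : HomIdeal A} {M N : FGMod A} :
    (mul I J).carrier M N ≤ J.carrier M N := by
  change AddSubgroup.closure _ ≤ _
  rw [AddSubgroup.closure_le]
  rintro _ ⟨X, g, f, _, hf, rfl⟩
  exact J.comp_left g f hf

theorem jp_le_radPow (β : Ordinal.{w}) (m : ℕ) (M N : FGMod A) :
    (jp (radStep A (Ordinal.omega0 * β)).1 (m + 1)).carrier M N ≤
      (radPow A (Ordinal.omega0 * β + m)).carrier M N := by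
  induction m generalizing M N with
  | zero =>
    rw [Nat.cast_zero, add_zero]
    exact mul_le_right.trans (base_le_radPow β M N)
  | succ m ih =>
    rw [radPow_add_succ]
    exact mul_mono ih M N

theorem HasWidth.base_mono {B B' G : SubFunctor Q} {k : ℕ} (h : HasWidth B k G) (h1 : B ≤ B')
    (h2 : B' ≤ G) : HasWidth B' k G := by
  obtain ⟨D, hcard, hind, hGD⟩ := h
  refine ⟨D, hcard, hind, fun X x => ⟨fun hx => ((hGD X x).1 hx).base_mono h1, ?_⟩⟩
  rintro ⟨b, hb, f, _, rfl⟩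
  refine AddSubgroup.add_mem _ (h2 X hb) (AddSubgroup.sum_mem _ fun i _ => ?_)
  exact G.map_mem _ _ ((hGD _ _).2 (inSpan_self B D i))

theorem exists_component [IsArtinianRing A] (T : SubFunctor Q) {N : FGMod A} {y : Q.obj N}
    (h : y ∉ T.carrier N) :
    ∃ (M : FGMod A) (p : N →ₗ[A] M), Indec M ∧ Q.map p y ∉ T.carrier M := by
  obtain ⟨ι, hι, M, a, p, hM, hsum⟩ := decomposes N
  by_contra hno
  push Not at hno
  apply h
  have h1 : y = ∑ i, Q.map (a i) (Q.map (p i) y) := by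
    have h2 : ∀ i, Q.map (a i) (Q.map (p i) y) = Q.map (a i ∘ₗ p i) y := fun i =>
      (Q.map_comp_apply _ _ _).symm
    rw [Finset.sum_congr rfl fun i _ => h2 i, ← Q.map_sum_apply, hsum, Q.map_id_apply]
  rw [h1]
  exact AddSubgroup.sum_mem _ fun i _ => T.map_mem _ _ (hno (M i) (p i) (hM i))

/-- an element together with a subfunctor -/
structure Item (Q : AddFunctor.{u, v} A) where
  N : FGMod A
  x : Q.obj N
  T : SubFunctor Q

/-- the elements of a list of items -/
def listData (l : List (Item Q)) : GenData Q :=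
  ⟨Fin l.length, fun i => (l.get i).N, fun i => (l.get i).x⟩

theorem not_mem_spanJ_self (T : SubFunctor Q) {N : FGMod A} {x : Q.obj N} (hx : x ∉ T.carrier N) :
    x ∉ spanJ T (rad A) (oneData N x) N := by
  rintro ⟨b, hb, h, hh, e⟩
  apply hx
  obtain ⟨g, hg⟩ : ∃ g : N →ₗ[A] N, g = h () := ⟨_, rfl⟩
  have e1 : x = b + Q.map g x := by
    rw [hg]
    refine e.trans ?_
    congr 1
    exact Fintype.sum_unique (fun i : Unit => Q.map (h i) x)
  have hu : IsUnit ((1 : Module.End A N) - (LinearMap.id : N →ₗ[A] N) ∘ₗ g) := by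
    rw [hg]
    exact hh () LinearMap.id
  rw [LinearMap.id_comp] at hu
  obtain ⟨a, ha⟩ := hu
  have e2 : Q.map ((1 : Module.End A N) - g) x = b := by
    have e3 : Q.map (1 : Module.End A N) x = x := Q.map_id_apply x
    have e4 : Q.map ((1 : Module.End A N) - g) x = Q.map (1 : Module.End A N) x - Q.map g x :=
      Q.map_sub_apply (1 : Module.End A N) g x
    rw [e4, e3]
    exact sub_eq_of_eq_add e1
  have e4 : Q.map ((↑a⁻¹ : Module.End A N) : N →ₗ[A] N) b = x := by
    rw [← e2, ← ha, ← Q.map_comp_apply]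
    have e5 : ((↑a⁻¹ : Module.End A N) : N →ₗ[A] N) ∘ₗ ((a : Module.End A N) : N →ₗ[A] N) =
        LinearMap.id := a.inv_mul
    rw [e5, Q.map_id_apply]
  rw [← e4]
  exact T.map_mem _ _ hb

theorem length_le_of_list [IsArtinianRing A] {c : SubFunctor Q} : ∀ (l : List (Item Q))
    (ψ : SubFunctor Q) (k : ℕ), HasWidth ψ k c →
    (∀ a ∈ l, Indec a.N ∧ a.x ∈ c.carrier a.N ∧ ψ ≤ a.T ∧ a.x ∉ a.T.carrier a.N ∧
      ∀ (M : FGMod A) (z : Q.obj M) (h : M →ₗ[A] a.N), z ∈ c.carrier M → h ∈ (rad A).carrier M a.N →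
        Q.map h z ∈ spanJ a.T (rad A) (oneData a.N a.x) a.N) →
    l.Pairwise (fun a b => b.x ∈ a.T.carrier b.N ∧ a.x ∈ b.T.carrier a.N) → l.length ≤ k := by
  intro l
  induction l with
  | nil => exact fun _ _ _ _ _ => Nat.zero_le _
  | cons a l ih =>
    intro ψ k hW hl hp
    obtain ⟨hN, hxc, hψT, hxT, hrad⟩ := hl a List.mem_cons_self
    obtain ⟨k', rfl, hW'⟩ := width_step hW hN hxc (T := spanJ a.T (rad A) (oneData a.N a.x) a.N)
      (fun x hx => inSpan_base (hψT _ hx)) hrad (not_mem_spanJ_self a.T hxT)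
    obtain ⟨hp1, hp2⟩ := List.pairwise_cons.1 hp
    have h1 := ih (ψ.adj a.N a.x) k' hW' (fun b hb => by
      obtain ⟨g1, g2, g3, g4, g5⟩ := hl b (List.mem_cons_of_mem _ hb)
      exact ⟨g1, g2, adj_le g3 (hp1 b hb).2, g4, g5⟩) hp2
    rw [List.length_cons]
    omega

/-- irredundant families have at most `k` members if all widths are at most `k` -/
theorem length_le_width [IsArtinianRing A] {B : SubFunctor Q} {k : ℕ} (l : List (Item Q))
    (hW : HasWidth B k (spanF B (listData l)))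
    (hl : ∀ a ∈ l, Indec a.N ∧ B ≤ a.T ∧ a.x ∉ a.T.carrier a.N)
    (hp : l.Pairwise (fun a b => b.x ∈ a.T.carrier b.N ∧ a.x ∈ b.T.carrier a.N)) : l.length ≤ k := by
  classical
  have hp' := List.pairwise_iff_get.1 hp
  refine length_le_of_list l B k hW (fun a ha => ?_) hp
  obtain ⟨h1, h2, h3⟩ := hl a ha
  obtain ⟨i0, hi0⟩ := List.get_of_mem ha
  subst hi0
  refine ⟨h1, inSpan_self B (listData l) i0, h2, h3, ?_⟩
  rintro M z h ⟨b, hb, f, _, rfl⟩ hh
  rw [map_add, map_sum]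
  refine AddSubgroup.add_mem _ (inSpan_base (h2 _ (B.map_mem h b hb)))
    (AddSubgroup.sum_mem _ fun i _ => ?_)
  rw [← Q.map_comp_apply]
  by_cases hi : i = i0
  · subst hi
    refine ⟨0, AddSubgroup.zero_mem _, fun _ => h ∘ₗ f i, fun _ => (rad A).comp_right h (f i) hh, ?_⟩
    rw [zero_add]
    exact (Fintype.sum_unique (fun _ : Unit => Q.map (h ∘ₗ f i) ((listData l).y i))).symm
  · refine inSpan_base ((l.get i0).T.map_mem _ _ ?_)
    rcases lt_or_gt_of_ne (α := Fin l.length) hi with h4 | h4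
    · exact (hp' i i0 h4).2
    · exact (hp' i0 i h4).1

end general

theorem mem_mulF_genF {J : HomIdeal A} {n : ℕ} {N X : FGMod A} {y : Fin n → N}
    {x : (powFunctor A n).obj X} (hx : x ∈ (mulF J (genF N y)).carrier X) :
    ∃ h ∈ J.carrier N X, x = (powFunctor A n).map h y := by
  refine AddSubgroup.closure_induction
    (p := fun x _ => ∃ h ∈ J.carrier N X, x = (powFunctor A n).map h y) ?_ ?_ ?_ ?_ hx
  · rintro _ ⟨M, f, z, hf, ⟨g, hg⟩, rfl⟩
    refine ⟨f ∘ₗ g, J.comp_right f g hf, ?_⟩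
    rw [(powFunctor A n).map_comp_apply]
    congr 1
    funext i
    exact hg i
  · exact ⟨0, AddSubgroup.zero_mem _, ((powFunctor A n).map_zero_apply (N := X) y).symm⟩
  · rintro _ _ _ _ ⟨h, hh, rfl⟩ ⟨h', hh', rfl⟩
    exact ⟨h + h', AddSubgroup.add_mem _ hh hh', ((powFunctor A n).map_add_apply h h' y).symm⟩
  · rintro _ _ ⟨h, hh, rfl⟩
    exact ⟨-h, AddSubgroup.neg_mem _ hh, ((powFunctor A n).map_neg_apply h y).symm⟩

end Pool.Agent.Lib.MP_8e135c_al
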