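import Pool.Agent.Lib.MP_8e135c_al.Sharp2

/-!
# Intervals of bounded width: the m-dimension is at most the exponent of the radical
-/

set_option autoImplicit false

universe u v w x

namespace Pool.Agent.Lib.MP_8e135c_al

open HomIdeal

variable {A : Type u} [Ring A]

/-- every pp condition in `[c, χ]` has width at most `k` over `c` -/
def WidthIn {n : ℕ} (k : ℕ) (c χ : PPCond A n) : Prop :=
  ∀ e : PPCond A n, c ≤ e → e ≤ χ → HasWidth c.1 k e.1

theorem WidthIn.sub {n k : ℕ} {c χ c' χ' : PPCond A n} (h : WidthIn k c χ) (h1 : c ≤ c')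
    (h3 : χ' ≤ χ) : WidthIn k c' χ' := fun e h4 h5 =>
  (h e (h1.trans h4) (h5.trans h3)).base_mono h1 h4

/-- finitely generated modules are reflexive: for every subfunctor `G` and every `X` there is a largest
pp condition `T` with `T (X) ⊆ G (X)`, namely `z ∈ T (Z)` iff `g z ∈ G (X)` for all `g : Z → X` -/
def HasCofree (A : Type u) [Ring A] : Prop :=
  ∀ (n : ℕ) (G : SubFunctor (powFunctor A n)) (X : FGMod A), ∃ T : PPCond A n,
    ∀ (Z : FGMod A) (z : Fin n → Z), z ∈ T.1.carrier Z ↔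
      ∀ g : Z →ₗ[A] X, (powFunctor A n).map g z ∈ G.carrier X

/-- every pp condition is determined by its solutions in one finitely generated module -/
def HasTarget (A : Type u) [Ring A] : Prop :=
  ∀ (n : ℕ) (ψ : PPCond A n), ∃ Y : FGMod A, ∀ T : PPCond A n,
    (∀ x, x ∈ T.1.carrier Y → x ∈ ψ.1.carrier Y) → T ≤ ψ

section

variable [IsArtinianRing A] {n : ℕ}

/-- the pp condition generated by one element -/
def genP (N : FGMod A) (y : Fin n → N) : PPCond A n := ⟨genF N y, isPP_genF N y⟩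

theorem genP_le {N : FGMod A} {y : Fin n → N} {c : PPCond A n} (h : y ∈ c.1.carrier N) :
    genP N y ≤ c := by
  rintro X x ⟨f, hf⟩
  have h2 : x = (powFunctor A n).map f y := funext hf
  rw [h2]
  exact c.1.map_mem f _ h

theorem mem_genP (N : FGMod A) (y : Fin n → N) : y ∈ (genP N y).1.carrier N :=
  ⟨LinearMap.id, fun _ => rfl⟩

theorem genP_of (c : PPCond A n) : ∃ (N : FGMod A) (y : Fin n → N), c = genP N y := by
  obtain ⟨N, y, h⟩ := exists_genF c.2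
  exact ⟨N, y, Subtype.ext h⟩

/-- the existence statement `S (β)`: near `χ` the subfunctor `c + P χ` is approximated, at every
module, by pp conditions `T` with `[T, χ]` of m-dimension less than `β` -/
def SB (A : Type u) [Ring A] [IsArtinianRing A] (n : ℕ) (P : HomIdeal A) (β : Ordinal.{w}) (k : ℕ) : Prop :=
  ∀ c χ : PPCond A n, c ≤ χ → WidthIn k c χ → ∀ X : FGMod A, ∃ T : PPCond A n, c ≤ T ∧ T ≤ χ ∧
    (∀ x, x ∈ T.1.carrier X → x ∈ (c.1 ⊔ mulF P χ.1).carrier X) ∧ MDimLT β T χ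

/-- the same for the powers `J ^ m` with lengths -/
def SM (A : Type u) [Ring A] [IsArtinianRing A] (n : ℕ) (J : HomIdeal A) (β : Ordinal.{w}) (k m : ℕ) :
    Prop :=
  ∀ c χ : PPCond A n, c ≤ χ → WidthIn k c χ → ∀ X : FGMod A, ∃ T : PPCond A n, c ≤ T ∧ T ≤ χ ∧
    (∀ x, x ∈ T.1.carrier X → x ∈ (c.1 ⊔ mulF (jp J m) χ.1).carrier X) ∧ ¬ Steps β (k * m + 1) T χ

/-- the length bound for intervals in which `e + J χ` is small -/
def Star (A : Type u) [Ring A] [IsArtinianRing A] (n : ℕ) (J : HomIdeal A) (β : Ordinal.{w}) (k : ℕ) :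
    Prop :=
  ∀ e χ : PPCond A n, e ≤ χ → WidthIn k e χ →
    (∀ e' : PPCond A n, e ≤ e' → e' ≤ χ → e'.1 ≤ e.1 ⊔ mulF J χ.1 → MDimLT β e e') →
    ¬ Steps β (k + 1) e χ

theorem pick {β : Ordinal.{w}} {P : HomIdeal A} {e D D1 χ Θ : PPCond A n} {k : ℕ}
    (hS : SB A n P β k) (hW : WidthIn k e χ)
    (hstar : ∀ e' : PPCond A n, e ≤ e' → e' ≤ χ → e'.1 ≤ e.1 ⊔ mulF P χ.1 → MDimLT β e e')
    (h1 : e ≤ D) (h2 : D ≤ D1) (h3 : D1 ≤ χ) (h5 : MDimLT β Θ χ)
    (h6 : ¬ MDimLT β D D1) :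
    ∃ (N : FGMod A) (x : (powFunctor A n).obj N) (T : PPCond A n), Indec N ∧
      x ∈ (D1 ⊓ Θ).1.carrier N ∧ D ≤ T ∧ T ≤ χ ∧ MDimLT β T χ ∧ x ∉ T.1.carrier N := by
  have hDχ : D ≤ χ := h2.trans h3
  obtain ⟨N, y, hE⟩ := genP_of (D1 ⊓ Θ)
  have hy : y ∈ (D1 ⊓ Θ).1.carrier N := by
    rw [hE]
    exact mem_genP N y
  have hy1 : y ∈ D1.1.carrier N := (inf_le_left : D1 ⊓ Θ ≤ D1) N hy
  have key : y ∉ (D.1 ⊔ mulF P χ.1).carrier N := by
    intro hc
    obtain ⟨d, hd, t, ht, hdt⟩ := mem_supF.1 hc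
    have htχ : t ∈ χ.1.carrier N := mulF_le P χ.1 N ht
    have e1 : e ≤ e ⊔ genP N t := le_sup_left
    have e2 : e ⊔ genP N t ≤ χ := sup_le (h1.trans hDχ) (genP_le htχ)
    have e3 : (e ⊔ genP N t).1 ≤ e.1 ⊔ mulF P χ.1 := by
      refine sup_le le_sup_left ?_
      rintro X x ⟨f, hf⟩
      have h7 : x = (powFunctor A n).map f t := funext hf
      rw [h7]
      exact (le_sup_right : mulF P χ.1 ≤ e.1 ⊔ mulF P χ.1) X ((mulF P χ.1).map_mem f _ ht)
    have h7 := hstar _ e1 e2 e3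
    have h8 := (MDimLT.inf_sup β h7 D).2
    rw [sup_eq_right.2 h1] at h8
    have h9 : D1 ⊓ Θ ≤ (e ⊔ genP N t) ⊔ D := by
      rw [hE]
      apply genP_le
      rw [← hdt]
      refine AddSubgroup.add_mem _ ?_ ?_
      · exact (le_sup_right : D ≤ (e ⊔ genP N t) ⊔ D) N hd
      · exact ((le_sup_right : genP N t ≤ e ⊔ genP N t).trans le_sup_left) N (mem_genP N t)
    have h10 : MDimLT β D (D1 ⊓ Θ ⊔ D) := h8.sub le_rfl le_sup_right (sup_le h9 le_sup_right)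
    have h11 := (MDimLT.inf_sup β (MDimLT.inf_sup β h5 D1).1 D).2
    rw [inf_eq_right.2 h3, inf_comm, sup_eq_left.2 h2] at h11
    exact h6 (h10.trans h11)
  obtain ⟨T, h7, h8, h9, h10⟩ := hS D χ hDχ (hW.sub h1 le_rfl) N
  have hyT : y ∉ T.1.carrier N := fun hc => key (h9 y hc)
  obtain ⟨M, p, hM, hp⟩ := exists_component T.1 hyT
  exact ⟨M, _, T, hM, (D1 ⊓ Θ).1.map_mem p _ hy, h7, h8, h10, hp⟩

theorem exists_family {β : Ordinal.{w}} {P : HomIdeal A} {e χ : PPCond A n} {k : ℕ}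
    (hS : SB A n P β k) (hW : WidthIn k e χ)
    (hstar : ∀ e' : PPCond A n, e ≤ e' → e' ≤ χ → e'.1 ≤ e.1 ⊔ mulF P χ.1 → MDimLT β e e') :
    ∀ (r : ℕ) (D Θ : PPCond A n), e ≤ D → Θ ≤ χ → MDimLT β Θ χ → Steps β r D χ →
      ∃ l : List (Item (powFunctor A n)), l.length = r ∧
        (∀ a ∈ l, Indec a.N ∧ a.x ∈ Θ.1.carrier a.N ∧ D.1 ≤ a.T ∧ a.x ∉ a.T.carrier a.N) ∧
        l.Pairwise (fun a b => b.x ∈ a.T.carrier b.N ∧ a.x ∈ b.T.carrier a.N) := by
  intro r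
  induction r with
  | zero =>
    intro D Θ _ _ _ _
    exact ⟨[], rfl, fun a ha => absurd ha List.not_mem_nil, List.Pairwise.nil⟩
  | succ r ih =>
    intro D Θ h1 h4 h5 hst
    obtain ⟨D1, h2, h6, hst'⟩ := hst.uncons
    obtain ⟨N, x, T, hN, hx, hDT, hTχ, hTd, hxT⟩ := pick hS hW hstar h1 h2 hst'.le h5 h6
    have h7 : MDimLT β (Θ ⊓ T) χ := by
      have h8 := (MDimLT.inf_sup β hTd Θ).1
      rw [inf_eq_right.2 h4, inf_comm] at h8
      exact h8.trans h5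
    obtain ⟨l, hl1, hl2, hl3⟩ := ih D1 (Θ ⊓ T) (h1.trans h2) (inf_le_left.trans h4) h7 hst'
    refine ⟨⟨N, x, T.1⟩ :: l, by rw [List.length_cons, hl1], ?_, ?_⟩
    · intro a ha
      rcases List.mem_cons.1 ha with rfl | ha
      · exact ⟨hN, (inf_le_right : D1 ⊓ Θ ≤ Θ) _ hx, hDT, hxT⟩
      · obtain ⟨g1, g2, g3, g4⟩ := hl2 a ha
        exact ⟨g1, (inf_le_left : Θ ⊓ T ≤ Θ) _ g2, (show D.1 ≤ D1.1 from h2).trans g3, g4⟩
    · refine List.pairwise_cons.2 ⟨fun b hb => ?_, hl3⟩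
      obtain ⟨g1, g2, g3, g4⟩ := hl2 b hb
      exact ⟨(inf_le_right : Θ ⊓ T ≤ T) _ g2, g3 _ ((inf_le_left : D1 ⊓ Θ ≤ D1) _ hx)⟩

theorem star_pos {β : Ordinal.{w}} {P : HomIdeal A} {k : ℕ} (hS : SB A n P β k) :
    Star A n P β k := by
  intro e χ heχ hW hstar hst
  obtain ⟨l, h1, h2, h3⟩ := exists_family hS hW hstar (k + 1) e χ le_rfl le_rfl (MDimLT.refl _ _) hst
  obtain ⟨c, hc⟩ : ∃ c : PPCond A n, c.1 = spanF e.1 (listData l) :=
    ⟨⟨_, isPP_spanF e.2 (listData l)⟩, rfl⟩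
  have h4 : e ≤ c := by
    intro X x hx
    have h5 : x ∈ (spanF e.1 (listData l)).carrier X := inSpan_base hx
    rw [← hc] at h5
    exact h5
  have h5 : c ≤ χ := by
    intro X x hx
    rw [hc] at hx
    obtain ⟨b, hb, f, _, rfl⟩ := hx
    refine AddSubgroup.add_mem _ (heχ X hb) (AddSubgroup.sum_mem _ fun i _ => χ.1.map_mem _ _ ?_)
    exact (h2 _ (List.get_mem l i)).2.1
  have h6 := hW c h4 h5
  rw [hc] at h6
  have h7 := length_le_width l h6 (fun a ha => ⟨(h2 a ha).1, (h2 a ha).2.2.1, (h2 a ha).2.2.2⟩) h3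
  omega

theorem steps_zero_le {χ : PPCond A n} : ∀ (r k : ℕ) (D : PPCond A n), HasWidth D.1 k χ.1 →
    (mulF (rad A) χ.1 ≤ D.1) → Steps (0 : Ordinal.{w}) r D χ → r ≤ k := by
  intro r
  induction r with
  | zero => exact fun _ _ _ _ _ => Nat.zero_le _
  | succ r ih =>
    intro k D hW hrad hst
    obtain ⟨D1, h2, h6, hst'⟩ := hst.uncons
    have h7 : ∃ (X : FGMod A) (x : (powFunctor A n).obj X), x ∈ D1.1.carrier X ∧ x ∉ D.1.carrier X := by
      by_contra hno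
      push Not at hno
      have h8 : D1 ≤ D := fun X x hx => hno X x hx
      exact h6 ((MDimLT_iff _ _ _).2 (Or.inl (le_antisymm h2 h8)))
    obtain ⟨X, x, hx1, hx2⟩ := h7
    obtain ⟨M, p, hM, hp⟩ := exists_component D.1 hx2
    have hx3 : (powFunctor A n).map p x ∈ D1.1.carrier M := D1.1.map_mem p x hx1
    obtain ⟨k', rfl, hW'⟩ := width_step hW hM (hst'.le M hx3) (T := D.1.carrier M) le_rfl
      (fun N z h hz hh => hrad M (mem_mulF hh hz)) hp
    have hW'' : HasWidth D1.1 k' χ.1 := hW'.base_mono (adj_le h2 hx3) hst'.le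
    have := ih k' D1 hW'' (hrad.trans h2) hst'
    omega

theorem star_zero (k : ℕ) : Star.{u, w} A n (rad A) 0 k := by
  intro e χ heχ hW hstar hst
  have hrad : mulF (rad A) χ.1 ≤ e.1 := by
    intro X t ht
    have htχ : t ∈ χ.1.carrier X := mulF_le _ χ.1 X ht
    have h1 := hstar (e ⊔ genP X t) le_sup_left (sup_le heχ (genP_le htχ)) (by
      refine sup_le le_sup_left ?_
      rintro Z x ⟨f, hf⟩
      have h7 : x = (powFunctor A n).map f t := funext hf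
      rw [h7]
      exact (le_sup_right : mulF (rad A) χ.1 ≤ e.1 ⊔ mulF (rad A) χ.1) Z
        ((mulF (rad A) χ.1).map_mem f _ ht))
    rw [MDimLT_iff] at h1
    rcases h1 with h1 | ⟨β, hβ, _⟩
    · rw [h1]
      exact (le_sup_right : genP X t ≤ e ⊔ genP X t) X (mem_genP X t)
    · exact absurd hβ (not_lt_bot)
  have := steps_zero_le (k + 1) k e (hW χ heχ le_rfl) hrad hst
  omega

theorem sm_zero (J : HomIdeal A) (β : Ordinal.{w}) (k : ℕ) : SM A n J β k 0 := by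
  intro c χ hcχ _ X
  refine ⟨χ, hcχ, le_rfl, fun x hx => ?_, ?_⟩
  · refine (le_sup_right : mulF (jp J 0) χ.1 ≤ c.1 ⊔ mulF (jp J 0) χ.1) X ?_
    have h1 : (powFunctor A n).map (LinearMap.id : X →ₗ[A] X) x = x := AddFunctor.map_id_apply _ x
    rw [← h1]
    exact mem_mulF trivial hx
  · rintro ⟨d, h1, h2, h3⟩
    have h4 : d = χ := le_antisymm h2 h1.le
    rw [h4] at h3
    exact h3 (MDimLT.refl _ _)

theorem sm_succ (hcof : HasCofree A) {J : HomIdeal A} {β : Ordinal.{w}} {k m : ℕ}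
    (hstar : Star A n J β k) (h : SM A n J β k m) : SM A n J β k (m + 1) := by
  classical
  intro c χ hcχ hW X
  obtain ⟨G, hG⟩ : ∃ G : SubFunctor (powFunctor A n), G = c.1 ⊔ mulF (jp J (m + 1)) χ.1 := ⟨_, rfl⟩
  obtain ⟨T0, hT0⟩ := hcof n G X
  obtain ⟨T, hT⟩ : ∃ T : PPCond A n, T = χ ⊓ T0 := ⟨_, rfl⟩
  have hGT0 : G ≤ T0.1 := fun Z z hz => (hT0 Z z).2 fun g => G.map_mem g z hz
  have hGχ : G ≤ χ.1 := by
    rw [hG]
    exact sup_le hcχ (mulF_le _ _)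
  have hGT : G ≤ T.1 := by
    rw [hT]
    exact (le_inf hGχ hGT0 : G ≤ χ.1 ⊓ T0.1)
  have hcT : c ≤ T := by
    refine le_trans (b := G) ?_ hGT
    rw [hG]
    exact le_sup_left
  have hTχ : T ≤ χ := by
    rw [hT]
    exact inf_le_left
  have hTX : ∀ x, x ∈ T.1.carrier X → x ∈ G.carrier X := by
    intro x hx
    rw [hT] at hx
    have h1 := (hT0 X x).1 ((inf_le_right : χ ⊓ T0 ≤ T0) X hx) LinearMap.id
    rwa [AddFunctor.map_id_apply] at h1
  have huniv : ∀ T' : PPCond A n, T' ≤ χ → (∀ x, x ∈ T'.1.carrier X → x ∈ G.carrier X) → T' ≤ T := by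
    intro T' h1 h2
    rw [hT]
    refine le_inf h1 fun Z z hz => (hT0 Z z).2 fun g => h2 _ (T'.1.map_mem g z hz)
  have hclaim : ∀ e : PPCond A n, T ≤ e → e ≤ χ → e.1 ≤ T.1 ⊔ mulF J χ.1 →
      ¬ Steps β (k * m + 1) T e := by
    intro e h1 h2 h3
    obtain ⟨T', h4, h5, h6, h7⟩ := h T e h1 (hW.sub hcT h2) X
    have h8 : T' ≤ T := by
      refine huniv T' (h5.trans h2) fun x hx => ?_
      obtain ⟨t, ht, z, hz, rfl⟩ := mem_supF.1 (h6 x hx)
      refine AddSubgroup.add_mem _ (hTX t ht) ?_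
      have h9 : mulF (jp J m) e.1 ≤ T.1 ⊔ mulF (jp J (m + 1)) χ.1 :=
        (mulF_mono (fun _ _ => le_rfl) h3).trans mulF_supF_le
      obtain ⟨t', ht', z', hz', rfl⟩ := mem_supF.1 (h9 X hz)
      refine AddSubgroup.add_mem _ (hTX t' ht') ?_
      rw [hG]
      exact (le_sup_right : mulF (jp J (m + 1)) χ.1 ≤ _) X hz'
    have h9 : T' = T := le_antisymm h8 h4
    rwa [h9] at h7
  -- an admissible `e` of maximal length over `T`
  obtain ⟨p, e, he1, he2, he3, he4, he5⟩ : ∃ (p : ℕ) (e : PPCond A n), T ≤ e ∧ e ≤ χ ∧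
      e.1 ≤ T.1 ⊔ mulF J χ.1 ∧ Steps β p T e ∧
      ∀ e' : PPCond A n, T ≤ e' → e' ≤ χ → e'.1 ≤ T.1 ⊔ mulF J χ.1 → ¬ Steps β (p + 1) T e' := by
    have hex : ∃ p, ∀ e' : PPCond A n, T ≤ e' → e' ≤ χ → e'.1 ≤ T.1 ⊔ mulF J χ.1 →
        ¬ Steps β (p + 1) T e' := ⟨k * m, hclaim⟩
    obtain ⟨p, hp, hmin⟩ : ∃ p, (∀ e' : PPCond A n, T ≤ e' → e' ≤ χ → e'.1 ≤ T.1 ⊔ mulF J χ.1 →
        ¬ Steps β (p + 1) T e') ∧ ∀ q < p, ¬ ∀ e' : PPCond A n, T ≤ e' → e' ≤ χ →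
        e'.1 ≤ T.1 ⊔ mulF J χ.1 → ¬ Steps β (q + 1) T e' :=
      ⟨Nat.find hex, Nat.find_spec hex, fun q hq => Nat.find_min hex hq⟩
    cases p with
    | zero => exact ⟨0, T, le_rfl, hTχ, le_sup_left, le_refl T, hp⟩
    | succ p =>
      have h1 := hmin p (Nat.lt_succ_self p)
      push Not at h1
      obtain ⟨e, h2, h3, h4, h5⟩ := h1
      exact ⟨p + 1, e, h2, h3, h4, h5, hp⟩
  have h1 : ¬ Steps β (k + 1) e χ := by
    refine hstar e χ he2 (hW.sub (hcT.trans he1) le_rfl) fun e' h2 h3 h4 => ?_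
    by_contra h5
    have h6 : e'.1 ≤ T.1 ⊔ mulF J χ.1 := h4.trans (sup_le he3 le_sup_right)
    exact he5 e' (he1.trans h2) h3 h6 ⟨e, he4, h2, h5⟩
  have h2 := not_steps_add he1 he2 (hclaim e he1 he2 he3) h1
  refine ⟨T, hcT, hTχ, fun x hx => ?_, ?_⟩
  · have h3 := hTX x hx
    rwa [hG] at h3
  · have h3 : k * (m + 1) + 1 = k * m + k + 1 := by ring
    rw [h3]
    exact h2

theorem sm_all (hcof : HasCofree A) {J : HomIdeal A} {β : Ordinal.{w}} {k : ℕ}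
    (hstar : Star A n J β k) (m : ℕ) : SM A n J β k m := by
  induction m with
  | zero => exact sm_zero J β k
  | succ m ih => exact sm_succ hcof hstar ih

omit [IsArtinianRing A] in
/-- the base of the block `ω β` -/
theorem base_eq {β : Ordinal.{w}} (hβ : β ≠ 0) :
    (radStep A (Ordinal.omega0 * β)).1 = radPow A (Ordinal.omega0 * β) := by
  have h1 : Order.IsSuccLimit (Ordinal.omega0 * β) :=
    Ordinal.isSuccLimit_mul_left Ordinal.isSuccLimit_omega0 (pos_iff_ne_zero.2 hβ)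
  unfold radPow
  rw [radStep_limit _ h1]

theorem star_all {β : Ordinal.{w}} {k : ℕ} (hS : SB A n (radPow A (Ordinal.omega0 * β)) β k) :
    Star A n (radStep A (Ordinal.omega0 * β)).1 β k := by
  rcases eq_or_ne β 0 with rfl | h
  · rw [mul_zero, radStep_zero]
    exact star_zero k
  · rw [base_eq h]
    exact star_pos hS

theorem sb_all (hD : HomDCC A) (hcof : HasCofree A) (k : ℕ) (β : Ordinal.{w}) :
    SB A n (radPow A (Ordinal.omega0 * β)) β k := by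
  induction β using Ordinal.limitRecOn with
  | zero =>
    intro c χ hcχ _ X
    refine ⟨χ, hcχ, le_rfl, fun x hx => ?_, MDimLT.refl _ _⟩
    refine (le_sup_right : _ ≤ c.1 ⊔ mulF (radPow A (Ordinal.omega0 * 0)) χ.1) X ?_
    have h1 : (powFunctor A n).map (LinearMap.id : X →ₗ[A] X) x = x := AddFunctor.map_id_apply _ x
    rw [← h1]
    refine mem_mulF ?_ hx
    unfold radPow
    rw [mul_zero, radStep_zero]
    exact trivial
  | add_one β ih =>
    intro c χ hcχ hW X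
    obtain ⟨N, y, rfl⟩ := genP_of χ
    have h1 : Ordinal.omega0 * (β + 1) = Ordinal.omega0 * β + Ordinal.omega0 := mul_add_one _ _
    have h2 : Order.IsSuccLimit (Ordinal.omega0 * β + Ordinal.omega0) :=
      Ordinal.isSuccLimit_add _ Ordinal.isSuccLimit_omega0
    obtain ⟨μ, hμ, h3⟩ := exists_stable hD (Set.Iio (Ordinal.omega0 * β + Ordinal.omega0))
      ⟨0, h2.bot_lt⟩ (fun _ : Unit => N) X
    obtain ⟨m, hm⟩ : ∃ m : ℕ, μ ≤ Ordinal.omega0 * β + m := by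
      rcases le_total μ (Ordinal.omega0 * β) with h4 | h4
      · exact ⟨0, by rw [Nat.cast_zero, add_zero]; exact h4⟩
      · have h5 : μ - Ordinal.omega0 * β < Ordinal.omega0 := by
          rw [Ordinal.sub_lt_of_le h4]
          exact hμ
        obtain ⟨m, hm⟩ := Ordinal.lt_omega0.1 h5
        refine ⟨m, ?_⟩
        rw [← hm, Ordinal.add_sub_cancel_of_le h4]
    obtain ⟨T, h4, h5, h6, h7⟩ := sm_all hcof (star_all ih) (m + 1) c (genP N y) hcχ hW X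
    refine ⟨T, h4, h5, fun x hx => ?_, mDimLT_succ_of_not_steps h5 h7⟩
    obtain ⟨b, hb, z, hz, rfl⟩ := mem_supF.1 (h6 x hx)
    obtain ⟨h, hh, rfl⟩ := mem_mulF_genF hz
    refine mem_supF.2 ⟨b, hb, _, mem_mulF ?_ (mem_genP N y), rfl⟩
    rw [h1]
    unfold radPow
    rw [radStep_limit _ h2]
    change h ∈ ⨅ ν : Set.Iio (Ordinal.omega0 * β + Ordinal.omega0), (radPow A ν.1).carrier _ _
    rw [AddSubgroup.mem_iInf]
    exact fun ν => h3 ν.1 ν.2 () (radPow_anti hm _ _ (jp_le_radPow β m _ _ hh))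
  | limit β hβ ih =>
    intro c χ hcχ hW X
    obtain ⟨N, y, rfl⟩ := genP_of χ
    have h2 : Order.IsSuccLimit (Ordinal.omega0 * β) :=
      Ordinal.isSuccLimit_mul_left Ordinal.isSuccLimit_omega0 hβ.bot_lt
    obtain ⟨μ, hμ, h3⟩ := exists_stable hD (Set.Iio (Ordinal.omega0 * β))
      ⟨0, h2.bot_lt⟩ (fun _ : Unit => N) X
    obtain ⟨γ, hγ, h8⟩ := (Ordinal.lt_mul_iff_of_isSuccLimit hβ).1 hμ
    obtain ⟨T, h4, h5, h6, h7⟩ := ih γ hγ c (genP N y) hcχ hW X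
    refine ⟨T, h4, h5, fun x hx => ?_, h7.mono hγ.le⟩
    obtain ⟨b, hb, z, hz, rfl⟩ := mem_supF.1 (h6 x hx)
    obtain ⟨h, hh, rfl⟩ := mem_mulF_genF hz
    refine mem_supF.2 ⟨b, hb, _, mem_mulF ?_ (mem_genP N y), rfl⟩
    unfold radPow
    rw [radStep_limit _ h2]
    change h ∈ ⨅ ν : Set.Iio (Ordinal.omega0 * β), (radPow A ν.1).carrier _ _
    rw [AddSubgroup.mem_iInf]
    exact fun ν => h3 ν.1 ν.2 () (radPow_anti h8.le _ _ hh)

/-- **The sharp bound.** -/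
theorem not_steps_of_width (hD : HomDCC A) (hcof : HasCofree A) (htar : HasTarget A)
    (α : Ordinal.{w}) (m : ℕ) (hz : ∀ (M N : FGMod A) (f : M →ₗ[A] N),
      f ∈ (radPow A (Ordinal.omega0 * α + m)).carrier M N → f = 0) {k : ℕ} {ψ χ : PPCond A n}
    (hψχ : ψ ≤ χ) (hW : WidthIn k ψ χ) : ¬ Steps α (k * (m + 1) + 1) ψ χ := by
  obtain ⟨Y, hY⟩ := htar n ψ
  obtain ⟨T, h4, h5, h6, h7⟩ := sm_all hcof (star_all (sb_all hD hcof k α)) (m + 1) ψ χ hψχ hW Y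
  have h8 : T ≤ ψ := by
    refine hY T fun x hx => ?_
    obtain ⟨b, hb, z, hz', rfl⟩ := mem_supF.1 (h6 x hx)
    obtain ⟨N, y, hχ⟩ := genP_of χ
    rw [hχ] at hz'
    obtain ⟨h, hh, rfl⟩ := mem_mulF_genF hz'
    have h9 : h = 0 := hz _ _ _ (jp_le_radPow α m _ _ hh)
    rw [h9, AddFunctor.map_zero_apply, add_zero]
    exact hb
  have h9 : T = ψ := le_antisymm h8 h4
  rwa [h9] at h7

end

end Pool.Agent.Lib.MP_8e135c_al
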