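import Pool.Agent.Lib.MP_8e135c_al.Target

/-!
# Duality for pp conditions, with the base ring in an arbitrary universe
-/

set_option autoImplicit false

universe u v w x

namespace Pool.Agent.Lib.MP_8e135c_al

/-- the image of `K` in `A` -/
theorem exists_small_base (K : Type x) (A : Type u) [CommRing K] [IsArtinianRing K] [Ring A]
    [Algebra K A] [Module.Finite K A] :
    ∃ (K' : Type u) (_ : CommRing K') (_ : IsArtinianRing K') (_ : Algebra K' A)
      (_ : Module.Finite K' A), ∀ k' : K', ∃ k : K, algebraMap K' A k' = algebraMap K A k := by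
  have hc : ∀ k : K, algebraMap K A k ∈ Subring.center A := fun k =>
    Subring.mem_center_iff.2 fun a => (Algebra.commutes k a).symm
  obtain ⟨f, hf⟩ : ∃ f : K →+* Subring.center A, ∀ k, (f k : A) = algebraMap K A k :=
    ⟨(algebraMap K A).codRestrict (Subring.center A) hc, fun k => rfl⟩
  obtain ⟨j, hj⟩ : ∃ j : f.range →+* A, ∀ k, j k = ((k : Subring.center A) : A) :=
    ⟨(Subring.center A).subtype.comp f.range.subtype, fun k => rfl⟩
  let alg : Algebra f.range A := j.toAlgebra' fun c a => by
    rw [hj]
    exact (Subring.mem_center_iff.1 (c : Subring.center A).2 a).symm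
  have halg : ∀ c : f.range, algebraMap f.range A c = ((c : Subring.center A) : A) := hj
  have hart : IsArtinianRing f.range :=
    Function.Surjective.isArtinianRing (f := f.rangeRestrict) f.rangeRestrict_surjective
  let algK : Algebra K f.range := f.rangeRestrict.toAlgebra
  have hK : ∀ k : K, algebraMap K f.range k = f.rangeRestrict k := fun k => rfl
  have htow : IsScalarTower K f.range A := IsScalarTower.of_algebraMap_eq fun k => by
    rw [halg, hK]
    exact (hf k).symm
  refine ⟨f.range, inferInstance, hart, alg, Module.Finite.of_restrictScalars_finite K f.range A, ?_⟩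
  rintro ⟨_, k, rfl⟩
  exact ⟨k, (halg _).trans (hf k)⟩

variable {A : Type u} [Ring A]

/-- **Cogenerated subfunctors are pp conditions.** -/
theorem isPP_coSub' (K : Type x) [CommRing K] [IsArtinianRing K] [Algebra K A] [Module.Finite K A]
    {n : ℕ} (X : FGMod A) (V : AddSubgroup (Fin n → X))
    (hV : ∀ (k : K) (v : Fin n → X), v ∈ V → (fun i => algebraMap K A k • v i) ∈ V) :
    IsPP (coSub X V) := by
  obtain ⟨K', _, _, _, _, h⟩ := exists_small_base K A
  refine isPP_coSub K' X V fun k' v hv => ?_
  obtain ⟨k, hk⟩ := h k'
  rw [hk]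
  exact hV k v hv

/-- the value of a subfunctor is closed under central scalars -/
theorem SubFunctor.smul_mem (K : Type x) [CommRing K] [Algebra K A] {n : ℕ}
    (G : SubFunctor (powFunctor A n)) (X : FGMod A) (k : K) (v : Fin n → X)
    (hv : v ∈ G.carrier X) : (fun i => algebraMap K A k • v i) ∈ G.carrier X :=
  G.map_mem (M := X) (N := X)
    { toFun := fun x => algebraMap K A k • x
      map_add' := fun x y => smul_add _ _ _
      map_smul' := fun a x => by
        rw [RingHom.id_apply, ← mul_smul, Algebra.commutes, mul_smul] } v hv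

/-- for a subfunctor `G` and a module `X` the largest subfunctor `T` with `T X ⊆ G X` is a pp
condition -/
theorem isPP_coSub_carrier (K : Type x) [CommRing K] [IsArtinianRing K] [Algebra K A]
    [Module.Finite K A] {n : ℕ} (X : FGMod A) (G : SubFunctor (powFunctor A n)) :
    IsPP (coSub X (G.carrier X)) :=
  isPP_coSub' K X _ fun k v hv => G.smul_mem K X k v hv

/-- **Essential targets.** -/
theorem exists_target' (K : Type x) [CommRing K] [IsArtinianRing K] [Algebra K A]
    [Module.Finite K A] {n : ℕ} (ψ : SubFunctor (powFunctor A n)) (hψ : IsPP ψ) :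
    ∃ Y : FGMod A, ∀ T : SubFunctor (powFunctor A n), T.carrier Y ≤ ψ.carrier Y → T ≤ ψ := by
  obtain ⟨K', _, _, _, _, _⟩ := exists_small_base K A
  exact exists_target K' ψ hψ

end Pool.Agent.Lib.MP_8e135c_al
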