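import Pool.Agent.Lib.MP_8e135c_al.Sharp3
import Pool.Agent.Lib.MP_8e135c_al.BreadthPP
import Pool.Agent.Lib.MP_8e135c_al.TargetU

/-!
# Intervals of bounded breadth over an artin algebra
-/

set_option autoImplicit false

universe u v w x

namespace Pool.Agent.Lib.MP_8e135c_al

open HomIdeal

/-- the interval `[a, b]` has length at most `N` modulo intervals of m-dimension `< α`: there is a
chain `a = d 0 ≤ d 1 ≤ ... ≤ d N = b` such that for every `e` in a step `[d i, d (i + 1)]` one of the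
intervals `[d i, e]`, `[e, d (i + 1)]` has m-dimension `< α` -/
def MLengthLE {P : Type v} [Preorder P] (α : Ordinal.{w}) (N : ℕ) (a b : P) : Prop :=
  ∃ d : ℕ → P, d 0 = a ∧ d N = b ∧ ∀ i, d i ≤ d (i + 1) ∧
    ∀ e, d i ≤ e → e ≤ d (i + 1) → MDimLT α (d i) e ∨ MDimLT α e (d (i + 1))

/-- so the m-dimension is at most `α` -/
theorem MLengthLE.mDimLT {P : Type v} [PartialOrder P] {α : Ordinal.{w}} {N : ℕ} {a b : P}
    (h : MLengthLE α N a b) : MDimLT (α + 1) a b := by
  obtain ⟨d, rfl, rfl, h⟩ := h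
  rw [MDimLT_iff]
  refine Or.inr ⟨α, Order.lt_add_one_iff.2 le_rfl, ?_⟩
  induction N with
  | zero => exact Relation.ReflTransGen.refl
  | succ N ih => exact ih.tail (h N)

section chains

variable {P : Type v} [Lattice P] [IsModularLattice P]

omit [IsModularLattice P] in
theorem exists_simple_chain {β : Ordinal.{w}} (p : ℕ) {a b : P} (h : Steps β (p + 1) a b)
    (h' : ¬ Steps β (p + 2) a b) : ∃ d : ℕ → P, d 0 = a ∧ (∀ i, p < i → d i = b) ∧
      ∀ i, d i ≤ d (i + 1) ∧ ∀ e, d i ≤ e → e ≤ d (i + 1) → MDimLT β (d i) e ∨ MDimLT β e (d (i + 1)) := by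
  induction p generalizing b with
  | zero =>
    refine ⟨fun i => if i = 0 then a else b, if_pos rfl, fun i hi => if_neg hi.ne', fun i => ?_⟩
    beta_reduce
    rw [if_neg (Nat.succ_ne_zero i)]
    by_cases hi : i = 0
    · rw [if_pos hi]
      refine ⟨h.le, fun e h1 h2 => ?_⟩
      by_contra h3
      push Not at h3
      exact h' ⟨e, ⟨a, le_refl a, h1, h3.1⟩, h2, h3.2⟩
    · rw [if_neg hi]
      refine ⟨le_rfl, fun e h1 h2 => ?_⟩
      rw [le_antisymm h2 h1]
      exact Or.inl (MDimLT.refl _ _)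
  | succ p ih =>
    obtain ⟨c, h1, h2, h3⟩ := h
    obtain ⟨d, hd0, hd1, hd2⟩ := ih h1 (fun h4 => h' ⟨c, h4, h2, h3⟩)
    refine ⟨fun i => if i ≤ p + 1 then d i else b, ?_, fun i hi => if_neg (by omega), fun i => ?_⟩
    · beta_reduce
      rw [if_pos (Nat.zero_le _)]
      exact hd0
    · beta_reduce
      rcases lt_trichotomy i (p + 1) with hi | hi | hi
      · rw [if_pos hi.le, if_pos (by omega)]
        exact hd2 i
      · rw [if_pos hi.le, if_neg (by omega), hd1 i (by omega)]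
        refine ⟨h2, fun e h4 h5 => ?_⟩
        by_contra h6
        push Not at h6
        exact h' ⟨e, ⟨c, h1, h4, h6.1⟩, h5, h6.2⟩
      · rw [if_neg (by omega), if_neg (by omega)]
        refine ⟨le_rfl, fun e h4 h5 => ?_⟩
        rw [le_antisymm h5 h4]
        exact Or.inl (MDimLT.refl _ _)

theorem mLengthLE_of_not_steps {β : Ordinal.{w}} {N : ℕ} {a b : P} (hab : a ≤ b)
    (hN : N = 0 → a = b) (h : ¬ Steps β (N + 1) a b) : MLengthLE β N a b := by
  classical
  rcases Nat.eq_zero_or_pos N with h0 | h0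
  · have := hN h0
    subst this
    refine ⟨fun _ => a, rfl, rfl, fun i => ⟨le_rfl, fun e h1 h2 => ?_⟩⟩
    have h3 : e = a := le_antisymm h2 h1
    rw [h3]
    exact Or.inl (MDimLT.refl _ _)
  · have hex : ∃ p, ¬ Steps β (p + 1) a b := ⟨N, h⟩
    obtain ⟨p, hp, hmin⟩ : ∃ p, ¬ Steps β (p + 1) a b ∧ ∀ q < p, ¬ ¬ Steps β (q + 1) a b :=
      ⟨Nat.find hex, Nat.find_spec hex, fun q hq => Nat.find_min hex hq⟩
    have hpN : p ≤ N := by
      by_contra h1
      exact hmin N (by omega) h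
    cases p with
    | zero =>
      refine ⟨fun i => if i = 0 then a else b, if_pos rfl, if_neg h0.ne', fun i => ?_⟩
      beta_reduce
      rw [if_neg (Nat.succ_ne_zero i)]
      by_cases hi : i = 0
      · rw [if_pos hi]
        refine ⟨hab, fun e h1 h2 => ?_⟩
        left
        by_contra h3
        exact hp ⟨a, le_refl a, hab, fun h4 => h3 (h4.sub le_rfl h1 h2)⟩
      · rw [if_neg hi]
        refine ⟨le_rfl, fun e h1 h2 => ?_⟩
        rw [le_antisymm h2 h1]
        exact Or.inl (MDimLT.refl _ _)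
    | succ p =>
      have h1 := hmin p (Nat.lt_succ_self p)
      push Not at h1
      obtain ⟨d, hd0, hd1, hd2⟩ := exists_simple_chain p h1 hp
      exact ⟨d, hd0, hd1 N (by omega), hd2⟩

end chains

variable {A : Type u} [Ring A]

theorem hasCofree_of_artinAlgebra (K : Type x) [CommRing K] [IsArtinianRing K] [Algebra K A]
    [Module.Finite K A] : HasCofree A := fun _ G X =>
  ⟨⟨coSub X (G.carrier X), isPP_coSub_carrier K X G⟩, fun _ _ => Iff.rfl⟩

theorem hasTarget_of_artinAlgebra (K : Type x) [CommRing K] [IsArtinianRing K] [Algebra K A]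
    [Module.Finite K A] : HasTarget A := fun _ ψ => by
  obtain ⟨Y, hY⟩ := exists_target' K ψ.1 ψ.2
  exact ⟨Y, fun T hT => hY T.1 hT⟩

theorem widthIn_of_breadth [IsArtinianRing A] {r k : ℕ} {ψ χ : PPCond A r}
    (hbr : BreadthLE k ψ χ) : WidthIn k ψ χ := fun _ h1 h2 => hasWidth_of_breadth hbr h1 h2

/-- **The sharp bound.** -/
theorem mLengthLE_of_breadth (K : Type x) [CommRing K] [IsArtinianRing K] [Algebra K A]
    [Module.Finite K A] (α : Ordinal.{w}) (m : ℕ) (hz : ∀ (M N : FGMod A) (f : Hom M N),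
      f ∈ (radPow A (Ordinal.omega0 * α + m)).carrier M N → f = 0) {r k : ℕ} {ψ χ : PPCond A r}
    (hψχ : ψ ≤ χ) (hbr : BreadthLE k ψ χ) : MLengthLE α (k * (m + 1)) ψ χ := by
  have : IsArtinianRing A := IsArtinianRing.of_finite K A
  refine mLengthLE_of_not_steps hψχ (fun h0 => ?_) (not_steps_of_width (homDCC_of_artinAlgebra K)
    (hasCofree_of_artinAlgebra K) (hasTarget_of_artinAlgebra K) α m hz hψχ (widthIn_of_breadth hbr))
  have hk : k = 0 := by
    rcases Nat.mul_eq_zero.1 h0 with h1 | h1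
    · exact h1
    · omega
  subst hk
  obtain ⟨i, hi⟩ := hbr (fun _ => χ) fun _ => ⟨hψχ, le_rfl⟩
  exact le_antisymm hψχ (hi ψ le_rfl fun j hj => absurd (Fin.ext (by omega)) hj)

end Pool.Agent.Lib.MP_8e135c_al
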