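import Pool.Agent.Lib.MP_8e135c_al.Dual

/-!
# Essential targets of pp conditions over an artin algebra
-/

set_option autoImplicit false

universe u v w

namespace Pool.Agent.Lib.MP_8e135c_al

section target

variable (K A : Type u) [CommRing K] [Ring A] [Algebra K A] (E : Type u) [AddCommGroup E] [Module K E]

/-- `K`-linear maps from the space of rows `A ^ l` to `E` -/
def DualRow (l : ℕ) : Type u := (Fin l → A) →ₗ[K] E

instance (l : ℕ) : AddCommGroup (DualRow K A E l) :=
  inferInstanceAs (AddCommGroup ((Fin l → A) →ₗ[K] E))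

instance (l : ℕ) : Module K (DualRow K A E l) :=
  inferInstanceAs (Module K ((Fin l → A) →ₗ[K] E))

variable {K A E}

/-- the value at a row -/
def DualRow.ev {l : ℕ} (φ : DualRow K A E l) : (Fin l → A) →ₗ[K] E := φ

theorem DualRow.ext {l : ℕ} {φ ψ : DualRow K A E l} (h : ∀ x, φ.ev x = ψ.ev x) : φ = ψ :=
  LinearMap.ext (f := φ.ev) (g := ψ.ev) h

/-- right multiplication of rows -/
def rmul (l : ℕ) (a : A) : (Fin l → A) →ₗ[K] (Fin l → A) :=
  LinearMap.pi fun i => LinearMap.mulRight K a ∘ₗ LinearMap.proj i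

theorem rmul_apply (l : ℕ) (a : A) (x : Fin l → A) (i : Fin l) : rmul (K := K) l a x i = x i * a := rfl

instance (l : ℕ) : Module A (DualRow K A E l) where
  smul a φ := (φ.ev ∘ₗ rmul l a : (Fin l → A) →ₗ[K] E)
  one_smul φ := DualRow.ext fun x => by
    change φ.ev (rmul l 1 x) = φ.ev x
    congr 1
    funext i
    rw [rmul_apply, mul_one]
  mul_smul a b φ := DualRow.ext fun x => by
    change φ.ev (rmul l (a * b) x) = φ.ev (rmul l b (rmul l a x))
    congr 1
    funext i
    rw [rmul_apply, rmul_apply, rmul_apply, mul_assoc]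
  smul_zero a := DualRow.ext fun x => rfl
  zero_smul φ := DualRow.ext fun x => by
    change φ.ev (rmul l 0 x) = 0
    have h : rmul (K := K) l (0 : A) x = 0 := funext fun i => by
      rw [rmul_apply, mul_zero]
      rfl
    rw [h, map_zero]
  smul_add a φ ψ := DualRow.ext fun x => rfl
  add_smul a b φ := DualRow.ext fun x => by
    change φ.ev (rmul l (a + b) x) = φ.ev (rmul l a x) + φ.ev (rmul l b x)
    rw [← map_add]
    congr 1
    funext i
    rw [Pi.add_apply, rmul_apply, rmul_apply, rmul_apply, mul_add]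

theorem DualRow.ev_smul {l : ℕ} (a : A) (φ : DualRow K A E l) (x : Fin l → A) :
    (a • φ).ev x = φ.ev fun i => x i * a := rfl

theorem DualRow.ev_add {l : ℕ} (φ ψ : DualRow K A E l) (x : Fin l → A) :
    (φ + ψ).ev x = φ.ev x + ψ.ev x := rfl

theorem DualRow.ev_zero {l : ℕ} (x : Fin l → A) : (0 : DualRow K A E l).ev x = 0 := rfl

/-- evaluation at a row, as an additive map -/
def DualRow.evHom {l : ℕ} (x : Fin l → A) : DualRow K A E l →+ E where
  toFun φ := φ.ev x
  map_zero' := rfl
  map_add' _ _ := rfl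

instance (l : ℕ) : IsScalarTower K A (DualRow K A E l) := ⟨fun k a φ => DualRow.ext fun x => by
  rw [DualRow.ev_smul]
  change φ.ev (fun i => x i * (k • a)) = k • (a • φ).ev x
  rw [DualRow.ev_smul, ← map_smul]
  congr 1
  funext i
  rw [Pi.smul_apply, mul_smul_comm]⟩

/-- the functionals vanishing on the right submodule generated by the columns of `Q` -/
def annRow {l m : ℕ} (Q : Fin m → Fin l → A) : Submodule A (DualRow K A E l) where
  carrier := {φ | ∀ j (a : A), φ.ev (fun e => Q j e * a) = 0}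
  zero_mem' _ _ := rfl
  add_mem' {φ ψ} hφ hψ j a := by
    rw [DualRow.ev_add, hφ, hψ, add_zero]
  smul_mem' b φ hφ j a := by
    rw [DualRow.ev_smul]
    have h := hφ j (a * b)
    simp only [← mul_assoc] at h
    exact h

theorem mem_annRow {l m : ℕ} (Q : Fin m → Fin l → A) (φ : DualRow K A E l) :
    φ ∈ annRow Q ↔ ∀ j (a : A), φ.ev (fun e => Q j e * a) = 0 := Iff.rfl

end target

/-- **Essential targets.**  Every pp condition is determined, among all subfunctors, by its value at
one finitely generated module. -/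
theorem exists_target (K : Type u) {A : Type u} [CommRing K] [IsArtinianRing K] [Ring A]
    [Algebra K A] [Module.Finite K A] {n : ℕ} (ψ : SubFunctor (powFunctor A n)) (hψ : IsPP ψ) :
    ∃ Y : FGMod A, ∀ T : SubFunctor (powFunctor A n), T.carrier Y ≤ ψ.carrier Y → T ≤ ψ := by
  classical
  have hA : IsArtinianRing A := IsArtinianRing.of_finite K A
  obtain ⟨φ, rfl⟩ := hψ
  obtain ⟨E, _, _, hE⟩ := exists_dualizing (K := K)
  obtain ⟨Q, hQ⟩ : ∃ Q : Fin φ.m → Fin φ.l → A, ∀ j e, Q j e = φ.c e (Sum.inr j) :=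
    ⟨_, fun _ _ => rfl⟩
  have hfK : Module.Finite K (DualRow K A E φ.l) := by
    have : Module.Finite K ((Fin φ.l → A) →ₗ[K] E) := hE.finite
    exact this
  have hfA : Module.Finite A (DualRow K A E φ.l) := Module.Finite.of_restrictScalars_finite K A _
  have hfY : Module.Finite A (annRow (K := K) (E := E) Q) := inferInstance
  refine ⟨⟨annRow (K := K) (E := E) Q⟩, fun T hT Z z hz => ?_⟩
  obtain ⟨z', hz'⟩ : ∃ z' : Fin n → Z, z' = z := ⟨z, rfl⟩
  subst hz'
  change ppSol φ.c Z z'
  by_contra hno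
  let _ : Module K Z := kMod K Z
  have _ : IsScalarTower K A Z := kTower K Z
  -- the submodule `Q Z ^ m` of `Z ^ l`
  obtain ⟨R, hR⟩ : ∃ R : Submodule K (Fin φ.l → Z), R = LinearMap.range (relMap (K := K) (Z := Z) Q) :=
    ⟨_, rfl⟩
  obtain ⟨p, hp⟩ : ∃ p : Fin φ.l → Z, ∀ e, p e = ∑ i, φ.c e (Sum.inl i) • z' i := ⟨_, fun _ => rfl⟩
  have hpR : p ∉ R := by
    rw [hR]
    rintro ⟨w, hw⟩
    apply hno
    refine ⟨-w, fun e => ?_⟩
    have h1 : ∑ j, Q j e • w j = p e := congrFun hw e
    rw [← hp, ← h1, ← Finset.sum_add_distrib]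
    refine Finset.sum_eq_zero fun j _ => ?_
    rw [Pi.neg_apply, smul_neg, hQ]
    exact add_neg_cancel _
  obtain ⟨μ', hμ'⟩ := hE.sep (R.mkQ p) (fun h => hpR ((Submodule.Quotient.mk_eq_zero R).1 h))
  obtain ⟨μ, hμ⟩ : ∃ μ : (Fin φ.l → Z) →ₗ[K] E, ∀ y, μ y = μ' (R.mkQ y) := ⟨μ' ∘ₗ R.mkQ, fun y => rfl⟩
  have hμR : ∀ y ∈ R, μ y = 0 := fun y hy => by
    have h1 : R.mkQ y = 0 := (Submodule.Quotient.mk_eq_zero R).2 hy
    rw [hμ, h1, map_zero]
  obtain ⟨g0, hg0⟩ : ∃ g0 : Z → DualRow K A E φ.l, ∀ w x, (g0 w).ev x = μ fun e => x e • w := by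
    refine ⟨fun w => ({ toFun := fun x => μ fun e => x e • w
                        map_add' := fun x y => ?_
                        map_smul' := fun k x => ?_ } : (Fin φ.l → A) →ₗ[K] E), fun w x => rfl⟩
    · rw [← map_add]
      congr 1
      funext e
      exact add_smul _ _ _
    · rw [RingHom.id_apply, ← map_smul]
      congr 1
      funext e
      exact smul_assoc _ _ _
  have hg0Y : ∀ w, g0 w ∈ annRow (K := K) (E := E) Q := by
    intro w j a
    rw [hg0]
    apply hμR
    rw [hR]
    refine ⟨Pi.single j (a • w), funext fun e => ?_⟩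
    change ∑ j', Q j' e • (Pi.single j (a • w) : Fin φ.m → Z) j' = (Q j e * a) • w
    rw [Finset.sum_eq_single j]
    · rw [Pi.single_eq_same, mul_smul]
    · intro i _ hij
      rw [Pi.single_eq_of_ne hij, smul_zero]
    · intro h
      exact absurd (Finset.mem_univ j) h
  obtain ⟨g, hg⟩ : ∃ g : Z →ₗ[A] annRow (K := K) (E := E) Q, ∀ w, (g w : DualRow K A E φ.l) = g0 w := by
    refine ⟨{ toFun := fun w => ⟨g0 w, hg0Y w⟩
              map_add' := fun w w' => Subtype.ext (DualRow.ext fun x => ?_)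
              map_smul' := fun a w => Subtype.ext (DualRow.ext fun x => ?_) }, fun w => rfl⟩
    · change (g0 (w + w')).ev x = (g0 w).ev x + (g0 w').ev x
      rw [hg0, hg0, hg0, ← map_add]
      congr 1
      funext e
      exact smul_add _ _ _
    · change (g0 (a • w)).ev x = (a • g0 w).ev x
      rw [hg0, DualRow.ev_smul, hg0]
      congr 1
      funext e
      exact (mul_smul _ _ _).symm
  have h1 : (fun i => g (z' i)) ∈ (PPFormula.sol φ).carrier ⟨annRow (K := K) (E := E) Q⟩ :=
    hT (T.map_mem (M := Z) (N := ⟨annRow (K := K) (E := E) Q⟩) g z' hz)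
  obtain ⟨y, hy⟩ : ppSol φ.c (⟨annRow (K := K) (E := E) Q⟩ : FGMod A) (fun i => g (z' i)) := h1
  obtain ⟨y', hy'⟩ : ∃ y' : Fin φ.m → annRow (K := K) (E := E) Q, y' = y := ⟨y, rfl⟩
  subst hy'
  have h2 : ∀ e, ∑ i, φ.c e (Sum.inl i) • (g0 (z' i)) +
      ∑ j, φ.c e (Sum.inr j) • (y' j : DualRow K A E φ.l) = 0 := by
    intro e
    have h3 := congrArg (Subtype.val : annRow (K := K) (E := E) Q → DualRow K A E φ.l) (hy e)
    have h4 : ((∑ i, φ.c e (Sum.inl i) • g (z' i) + ∑ j, φ.c e (Sum.inr j) • y' j :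
        annRow (K := K) (E := E) Q) : DualRow K A E φ.l) =
        ∑ i, φ.c e (Sum.inl i) • (g0 (z' i)) + ∑ j, φ.c e (Sum.inr j) • (y' j : DualRow K A E φ.l) := by
      rw [Submodule.coe_add, Submodule.coe_sum, Submodule.coe_sum]
      congr 1
      exact Finset.sum_congr rfl fun i _ => by rw [Submodule.coe_smul, hg]
    rw [← h4]
    exact h3
  have h3 : ∀ e, ∑ i, μ (Pi.single e (φ.c e (Sum.inl i) • z' i)) +
      ∑ j, (y' j : DualRow K A E φ.l).ev (Pi.single e (Q j e)) = 0 := by
    intro e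
    have h4 := congrArg (DualRow.evHom (Pi.single e 1)) (h2 e)
    rw [map_add, map_sum, map_sum, map_zero] at h4
    rw [← h4]
    congr 1
    · refine Finset.sum_congr rfl fun i _ => ?_
      change _ = (φ.c e (Sum.inl i) • g0 (z' i)).ev (Pi.single e 1)
      rw [DualRow.ev_smul, hg0]
      congr 1
      funext e'
      by_cases h : e' = e
      · subst h
        rw [Pi.single_eq_same, Pi.single_eq_same, one_mul]
      · rw [Pi.single_eq_of_ne h, Pi.single_eq_of_ne h, zero_mul, zero_smul]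
    · refine Finset.sum_congr rfl fun j _ => ?_
      change _ = (φ.c e (Sum.inr j) • (y' j : DualRow K A E φ.l)).ev (Pi.single e 1)
      rw [DualRow.ev_smul]
      congr 1
      funext e'
      by_cases h : e' = e
      · subst h
        rw [Pi.single_eq_same, Pi.single_eq_same, one_mul, hQ]
      · rw [Pi.single_eq_of_ne h, Pi.single_eq_of_ne h, zero_mul]
  have h4 := Finset.sum_eq_zero fun e (_ : e ∈ Finset.univ) => h3 e
  rw [Finset.sum_add_distrib] at h4
  have h5 : ∑ e, ∑ j, (y' j : DualRow K A E φ.l).ev (Pi.single e (Q j e)) = 0 := by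
    rw [Finset.sum_comm]
    refine Finset.sum_eq_zero fun j _ => ?_
    rw [← map_sum, Finset.univ_sum_single]
    have h6 := (y' j).2 j 1
    simp only [mul_one] at h6
    exact h6
  have h6 : ∑ e, ∑ i, μ (Pi.single e (φ.c e (Sum.inl i) • z' i)) = μ p := by
    have h7 : ∀ e, ∑ i, μ (Pi.single e (φ.c e (Sum.inl i) • z' i)) = μ (Pi.single e (p e)) := by
      intro e
      rw [← map_sum, hp]
      congr 1
      funext e'
      rw [Finset.sum_apply]
      by_cases h : e' = e
      · subst h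
        rw [Pi.single_eq_same]
        exact Finset.sum_congr rfl fun i _ => Pi.single_eq_same _ _
      · rw [Pi.single_eq_of_ne h]
        exact Finset.sum_eq_zero fun i _ => Pi.single_eq_of_ne h _
    rw [Finset.sum_congr rfl fun e _ => h7 e, ← map_sum, Finset.univ_sum_single]
  rw [h5, h6, add_zero, hμ] at h4
  exact hμ' h4

end Pool.Agent.Lib.MP_8e135c_al
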