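import Pool.Agent.Lib.MP_8e135c_al.Dense
import Pool.Agent.Lib.MP_8e135c_al.MDim

/-!
# Uniserial intervals: the m-dimension is bounded by the nilpotency of the radical
-/

set_option autoImplicit false

universe u v w x

namespace Pool.Agent.Lib.MP_8e135c_al

open HomIdeal

/-! ### long chains modulo `MDimLT β` -/

section chains

variable {P : Type x} [PartialOrder P]

theorem MDimLT.succ_trans {β : Ordinal.{w}} {a b c : P} (h1 : MDimLT (β + 1) a b)
    (h2 : MDimLT (β + 1) b c) : MDimLT (β + 1) a c := by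
  have key : ∀ {a b : P}, MDimLT (β + 1) a b → Relation.ReflTransGen
      (fun c d => c ≤ d ∧ ∀ e, c ≤ e → e ≤ d → MDimLT β c e ∨ MDimLT β e d) a b := by
    intro a b h
    rw [MDimLT_iff] at h
    rcases h with rfl | ⟨γ, hγ, h⟩
    · exact Relation.ReflTransGen.refl
    · refine Relation.ReflTransGen.mono ?_ _ _ h
      rintro c d ⟨hcd, h3⟩
      refine ⟨hcd, fun e h4 h5 => ?_⟩
      rcases h3 e h4 h5 with h6 | h6
      · exact Or.inl (h6.mono (Order.lt_add_one_iff.1 hγ))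
      · exact Or.inr (h6.mono (Order.lt_add_one_iff.1 hγ))
  rw [MDimLT_iff]
  exact Or.inr ⟨β, Order.lt_add_one_iff.2 le_rfl, (key h1).trans (key h2)⟩

/-- `a = c_0 ≤ c_1 ≤ ... ≤ c_(m+1) = b` where no step is in `MDimLT β` -/
def LongChain (β : Ordinal.{w}) : ℕ → P → P → Prop
  | 0, a, b => a ≤ b ∧ ¬ MDimLT β a b
  | m + 1, a, b => ∃ c, LongChain β m a c ∧ c ≤ b ∧ ¬ MDimLT β c b

theorem LongChain.cons {β : Ordinal.{w}} {m : ℕ} {a c b : P} (h1 : a ≤ c) (h2 : ¬ MDimLT β a c)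
    (h : LongChain β m c b) : LongChain β (m + 1) a b := by
  induction m generalizing b with
  | zero => exact ⟨c, ⟨h1, h2⟩, h⟩
  | succ m ih =>
    obtain ⟨d, h3, h4, h5⟩ := h
    exact ⟨d, ih h3, h4, h5⟩

theorem LongChain.le {β : Ordinal.{w}} {m : ℕ} {a b : P} (h : LongChain β m a b) : a ≤ b := by
  induction m generalizing b with
  | zero => exact h.1
  | succ m ih =>
    obtain ⟨d, h3, h4, _⟩ := h
    exact (ih h3).trans h4

/-- the first step of a long chain -/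
theorem LongChain.uncons {β : Ordinal.{w}} {m : ℕ} {a b : P} (h : LongChain β (m + 1) a b) :
    ∃ c, a ≤ c ∧ ¬ MDimLT β a c ∧ LongChain β m c b := by
  induction m generalizing b with
  | zero =>
    obtain ⟨c, h1, h2⟩ := h
    exact ⟨c, h1.1, h1.2, h2⟩
  | succ m ih =>
    obtain ⟨d, h3, h4, h5⟩ := h
    obtain ⟨c, h6, h7, h8⟩ := ih h3
    exact ⟨c, h6, h7, d, h8, h4, h5⟩

theorem exists_longChain {β : Ordinal.{w}} (m : ℕ) {a b : P} (hab : a ≤ b)
    (h : ¬ MDimLT (β + 1) a b) : LongChain β m a b := by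
  induction m generalizing a b with
  | zero => exact ⟨hab, fun h1 => h (h1.mono (Order.lt_add_one_iff.2 le_rfl).le)⟩
  | succ m ih =>
    obtain ⟨c, h1, h2, h3, h4⟩ : ∃ c, a ≤ c ∧ c ≤ b ∧ ¬ MDimLT β a c ∧ ¬ MDimLT β c b := by
      by_contra hc
      push Not at hc
      apply h
      rw [MDimLT_iff]
      refine Or.inr ⟨β, Order.lt_add_one_iff.2 le_rfl, Relation.ReflTransGen.single ⟨hab, fun e h3 h4 => ?_⟩⟩
      by_cases h5 : MDimLT β a e
      · exact Or.inl h5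
      · exact Or.inr (hc e h3 h4 h5)
    by_cases h5 : MDimLT (β + 1) a c
    · have h6 : ¬ MDimLT (β + 1) c b := fun h7 => h (h5.succ_trans h7)
      exact (ih h2 h6).cons h1 h3
    · exact ⟨c, ih h1 h5, h2, h4⟩

end chains

variable {A : Type u} [Ring A] {Q : AddFunctor.{u, v} A}

/-- `x ∈ B(X) + J(N, X) y` -/
def Lk (B : SubFunctor Q) (J : HomIdeal A) (N : FGMod A) (y : Q.obj N) (X : FGMod A) (x : Q.obj X) :
    Prop :=
  ∃ c ∈ B.carrier X, ∃ f ∈ J.carrier N X, x = c + Q.map f y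

theorem Lk.mono {B : SubFunctor Q} {J J' : HomIdeal A} {N : FGMod A} {y : Q.obj N} {X : FGMod A}
    {x : Q.obj X} (h : Lk B J N y X x) (hJ : J.carrier N X ≤ J'.carrier N X) : Lk B J' N y X x := by
  obtain ⟨c, hc, f, hf, e⟩ := h
  exact ⟨c, hc, f, hJ hf, e⟩

theorem Lk.trans {B : SubFunctor Q} {I J : HomIdeal A} {N M X : FGMod A} {y : Q.obj N}
    {z : Q.obj M} {x : Q.obj X} (h : Lk B I M z X x) (h' : Lk B J N y M z) :
    Lk B (mul I J) N y X x := by
  obtain ⟨c, hc, f, hf, rfl⟩ := h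
  obtain ⟨c', hc', f', hf', rfl⟩ := h'
  refine ⟨c + Q.map f c', AddSubgroup.add_mem _ hc (B.map_mem f _ hc'), f ∘ₗ f',
    AddSubgroup.subset_closure ⟨_, _, _, hf, hf', rfl⟩, ?_⟩
  rw [map_add, Q.map_comp_apply, add_assoc]

theorem base_add_nat (μ : Ordinal.{w}) (m : ℕ) : (radStep A (μ + m)).1 = (radStep A μ).1 := by
  induction m with
  | zero => rw [Nat.cast_zero, add_zero]
  | succ m ih => rw [Nat.cast_succ, ← add_assoc, radStep_add_one, ih]

theorem radPow_add_succ (μ : Ordinal.{w}) (m : ℕ) :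
    radPow A (μ + (m + 1 : ℕ)) = mul (radPow A (μ + m)) (radStep A μ).1 := by
  have h : radPow A (μ + (m + 1 : ℕ)) = (radStep A (μ + m + 1)).2 := by
    unfold radPow
    rw [Nat.cast_succ, ← add_assoc]
  rw [h, radStep_add_one, base_add_nat]
  rfl

theorem base_le_radPow (β : Ordinal.{w}) (M N : FGMod A) :
    (radStep A (Ordinal.omega0 * β)).1.carrier M N ≤ (radPow A (Ordinal.omega0 * β)).carrier M N := by
  rcases eq_or_ne β 0 with rfl | h
  · unfold radPow
    rw [mul_zero, radStep_zero]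
    exact le_top
  · have h1 : Order.IsSuccLimit (Ordinal.omega0 * β) :=
      Ordinal.isSuccLimit_mul_left Ordinal.isSuccLimit_omega0 (pos_iff_ne_zero.2 h)
    unfold radPow
    rw [radStep_limit _ h1]

section core

variable {P : Type x} [PartialOrder P] {F : P → SubFunctor Q} {ψ χ : P} {N : P → FGMod A}
  {y : ∀ b, Q.obj (N b)}

theorem uni_rad [IsArtinianRing A] (hF : ∀ a b, a ≤ b ↔ F a ≤ F b)
    (hN : ∀ b, ψ < b → b ≤ χ → Indec (N b))
    (hgen : ∀ b, ψ < b → b ≤ χ → F b = (F ψ).adj (N b) (y b)) {a b : P} (ha : ψ < a) (hab : a < b)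
    (hb : b ≤ χ) : Lk (F ψ) (rad A) (N b) (y b) (N a) (y a) := by
  have h1 : y a ∈ (F a).carrier (N a) := by
    rw [hgen a ha (hab.le.trans hb)]
    exact ⟨0, AddSubgroup.zero_mem _, LinearMap.id, by rw [Q.map_id_apply, zero_add]⟩
  have h2 := (hF a b).1 hab.le _ h1
  rw [hgen b (ha.trans hab) hb] at h2
  obtain ⟨c, hc, f, e⟩ := h2
  refine ⟨c, hc, f, ?_, e⟩
  by_contra hf
  have hbij := bijective_of_not_mem_rad (hN b (ha.trans hab) hb) (hN a ha (hab.le.trans hb)) hf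
  obtain ⟨h, hh⟩ : ∃ h : N a →ₗ[A] N b, h ∘ₗ f = LinearMap.id := by
    refine ⟨(LinearEquiv.ofBijective f hbij).symm.toLinearMap, ?_⟩
    ext x
    exact (LinearEquiv.ofBijective f hbij).symm_apply_apply x
  have h3 : y b ∈ (F a).carrier (N b) := by
    have h4 : y b = Q.map h (y a) - Q.map h c := by
      rw [e, map_add, ← Q.map_comp_apply h f, hh, Q.map_id_apply]
      abel
    rw [h4]
    exact AddSubgroup.sub_mem _ ((F a).map_mem h _ h1) ((F a).map_mem h _ ((hF ψ a).1 ha.le _ hc))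
  refine absurd hab (not_lt_of_ge ((hF b a).2 ?_))
  rw [hgen b (ha.trans hab) hb]
  rintro X _ ⟨b', hb', g, rfl⟩
  exact AddSubgroup.add_mem _ ((hF ψ a).1 ha.le _ hb') ((F a).map_mem g _ h3)

theorem uni_chain {β : Ordinal.{w}}
    (hS : ∀ a b, ψ < a → a ≤ b → b ≤ χ → ¬ MDimLT β a b →
      Lk (F ψ) (radStep A (Ordinal.omega0 * β)).1 (N b) (y b) (N a) (y a)) {m : ℕ} {a b : P}
    (ha : ψ < a) (hb : b ≤ χ) (h : LongChain β m a b) :
    Lk (F ψ) (radPow A (Ordinal.omega0 * β + m)) (N b) (y b) (N a) (y a) := by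
  induction m generalizing b with
  | zero =>
    rw [Nat.cast_zero, add_zero]
    exact (hS a b ha h.1 hb h.2).mono (base_le_radPow β _ _)
  | succ m ih =>
    obtain ⟨c, h1, h2, h3⟩ := h
    rw [radPow_add_succ]
    exact (ih (h2.trans hb) h1).trans (hS c b (ha.trans_le h1.le) h2 hb h3)

theorem uni_link [IsArtinianRing A] (hD : HomDCC A) (hF : ∀ a b, a ≤ b ↔ F a ≤ F b)
    (hN : ∀ b, ψ < b → b ≤ χ → Indec (N b))
    (hgen : ∀ b, ψ < b → b ≤ χ → F b = (F ψ).adj (N b) (y b)) (β : Ordinal.{w}) :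
    ∀ a b, ψ < a → a ≤ b → b ≤ χ → ¬ MDimLT β a b →
      Lk (F ψ) (radStep A (Ordinal.omega0 * β)).1 (N b) (y b) (N a) (y a) := by
  induction β using Ordinal.limitRecOn with
  | zero =>
    intro a b ha hab hb h
    rw [mul_zero, radStep_zero]
    refine uni_rad hF hN hgen ha (lt_of_le_of_ne hab ?_) hb
    rintro rfl
    exact h ((MDimLT_iff _ _ _).2 (Or.inl rfl))
  | add_one β ih =>
    intro a b ha hab hb h
    have h1 : Ordinal.omega0 * (β + 1) = Ordinal.omega0 * β + Ordinal.omega0 := mul_add_one _ _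
    have h2 : Order.IsSuccLimit (Ordinal.omega0 * β + Ordinal.omega0) :=
      Ordinal.isSuccLimit_add _ Ordinal.isSuccLimit_omega0
    obtain ⟨μ, hμ, h3⟩ := exists_stable hD (Set.Iio (Ordinal.omega0 * β + Ordinal.omega0))
      ⟨0, h2.bot_lt⟩ (fun _ : Unit => N b) (N a)
    obtain ⟨m, hm⟩ : ∃ m : ℕ, μ ≤ Ordinal.omega0 * β + m := by
      rcases le_total μ (Ordinal.omega0 * β) with h4 | h4
      · exact ⟨0, by rw [Nat.cast_zero, add_zero]; exact h4⟩
      · have h5 : μ - Ordinal.omega0 * β < Ordinal.omega0 := by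
          rw [Ordinal.sub_lt_of_le h4]
          exact hμ
        obtain ⟨m, hm⟩ := Ordinal.lt_omega0.1 h5
        refine ⟨m, ?_⟩
        rw [← hm, Ordinal.add_sub_cancel_of_le h4]
    have h4 := uni_chain ih ha hb (exists_longChain m hab h)
    rw [h1, radStep_limit _ h2]
    refine h4.mono ?_
    change _ ≤ ⨅ ν : Set.Iio (Ordinal.omega0 * β + Ordinal.omega0), (radPow A ν.1).carrier _ _
    exact le_iInf fun ν => (radPow_anti hm _ _).trans (h3 ν.1 ν.2 ())
  | limit β hβ ih =>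
    intro a b ha hab hb h
    have h2 : Order.IsSuccLimit (Ordinal.omega0 * β) :=
      Ordinal.isSuccLimit_mul_left Ordinal.isSuccLimit_omega0 hβ.bot_lt
    obtain ⟨μ, hμ, h3⟩ := exists_stable hD (Set.Iio (Ordinal.omega0 * β))
      ⟨0, h2.bot_lt⟩ (fun _ : Unit => N b) (N a)
    obtain ⟨γ, hγ, h4⟩ := (Ordinal.lt_mul_iff_of_isSuccLimit hβ).1 hμ
    have h5 := ih γ hγ a b ha hab hb fun h6 => h (h6.mono hγ.le)
    rw [radStep_limit _ h2]
    refine h5.mono ((base_le_radPow γ _ _).trans ?_)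
    change _ ≤ ⨅ ν : Set.Iio (Ordinal.omega0 * β), (radPow A ν.1).carrier _ _
    exact le_iInf fun ν => (radPow_anti h4.le _ _).trans (h3 ν.1 ν.2 ())

/-- **Uniserial intervals**, abstract form. -/
theorem mDimLT_of_radPow_eq_zero [IsArtinianRing A] (hD : HomDCC A)
    (hF : ∀ a b, a ≤ b ↔ F a ≤ F b) (hN : ∀ b, ψ < b → b ≤ χ → Indec (N b))
    (hgen : ∀ b, ψ < b → b ≤ χ → F b = (F ψ).adj (N b) (y b)) (hψχ : ψ ≤ χ) (α : Ordinal.{w}) (n : ℕ)
    (hz : ∀ (M N : FGMod A) (f : M →ₗ[A] N), f ∈ (radPow A (Ordinal.omega0 * α + n)).carrier M N → f = 0) :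
    MDimLT (α + 1) ψ χ := by
  by_contra hc
  obtain ⟨a, h1, h2, h3⟩ := (exists_longChain (n + 1) hψχ hc).uncons
  have ha : ψ < a := lt_of_le_of_ne h1 fun h => h2 ((MDimLT_iff _ _ _).2 (Or.inl h))
  obtain ⟨c, hcB, f, hf, e⟩ := uni_chain (uni_link hD hF hN hgen α) ha le_rfl h3
  rw [hz _ _ f hf, Q.map_zero_apply, add_zero] at e
  refine absurd ha (not_lt_of_ge ((hF a ψ).2 ?_))
  rw [hgen a ha h3.le]
  rintro X _ ⟨b, hb, g, rfl⟩
  rw [e]
  exact AddSubgroup.add_mem _ hb ((F ψ).map_mem g _ hcB)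

end core

end Pool.Agent.Lib.MP_8e135c_al
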